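import Pool.Agent.W764.FB.Mix
import Pool.Agent.H706R2.Ren4

/-!
Complete convergence of the `×q` averages of characters.
-/

set_option autoImplicit false

open MeasureTheory Finset Metric Filter
open scoped ENNReal Topology

namespace Pool.Agent.W764.FB

open Pool.Agent.H706R2.Ren (U out measurableSet_U averages)

/-- complete convergence of the `×q` averages of characters to the mean -/
def CC (q : ℕ) (μ : Measure T) : Prop :=
  ∀ (m : ℤ) (t : ℝ), 0 < t →
    Summable fun L : ℕ => μ.real {x | t < ‖((L : ℂ))⁻¹ * es q m L x - fc μ m‖}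

lemma norm_es_le (q : ℕ) (m : ℤ) (L : ℕ) (x : T) : ‖es q m L x‖ ≤ L := by
  unfold es
  calc ‖∑ i ∈ range L, fourier m ((q ^ i) • x)‖ ≤ ∑ i ∈ range L, (1 : ℝ) := by
        refine norm_sum_le_of_le _ fun i _ => ?_
        exact (Circle.norm_coe _).le
    _ = L := by simp

lemma norm_fc_le (μ : Measure T) [IsProbabilityMeasure μ] (m : ℤ) : ‖fc μ m‖ ≤ 1 := by
  unfold fc
  have := norm_integral_le_of_norm_le_const (μ := μ) (f := fun x : T => fourier m x) (C := 1)
    (Eventually.of_forall fun x => (Circle.norm_coe _).le)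
  simpa using this

lemma norm_av_le (q : ℕ) (μ : Measure T) [IsProbabilityMeasure μ] (m : ℤ) (L : ℕ) (x : T) :
    ‖((L : ℂ))⁻¹ * es q m L x - fc μ m‖ ≤ 2 := by
  have h1 : ‖((L : ℂ))⁻¹ * es q m L x‖ ≤ 1 := by
    rw [norm_mul, norm_inv, Complex.norm_natCast]
    rcases Nat.eq_zero_or_pos L with h | h
    · subst h; simp
    · have hL : (0 : ℝ) < L := by exact_mod_cast h
      rw [inv_mul_le_iff₀ hL, mul_one]
      exact norm_es_le q m L x
  have h2 := norm_fc_le μ m
  have h3 := norm_sub_le (((L : ℂ))⁻¹ * es q m L x) (fc μ m)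
  linarith

lemma meanErg_of_cc {q : ℕ} {μ : Measure T} [IsProbabilityMeasure μ] (h : CC q μ) :
    MeanErg q μ := by
  intro m
  rw [Metric.tendsto_atTop]
  intro ε hε
  set t : ℝ := Real.sqrt (ε / 2) with ht
  have ht0 : 0 < t := Real.sqrt_pos.2 (by positivity)
  have ht2 : t ^ 2 = ε / 2 := Real.sq_sqrt (by positivity)
  have h1 := (h m t ht0).tendsto_atTop_zero
  obtain ⟨N, hN⟩ := Metric.tendsto_atTop.1 h1 (ε / 16) (by positivity)
  refine ⟨N, fun L hL => ?_⟩
  have h2 := hN L hL
  rw [Real.dist_eq, sub_zero, abs_of_nonneg measureReal_nonneg] at h2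
  rw [Real.dist_eq, sub_zero, abs_of_nonneg (integral_nonneg fun x => by positivity)]
  set S : Set T := {x | t < ‖((L : ℂ))⁻¹ * es q m L x - fc μ m‖} with hS
  have hcont : Continuous fun x => ((L : ℂ))⁻¹ * es q m L x - fc μ m :=
    ((continuous_es q m L).const_mul _).sub continuous_const
  have hSm : MeasurableSet S := measurableSet_lt measurable_const hcont.norm.measurable
  have h3 : ∫ x, ‖((L : ℂ))⁻¹ * es q m L x - fc μ m‖ ^ 2 ∂μ ≤
      ∫ x, (t ^ 2 + S.indicator (fun _ => (4 : ℝ)) x) ∂μ := by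
    refine integral_mono (es_integrable q m L _ _ μ)
      ((integrable_const _).add ((integrable_const _).indicator hSm)) fun x => ?_
    by_cases hx : x ∈ S
    · have := norm_av_le q μ m L x
      have h4 := norm_nonneg (((L : ℂ))⁻¹ * es q m L x - fc μ m)
      simp only [Set.indicator_of_mem hx]
      nlinarith
    · have h4 : ‖((L : ℂ))⁻¹ * es q m L x - fc μ m‖ ≤ t := not_lt.1 hx
      have h5 := norm_nonneg (((L : ℂ))⁻¹ * es q m L x - fc μ m)
      simp only [Set.indicator_of_notMem hx, add_zero]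
      exact pow_le_pow_left₀ h5 h4 2
  rw [integral_add (integrable_const _) ((integrable_const _).indicator hSm), integral_const,
    probReal_univ, one_smul, integral_indicator hSm, setIntegral_const, smul_eq_mul] at h3
  linarith

/-- **Complete convergence implies Lebesgue.** -/
theorem eq_volume_of_cc {p q : ℕ} (hp : p.Prime) (hq : 2 ≤ q) (hpq : ¬ p ∣ q) (μ : Measure T)
    [IsProbabilityMeasure μ] (hna : ∀ x, μ {x} = 0)
    (hip : MeasurePreserving (fun x : T => p • x) μ μ)
    (hiq : MeasurePreserving (fun x : T => q • x) μ μ) (h : CC q μ) : μ = volume := by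
  classical
  by_contra hne
  have hinj : EssInj p μ := by
    rcases dichotomy hp hq hpq μ hip (meanErg_of_cc h) with h1 | h1
    · exact absurd h1 hne
    · exact h1
  obtain ⟨c0, hc0, hmain⟩ := averages p q hp hq hpq
  obtain ⟨K, cen, ρ, hK, hρ, hKρ, hU⟩ := covering hp.two_le μ hip hinj (κ := 1 / 32)
    (c := c0 * (1 / 4) / 2) (by norm_num) (by positivity)
  have hU' : μ.real (U cen (2 * ρ / 2))ᶜ ≤ 1 / 32 := by
    have e : 2 * ρ / 2 = ρ := by ring
    rw [e]; exact hU
  obtain ⟨M, t, ht, htest⟩ := exists_test μ hK cen (ρ := 2 * ρ) (by positivity) hU'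
  refine hmain μ inferInstance hna hip hiq (1 / 4) K cen (2 * ρ) (by norm_num) (by norm_num) hK
    (by linarith) ?_
  have hs : Summable fun L : ℕ => ∑ m ∈ M,
      μ.real {x | t < ‖((L : ℂ))⁻¹ * es q m L x - fc μ m‖} := summable_sum fun m _ => h m t ht
  refine Summable.of_norm_bounded_eventually_nat hs ?_
  filter_upwards [eventually_ge_atTop 1] with L hL
  rw [Real.norm_of_nonneg measureReal_nonneg]
  have hLR : (0 : ℝ) < L := by exact_mod_cast hL
  refine le_trans (measureReal_mono ?_ (measure_ne_top _ _)) (measureReal_biUnion_finset_le M _)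
  intro y hy
  by_contra hcon
  simp only [Set.mem_iUnion, Set.mem_ofPred_eq, not_exists, not_lt] at hcon
  have h1 := htest (range L) (fun i => q ^ i) y (fun m hm => by
    have h2 := hcon m hm
    have e1 : ∑ i ∈ range L, (fourier m ((q ^ i) • y) - fc μ m) =
        L * (((L : ℂ))⁻¹ * es q m L y - fc μ m) := by
      have hLC : (L : ℂ) ≠ 0 := by exact_mod_cast hLR.ne'
      rw [sum_sub_distrib, sum_const, card_range, nsmul_eq_mul, mul_sub, ← mul_assoc,
        mul_inv_cancel₀ hLC, one_mul]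
      rfl
    rw [e1, norm_mul, Complex.norm_natCast, card_range, mul_comm]
    exact mul_le_mul_of_nonneg_right h2 hLR.le)
  rw [card_range] at h1
  have h3 : (out q (U cen (2 * ρ)) L y : ℝ) ≤ (L : ℝ) / 8 := by
    refine le_trans (le_of_eq ?_) h1
    have : out q (U cen (2 * ρ)) L y = #{i ∈ range L | (q ^ i) • y ∉ U cen (2 * ρ)} := by
      unfold out; congr!
    rw [this]
  have hy' : (1 / 2 - 1 / 4 : ℝ) * L ≤ out q (U cen (2 * ρ)) L y := hy
  linarith

/-! ### Lebesgue measure -/

lemma fc_vol {m : ℤ} (hm : m ≠ 0) : fc (volume : Measure T) m = 0 :=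
  Pool.Agent.H847R3.XpXq.integral_fourier_zero hm

lemma fc_zero (μ : Measure T) [IsProbabilityMeasure μ] : fc μ 0 = 1 := by
  unfold fc
  simp

lemma conj_mul_fourier (m : ℤ) (s t : ℕ) (x : T) :
    fourier m (s • x) * (starRingEnd ℂ) (fourier m (t • x)) = fourier (m * s - m * t) x := by
  rw [fourier_smul, fourier_smul, ← fourier_neg, sub_eq_add_neg, fourier_add]

lemma mul_pow_inj {p q : ℕ} (hp : p.Prime) (hq : 2 ≤ q) (hpq : ¬ p ∣ q) {a i b j : ℕ}
    (h : p ^ a * q ^ i = p ^ b * q ^ j) : a = b ∧ i = j := by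
  have key : ∀ a i b j : ℕ, a < b → p ^ a * q ^ i ≠ p ^ b * q ^ j := by
    intro a i b j hab h
    have e : p ^ b = p ^ a * p ^ (b - a) := by rw [← pow_add]; congr 1; omega
    rw [e, mul_assoc] at h
    have h1 := Nat.eq_of_mul_eq_mul_left (Nat.pow_pos hp.pos) h
    have h2 : p ∣ q ^ i := by
      rw [h1]
      exact (dvd_pow_self p (by omega)).mul_right _
    exact hpq (hp.dvd_of_dvd_pow h2)
  have hab : a = b := by
    rcases lt_trichotomy a b with h1 | h1 | h1
    · exact absurd h (key a i b j h1)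
    · exact h1
    · exact absurd h.symm (key b j a i h1)
  subst hab
  exact ⟨rfl, Nat.pow_right_injective hq (Nat.eq_of_mul_eq_mul_left (Nat.pow_pos hp.pos) h)⟩

lemma mix_vol {p q : ℕ} (hp : p.Prime) (hq : 2 ≤ q) (hpq : ¬ p ∣ q) :
    Mix p q (volume : Measure T) := by
  intro m
  refine ⟨1, 1, one_pos, fun a i b j => ?_⟩
  have hden : 0 < (1 + |(a : ℝ) - b| + |(i : ℝ) - j|) ^ (1 + 1 : ℝ) :=
    Real.rpow_pos_of_pos (by positivity) _
  rcases eq_or_ne m 0 with rfl | hm
  · have h1 : corr p q (volume : Measure T) 0 a i b j = 1 := by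
      unfold corr
      simp
    rw [h1, fc_zero]
    simp only [norm_one, one_pow, Complex.ofReal_one, sub_self, norm_zero]
    positivity
  · rw [fc_vol hm]
    simp only [norm_zero, ne_eq, OfNat.ofNat_ne_zero, not_false_eq_true, zero_pow,
      Complex.ofReal_zero, sub_zero]
    unfold corr
    simp_rw [conj_mul_fourier]
    by_cases h : p ^ a * q ^ i = p ^ b * q ^ j
    · obtain ⟨rfl, rfl⟩ := mul_pow_inj hp hq hpq h
      simp
    · rw [Pool.Agent.H847R3.XpXq.integral_fourier_zero]
      · rw [norm_zero]; positivity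
      · intro h0
        apply h
        have h1 : m * ((p ^ a * q ^ i : ℕ) : ℤ) = m * ((p ^ b * q ^ j : ℕ) : ℤ) := by linarith
        exact_mod_cast mul_left_cancel₀ hm h1

lemma pow_add_inj {q : ℕ} (hq : 2 ≤ q) {i j k l : ℕ} (h : q ^ i + q ^ j = q ^ k + q ^ l) :
    (i = k ∧ j = l) ∨ (i = l ∧ j = k) := by
  have key : ∀ i j k l : ℕ, i ≤ j → k ≤ l → q ^ i + q ^ j = q ^ k + q ^ l → ¬ j < l := by
    intro i j k l hij hkl h hjl
    have h1 : q ^ i ≤ q ^ j := Nat.pow_le_pow_right (by omega) hij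
    have h2 : q ^ j * q ≤ q ^ l := by
      rw [← pow_succ]
      exact Nat.pow_le_pow_right (by omega) hjl
    have h3 : q ^ j * 2 ≤ q ^ j * q := Nat.mul_le_mul_left _ hq
    have h4 : 0 < q ^ k := Nat.pow_pos (by omega)
    omega
  have key2 : ∀ i j k l : ℕ, i ≤ j → k ≤ l → q ^ i + q ^ j = q ^ k + q ^ l → i = k ∧ j = l := by
    intro i j k l hij hkl h
    have h1 : j = l := le_antisymm (not_lt.1 (key k l i j hkl hij h.symm))
      (not_lt.1 (key i j k l hij hkl h))
    subst h1
    refine ⟨Nat.pow_right_injective hq ?_, rfl⟩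
    show q ^ i = q ^ k
    omega
  rcases le_total i j with h1 | h1 <;> rcases le_total k l with h2 | h2
  · exact Or.inl (key2 i j k l h1 h2 h)
  · obtain ⟨a, b⟩ := key2 i j l k h1 h2 (by omega)
    exact Or.inr ⟨a, b⟩
  · obtain ⟨a, b⟩ := key2 j i k l h1 h2 (by omega)
    exact Or.inr ⟨b, a⟩
  · obtain ⟨a, b⟩ := key2 j i l k h1 h2 (by omega)
    exact Or.inl ⟨b, a⟩

/-- fourth moment of the exponential sums for Lebesgue measure -/
lemma fourth {q : ℕ} (hq : 2 ≤ q) {m : ℤ} (hm : m ≠ 0) (L : ℕ) :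
    ∫ x : T, ‖es q m L x‖ ^ 4 ≤ 2 * (L : ℝ) ^ 2 := by
  classical
  set I := range L ×ˢ range L with hI
  set s : ℕ × ℕ → ℤ := fun u => m * (q ^ u.1 : ℕ) + m * (q ^ u.2 : ℕ) with hs
  have hsq : ∀ x, es q m L x ^ 2 = ∑ u ∈ I, fourier (s u) x := by
    intro x
    unfold es
    rw [sq, sum_mul_sum, ← sum_product']
    refine sum_congr rfl fun u _ => ?_
    rw [fourier_smul, fourier_smul, ← fourier_add]
  have hpt : ∀ x, ((‖es q m L x‖ ^ 4 : ℝ) : ℂ) = ∑ u ∈ I, ∑ v ∈ I, fourier (s u - s v) x := by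
    intro x
    have h1 : ‖es q m L x‖ ^ 4 = ‖es q m L x ^ 2‖ ^ 2 := by rw [norm_pow]; ring
    have h2 : ∀ w : ℂ, ((‖w‖ ^ 2 : ℝ) : ℂ) = w * (starRingEnd ℂ) w := by
      intro w
      rw [Complex.mul_conj, Complex.normSq_eq_norm_sq]
    rw [h1, h2, hsq, map_sum, sum_mul_sum]
    refine sum_congr rfl fun u _ => sum_congr rfl fun v _ => ?_
    rw [← fourier_neg, sub_eq_add_neg]
    exact fourier_add.symm
  have hint : ((∫ x : T, ‖es q m L x‖ ^ 4 : ℝ) : ℂ) =
      ((∑ u ∈ I, ((I.filter fun v => s u = s v).card : ℝ) : ℝ) : ℂ) := by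
    rw [← integral_complex_ofReal]
    simp_rw [hpt]
    rw [integral_finsetSum _ fun u _ => integrable_finsetSum _ fun v _ =>
      integrable_cont volume (fourier (s u - s v))]
    push_cast
    refine sum_congr rfl fun u _ => ?_
    rw [integral_finsetSum _ fun v _ => integrable_cont volume (fourier (s u - s v)),
      card_filter]
    push_cast
    refine sum_congr rfl fun v _ => ?_
    split_ifs with h
    · rw [h, sub_self]; simp
    · exact Pool.Agent.H847R3.XpXq.integral_fourier_zero (sub_ne_zero.2 h)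
  have hint' : ∫ x : T, ‖es q m L x‖ ^ 4 = ∑ u ∈ I, ((I.filter fun v => s u = s v).card : ℝ) := by
    exact_mod_cast hint
  rw [hint']
  have hcard : ∀ u ∈ I, ((I.filter fun v => s u = s v).card : ℝ) ≤ 2 := by
    intro u _
    have hsub : I.filter (fun v => s u = s v) ⊆ {(u.1, u.2), (u.2, u.1)} := by
      intro v hv
      rw [mem_filter] at hv
      have h1 : m * ((q ^ u.1 + q ^ u.2 : ℕ) : ℤ) = m * ((q ^ v.1 + q ^ v.2 : ℕ) : ℤ) := by
        have := hv.2
        simp only [hs] at this
        push_cast at this ⊢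
        linarith
      have h2 : q ^ u.1 + q ^ u.2 = q ^ v.1 + q ^ v.2 := by
        exact_mod_cast mul_left_cancel₀ hm h1
      rw [mem_insert, mem_singleton]
      rcases pow_add_inj hq h2 with ⟨a, b⟩ | ⟨a, b⟩
      · left; exact Prod.ext a.symm b.symm
      · right; exact Prod.ext b.symm a.symm
    have := (card_le_card hsub).trans card_le_two
    exact_mod_cast this
  calc ∑ u ∈ I, ((I.filter fun v => s u = s v).card : ℝ) ≤ ∑ u ∈ I, (2 : ℝ) := sum_le_sum hcard
    _ = 2 * (L : ℝ) ^ 2 := by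
        rw [sum_const, hI, card_product, card_range, nsmul_eq_mul]
        push_cast
        ring

lemma cc_vol {q : ℕ} (hq : 2 ≤ q) : CC q (volume : Measure T) := by
  intro m t ht
  rcases eq_or_ne m 0 with rfl | hm
  · refine summable_of_ne_finset_zero (s := {0}) fun L hL => ?_
    rw [mem_singleton] at hL
    have hLC : (L : ℂ) ≠ 0 := by exact_mod_cast hL
    have : {x : T | t < ‖((L : ℂ))⁻¹ * es q 0 L x - fc volume 0‖} = ∅ := by
      ext x
      have e : es q 0 L x = L := by unfold es; simp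
      simp only [Set.mem_ofPred_eq, Set.mem_empty_iff_false, iff_false, not_lt]
      rw [fc_zero, e, inv_mul_cancel₀ hLC, sub_self, norm_zero]
      exact ht.le
    rw [this, measureReal_empty]
  · have hs : Summable fun L : ℕ => 2 / t ^ 4 * (1 / (L : ℝ) ^ 2) :=
      (Real.summable_one_div_nat_pow.2 (by norm_num)).mul_left _
    refine Summable.of_norm_bounded_eventually_nat hs ?_
    filter_upwards [eventually_ge_atTop 1] with L hL
    rw [Real.norm_of_nonneg measureReal_nonneg]
    have hLR : (0 : ℝ) < L := by exact_mod_cast hL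
    rw [fc_vol hm]
    have h1 := mul_meas_ge_le_integral_of_nonneg (μ := (volume : Measure T))
      (f := fun x => ‖es q m L x‖ ^ 4) (Eventually.of_forall fun x => by positivity)
      (Pool.Agent.H847R3.XpXq.integrable_of_cont ((continuous_es q m L).norm.pow 4) _)
      ((t * L) ^ 4)
    have h2 := h1.trans (fourth hq hm L)
    have h3 : (volume : Measure T).real {x | t < ‖((L : ℂ))⁻¹ * es q m L x - 0‖} ≤
        (volume : Measure T).real {x | (t * L) ^ 4 ≤ ‖es q m L x‖ ^ 4} := by
      refine measureReal_mono fun x hx => ?_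
      have hx' : t < ‖((L : ℂ))⁻¹ * es q m L x - 0‖ := hx
      rw [sub_zero, norm_mul, norm_inv, Complex.norm_natCast, lt_inv_mul_iff₀ hLR] at hx'
      show (t * L) ^ 4 ≤ ‖es q m L x‖ ^ 4
      exact pow_le_pow_left₀ (by positivity) (by linarith) 4
    refine h3.trans ?_
    have h4 : 2 / t ^ 4 * (1 / (L : ℝ) ^ 2) = 2 * (L : ℝ) ^ 2 / (t * L) ^ 4 := by field_simp
    rw [h4, le_div_iff₀ (by positivity), mul_comm]
    exact h2

end Pool.Agent.W764.FB
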