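import Pool.Agent.W764.FB.Var

/-!
Rates of mixing on characters.
-/

set_option autoImplicit false

open MeasureTheory Finset Metric Filter
open scoped ENNReal Topology

namespace Pool.Agent.W764.FB

/-- the correlation of `e_m (p ^ a q ^ i x)` and `e_m (p ^ b q ^ j x)` -/
noncomputable def corr (p q : ℕ) (μ : Measure T) (m : ℤ) (a i b j : ℕ) : ℂ :=
  ∫ x, fourier m ((p ^ a * q ^ i) • x) * (starRingEnd ℂ) (fourier m ((p ^ b * q ^ j) • x)) ∂μ

/-- mixing on characters at a rate faster than `1 / |n|` -/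
def Mix (p q : ℕ) (μ : Measure T) : Prop :=
  ∀ m : ℤ, ∃ C δ : ℝ, 0 < δ ∧ ∀ a i b j : ℕ,
    ‖corr p q μ m a i b j - ((‖fc μ m‖ ^ 2 : ℝ) : ℂ)‖ ≤
      C / (1 + |(a : ℝ) - b| + |(i : ℝ) - j|) ^ (1 + δ)

lemma fc_inv {p q : ℕ} {μ : Measure T} (hip : MeasurePreserving (fun x : T => p • x) μ μ)
    (hiq : MeasurePreserving (fun x : T => q • x) μ μ) (m : ℤ) (a i : ℕ) :
    ∫ x, fourier m ((p ^ a * q ^ i) • x) ∂μ = fc μ m := by
  have h := Pool.Agent.H847R3.XpXq.mp_S hip hiq a i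
  have h1 := integral_map (μ := μ) h.measurable.aemeasurable
    (f := fun x : T => fourier m x) (fourier m).continuous.aestronglyMeasurable
  rw [h.map_eq] at h1
  exact h1.symm

/-- expansion of the variance -/
lemma integral_cs {p q : ℕ} {μ : Measure T} [IsProbabilityMeasure μ]
    (hip : MeasurePreserving (fun x : T => p • x) μ μ)
    (hiq : MeasurePreserving (fun x : T => q • x) μ μ) (m : ℤ) (r L : ℕ) :
    ((∫ x, ‖cs p q μ m r L x‖ ^ 2 ∂μ : ℝ) : ℂ) =
      ∑ u ∈ range r ×ˢ range L, ∑ v ∈ range r ×ˢ range L,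
        (corr p q μ m u.1 u.2 v.1 v.2 - ((‖fc μ m‖ ^ 2 : ℝ) : ℂ)) := by
  rw [← integral_complex_ofReal]
  have h1 : ∀ w : ℂ, ((‖w‖ ^ 2 : ℝ) : ℂ) = w * (starRingEnd ℂ) w := by
    intro w
    rw [Complex.mul_conj, Complex.normSq_eq_norm_sq]
  set g : ℕ × ℕ → T → ℂ := fun u x => fourier m ((p ^ u.1 * q ^ u.2) • x) with hg
  have hgc : ∀ u, Continuous (g u) := fun u =>
    (fourier m).continuous.comp (continuous_nsmul _)
  have h2 : ∀ x, ((‖cs p q μ m r L x‖ ^ 2 : ℝ) : ℂ) = ∑ u ∈ range r ×ˢ range L,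
      ∑ v ∈ range r ×ˢ range L, (g u x - fc μ m) * (starRingEnd ℂ) (g v x - fc μ m) := by
    intro x
    rw [h1]
    have e : cs p q μ m r L x = ∑ u ∈ range r ×ˢ range L, (g u x - fc μ m) := by
      unfold cs
      rw [sum_product]
    rw [e, map_sum, sum_mul_sum]
  simp_rw [h2]
  have hint : ∀ u v : ℕ × ℕ, Integrable
      (fun x => (g u x - fc μ m) * (starRingEnd ℂ) (g v x - fc μ m)) μ := fun u v =>
    Pool.Agent.H847R3.XpXq.integrable_of_contC (((hgc u).sub continuous_const).mul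
      (Complex.continuous_conj.comp ((hgc v).sub continuous_const))) μ
  rw [integral_finsetSum _ fun u _ => integrable_finsetSum _ fun v _ => hint u v]
  refine sum_congr rfl fun u _ => ?_
  rw [integral_finsetSum _ fun v _ => hint u v]
  refine sum_congr rfl fun v _ => ?_
  have hi1 : Integrable (fun x => g u x * (starRingEnd ℂ) (g v x)) μ :=
    Pool.Agent.H847R3.XpXq.integrable_of_contC
      ((hgc u).mul (Complex.continuous_conj.comp (hgc v))) μ
  have hi2 : Integrable (fun x => g u x * (starRingEnd ℂ) (fc μ m)) μ :=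
    Pool.Agent.H847R3.XpXq.integrable_of_contC ((hgc u).mul continuous_const) μ
  have hi3 : Integrable (fun x => fc μ m * (starRingEnd ℂ) (g v x)) μ :=
    Pool.Agent.H847R3.XpXq.integrable_of_contC
      (continuous_const.mul (Complex.continuous_conj.comp (hgc v))) μ
  have e1 : ∀ x, (g u x - fc μ m) * (starRingEnd ℂ) (g v x - fc μ m) =
      (g u x * (starRingEnd ℂ) (g v x) - g u x * (starRingEnd ℂ) (fc μ m)) -
      (fc μ m * (starRingEnd ℂ) (g v x) - fc μ m * (starRingEnd ℂ) (fc μ m)) := by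
    intro x
    rw [map_sub]
    ring
  simp_rw [e1]
  have hi12 : Integrable (fun x => g u x * (starRingEnd ℂ) (g v x) -
      g u x * (starRingEnd ℂ) (fc μ m)) μ := hi1.sub hi2
  have hi34 : Integrable (fun x => fc μ m * (starRingEnd ℂ) (g v x) -
      fc μ m * (starRingEnd ℂ) (fc μ m)) μ := hi3.sub (integrable_const _)
  rw [integral_sub hi12 hi34, integral_sub hi1 hi2,
    integral_sub hi3 (integrable_const _), integral_mul_const, integral_const_mul, integral_const,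
    probReal_univ, one_smul]
  have e2 : ∫ x, g u x ∂μ = fc μ m := fc_inv hip hiq m u.1 u.2
  have e3 : ∫ x, (starRingEnd ℂ) (g v x) ∂μ = (starRingEnd ℂ) (fc μ m) := by
    rw [integral_conj, fc_inv hip hiq m v.1 v.2]
  rw [e2, e3, h1]
  show corr p q μ m u.1 u.2 v.1 v.2 - _ - _ = _
  ring

/-- one-dimensional sums of powers -/
lemma sum_pow_le {s : ℝ} (hs : 0 < s) (hs1 : s ≤ 1) (r a : ℕ) (ha : a < r) :
    ∑ b ∈ range r, (1 + |(a : ℝ) - b|) ^ (-s) ≤ 4 * (r : ℝ) ^ (1 - s / 2) := by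
  have hrR : (1 : ℝ) ≤ r := by exact_mod_cast (by omega : 1 ≤ r)
  have hr0 : (0 : ℝ) < r := by linarith
  set h : ℝ := Real.sqrt r with hh
  have hh0 : 1 ≤ h := by rw [hh]; exact Real.one_le_sqrt.2 hrR
  have hhp : (0 : ℝ) < h := by linarith
  classical
  -- near and far
  have hsplit : ∀ b ∈ range r, (1 + |(a : ℝ) - b|) ^ (-s) ≤
      (if |(a : ℝ) - b| < h then 1 else 0) + h ^ (-s) := by
    intro b _
    have habs := abs_nonneg ((a : ℝ) - b)
    split_ifs with hc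
    · have h1 : (1 + |(a : ℝ) - b|) ^ (-s) ≤ 1 :=
        Real.rpow_le_one_of_one_le_of_nonpos (by linarith) (by linarith)
      have h2 : 0 ≤ h ^ (-s) := Real.rpow_nonneg hhp.le _
      linarith
    · rw [zero_add]
      push Not at hc
      exact Real.rpow_le_rpow_of_nonpos hhp (by linarith) (by linarith)
  have hcount : ∑ b ∈ range r, (if |(a : ℝ) - b| < h then (1 : ℝ) else 0) ≤ 3 * h := by
    rw [← sum_filter, sum_const, nsmul_eq_mul, mul_one]
    have hsub : (range r).filter (fun b : ℕ => |(a : ℝ) - b| < h) ⊆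
        Finset.Ico (a - ⌊h⌋₊) (a + ⌊h⌋₊ + 1) := by
      intro b hb
      rw [mem_filter] at hb
      have h1 := abs_lt.1 hb.2
      have hf : h < ⌊h⌋₊ + 1 := Nat.lt_floor_add_one h
      rw [Finset.mem_Ico]
      constructor
      · have h2 : (a : ℝ) < b + ⌊h⌋₊ + 1 := by linarith
        have h3 : a < b + ⌊h⌋₊ + 1 := by exact_mod_cast h2
        omega
      · have h2 : (b : ℝ) < a + ⌊h⌋₊ + 1 := by linarith
        exact_mod_cast h2
    have h1 := card_le_card hsub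
    rw [Nat.card_Ico] at h1
    have h2 : ((range r).filter (fun b : ℕ => |(a : ℝ) - b| < h)).card ≤ 2 * ⌊h⌋₊ + 1 := by omega
    have h3 : (((range r).filter (fun b : ℕ => |(a : ℝ) - b| < h)).card : ℝ) ≤ 2 * ⌊h⌋₊ + 1 := by
      exact_mod_cast h2
    have h4 : (⌊h⌋₊ : ℝ) ≤ h := Nat.floor_le hhp.le
    linarith
  have hpow1 : h ≤ (r : ℝ) ^ (1 - s / 2) := by
    rw [hh, Real.sqrt_eq_rpow]
    exact Real.rpow_le_rpow_of_exponent_le hrR (by linarith)
  have hpow2 : (r : ℝ) * h ^ (-s) = (r : ℝ) ^ (1 - s / 2) := by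
    rw [hh, Real.sqrt_eq_rpow, ← Real.rpow_mul hr0.le]
    nth_rewrite 1 [← Real.rpow_one (r : ℝ)]
    rw [← Real.rpow_add hr0]
    congr 1
    ring
  calc ∑ b ∈ range r, (1 + |(a : ℝ) - b|) ^ (-s)
      ≤ ∑ b ∈ range r, ((if |(a : ℝ) - b| < h then 1 else 0) + h ^ (-s)) := sum_le_sum hsplit
    _ = ∑ b ∈ range r, (if |(a : ℝ) - b| < h then (1 : ℝ) else 0) + r * h ^ (-s) := by
        rw [sum_add_distrib, sum_const, card_range, nsmul_eq_mul]
    _ ≤ 3 * h + r * h ^ (-s) := by linarith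
    _ ≤ 4 * (r : ℝ) ^ (1 - s / 2) := by rw [hpow2]; linarith

/-- summable powers -/
lemma sum_pow_bdd {s : ℝ} (hs : 0 < s) : ∃ D : ℝ, 0 < D ∧ ∀ L i : ℕ, i < L →
    ∑ j ∈ range L, (1 + |(i : ℝ) - j|) ^ (-(1 + s)) ≤ D := by
  have hsum : Summable fun n : ℕ => ((n : ℝ) + 1) ^ (-(1 + s)) := by
    have h1 : Summable fun n : ℕ => ((n : ℝ)) ^ (-(1 + s)) :=
      Real.summable_nat_rpow.2 (by linarith)
    have h2 := (summable_nat_add_iff (f := fun n : ℕ => ((n : ℝ)) ^ (-(1 + s))) 1).2 h1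
    refine h2.congr fun n => ?_
    push_cast
    rfl
  set Z := ∑' n : ℕ, ((n : ℝ) + 1) ^ (-(1 + s)) with hZ
  have hnn : ∀ n : ℕ, 0 ≤ ((n : ℝ) + 1) ^ (-(1 + s)) := fun n => Real.rpow_nonneg (by positivity) _
  have hZ0 : 0 ≤ Z := tsum_nonneg hnn
  refine ⟨2 * Z + 1, by linarith, fun L i hi => ?_⟩
  have hsplit : range L = range i ∪ Finset.Ico i L := by
    ext j
    simp only [mem_union, mem_range, Finset.mem_Ico]
    omega
  rw [hsplit, sum_union (by
    rw [Finset.disjoint_left]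
    intro j hj hj'
    rw [mem_range] at hj
    rw [Finset.mem_Ico] at hj'
    omega)]
  have h1 : ∑ j ∈ range i, (1 + |(i : ℝ) - j|) ^ (-(1 + s)) ≤ Z := by
    calc ∑ j ∈ range i, (1 + |(i : ℝ) - j|) ^ (-(1 + s))
        ≤ ∑ j ∈ range i, (((i - 1 - j : ℕ) : ℝ) + 1) ^ (-(1 + s)) := by
          refine sum_le_sum fun j hj => ?_
          rw [mem_range] at hj
          refine Real.rpow_le_rpow_of_nonpos (by positivity) ?_ (by linarith)
          have e : ((i - 1 - j : ℕ) : ℝ) = (i : ℝ) - 1 - j := by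
            rw [Nat.cast_sub (by omega), Nat.cast_sub (by omega)]
            push_cast
            ring
          rw [e]
          have := le_abs_self ((i : ℝ) - j)
          linarith
      _ = ∑ j ∈ range i, ((j : ℝ) + 1) ^ (-(1 + s)) := by
          rw [← sum_range_reflect (fun j : ℕ => ((j : ℝ) + 1) ^ (-(1 + s)))]
      _ ≤ Z := hsum.sum_le_tsum _ fun n _ => hnn n
  have h2 : ∑ j ∈ Finset.Ico i L, (1 + |(i : ℝ) - j|) ^ (-(1 + s)) ≤ Z := by
    rw [sum_Ico_eq_sum_range]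
    calc ∑ j ∈ range (L - i), (1 + |(i : ℝ) - ((i + j : ℕ) : ℝ)|) ^ (-(1 + s))
        ≤ ∑ j ∈ range (L - i), ((j : ℝ) + 1) ^ (-(1 + s)) := by
          refine sum_le_sum fun j _ => ?_
          refine Real.rpow_le_rpow_of_nonpos (by positivity) ?_ (by linarith)
          have e : (i : ℝ) - ((i + j : ℕ) : ℝ) = -j := by push_cast; ring
          rw [e, abs_neg, Nat.abs_cast]
          linarith
      _ ≤ Z := hsum.sum_le_tsum _ fun n _ => hnn n
  linarith

/-- **Mixing at a rate faster than `1 / |n|` gives diffusive sums.** -/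
theorem var_of_mix {p q : ℕ} {μ : Measure T} [IsProbabilityMeasure μ]
    (hip : MeasurePreserving (fun x : T => p • x) μ μ)
    (hiq : MeasurePreserving (fun x : T => q • x) μ μ) (h : Mix p q μ) : Var p q μ := by
  intro m
  obtain ⟨C, δ0, hδ0, hC0⟩ := h m
  -- we may assume `C ≥ 0`, `δ ≤ 1`
  set δ := min δ0 1 with hδ
  have hδp : 0 < δ := lt_min hδ0 one_pos
  have hδ1 : δ ≤ 1 := min_le_right _ _
  have hC : ∀ a i b j : ℕ, ‖corr p q μ m a i b j - ((‖fc μ m‖ ^ 2 : ℝ) : ℂ)‖ ≤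
      |C| * ((1 + |(a : ℝ) - b|) ^ (-(δ / 2)) * (1 + |(i : ℝ) - j|) ^ (-(1 + δ / 2))) := by
    intro a i b j
    have ha := abs_nonneg ((a : ℝ) - b)
    have hi := abs_nonneg ((i : ℝ) - j)
    refine (hC0 a i b j).trans ?_
    set P := 1 + |(a : ℝ) - b| + |(i : ℝ) - j| with hP
    have hP1 : 1 ≤ P := by linarith
    have hPpos : 0 < P := by linarith
    have h1 : C / P ^ (1 + δ0) ≤ |C| * P ^ (-(1 + δ)) := by
      rw [div_eq_mul_inv, ← Real.rpow_neg hPpos.le]
      refine mul_le_mul (le_abs_self C) ?_ (Real.rpow_nonneg hPpos.le _) (abs_nonneg C)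
      exact Real.rpow_le_rpow_of_exponent_le hP1 (by have := min_le_left δ0 1; linarith)
    refine h1.trans (mul_le_mul_of_nonneg_left ?_ (abs_nonneg C))
    have e : P ^ (-(1 + δ)) = P ^ (-(δ / 2)) * P ^ (-(1 + δ / 2)) := by
      rw [← Real.rpow_add hPpos]
      congr 1
      ring
    rw [e]
    refine mul_le_mul (Real.rpow_le_rpow_of_nonpos (by linarith) (by linarith) (by linarith))
      (Real.rpow_le_rpow_of_nonpos (by linarith) (by linarith) (by linarith))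
      (Real.rpow_nonneg hPpos.le _) (Real.rpow_nonneg (by linarith) _)
  obtain ⟨D, hD0, hD⟩ := sum_pow_bdd (s := δ / 2) (by positivity)
  refine ⟨4 * |C| * D, δ / 4, by positivity, fun r L hr hL => ?_⟩
  have hrR : (0 : ℝ) < r := by exact_mod_cast hr
  have h1 : ∫ x, ‖cs p q μ m r L x‖ ^ 2 ∂μ = ‖((∫ x, ‖cs p q μ m r L x‖ ^ 2 ∂μ : ℝ) : ℂ)‖ := by
    rw [Complex.norm_real, Real.norm_of_nonneg (integral_nonneg fun x => by positivity)]
  rw [h1, integral_cs hip hiq]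
  have h2 : ∀ u ∈ range r ×ˢ range L, ‖∑ v ∈ range r ×ˢ range L,
      (corr p q μ m u.1 u.2 v.1 v.2 - ((‖fc μ m‖ ^ 2 : ℝ) : ℂ))‖ ≤
      |C| * (4 * (r : ℝ) ^ (1 - δ / 2 / 2) * D) := by
    intro u hu
    rw [mem_product, mem_range, mem_range] at hu
    calc ‖∑ v ∈ range r ×ˢ range L, (corr p q μ m u.1 u.2 v.1 v.2 - ((‖fc μ m‖ ^ 2 : ℝ) : ℂ))‖
        ≤ ∑ v ∈ range r ×ˢ range L, |C| * ((1 + |(u.1 : ℝ) - v.1|) ^ (-(δ / 2)) *
            (1 + |(u.2 : ℝ) - v.2|) ^ (-(1 + δ / 2))) :=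
          norm_sum_le_of_le _ fun v _ => hC _ _ _ _
      _ = |C| * ((∑ b ∈ range r, (1 + |(u.1 : ℝ) - b|) ^ (-(δ / 2))) *
            ∑ j ∈ range L, (1 + |(u.2 : ℝ) - j|) ^ (-(1 + δ / 2))) := by
          rw [← mul_sum, sum_mul_sum, ← sum_product']
      _ ≤ |C| * (4 * (r : ℝ) ^ (1 - δ / 2 / 2) * D) := by
          refine mul_le_mul_of_nonneg_left ?_ (abs_nonneg C)
          refine mul_le_mul (sum_pow_le (by positivity) (by linarith) r u.1 hu.1)
            (hD L u.2 hu.2) (sum_nonneg fun j _ => Real.rpow_nonneg (by positivity) _)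
            (by positivity)
  calc ‖∑ u ∈ range r ×ˢ range L, ∑ v ∈ range r ×ˢ range L,
      (corr p q μ m u.1 u.2 v.1 v.2 - ((‖fc μ m‖ ^ 2 : ℝ) : ℂ))‖
      ≤ ∑ u ∈ range r ×ˢ range L, |C| * (4 * (r : ℝ) ^ (1 - δ / 2 / 2) * D) :=
        norm_sum_le_of_le _ h2
    _ = (r * L : ℝ) * (|C| * (4 * (r : ℝ) ^ (1 - δ / 2 / 2) * D)) := by
        rw [sum_const, card_product, card_range, card_range, nsmul_eq_mul]
        push_cast
        rfl
    _ = 4 * |C| * D * ((r : ℝ) ^ (1 : ℝ) * (r : ℝ) ^ (1 - δ / 2 / 2)) * L := by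
        rw [Real.rpow_one]; ring
    _ = 4 * |C| * D * (r : ℝ) ^ (2 - δ / 4) * L := by
        rw [← Real.rpow_add hrR]
        congr 3
        ring

end Pool.Agent.W764.FB
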