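import Pool.Agent.W764.FB.Rigid

/-!
Invariant measures with diffusive sums of characters.
-/

set_option autoImplicit false

open MeasureTheory Finset Metric Filter
open scoped ENNReal Topology

namespace Pool.Agent.W764.FB

open Pool.Agent.H706R2.Ren (U out measurableSet_U)

/-- the centred two-dimensional sums -/
noncomputable def cs (p q : ℕ) (μ : Measure T) (m : ℤ) (r L : ℕ) (x : T) : ℂ :=
  ∑ a ∈ range r, ∑ i ∈ range L, (fourier m ((p ^ a * q ^ i) • x) - fc μ m)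

/-- sums over `[0, r) × [0, L)` have variance `O (r ^ (2 - ε) L)` -/
def Var (p q : ℕ) (μ : Measure T) : Prop :=
  ∀ m : ℤ, ∃ C ε : ℝ, 0 < ε ∧ ∀ r L : ℕ, 1 ≤ r → 1 ≤ L →
    ∫ x, ‖cs p q μ m r L x‖ ^ 2 ∂μ ≤ C * (r : ℝ) ^ (2 - ε) * L

lemma continuous_cs (p q : ℕ) (μ : Measure T) (m : ℤ) (r L : ℕ) :
    Continuous (cs p q μ m r L) := by
  unfold cs
  refine continuous_finsetSum _ fun a _ => continuous_finsetSum _ fun i _ => ?_
  exact ((fourier m).continuous.comp (continuous_nsmul _)).sub continuous_const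

lemma cs_integrable (p q : ℕ) (μ : Measure T) [IsFiniteMeasure μ] (m : ℤ) (r L : ℕ) :
    Integrable (fun x => ‖cs p q μ m r L x‖ ^ 2) μ :=
  Pool.Agent.H847R3.XpXq.integrable_of_cont ((continuous_cs p q μ m r L).norm.pow 2) μ

lemma cs_one (p q : ℕ) (μ : Measure T) (m : ℤ) (L : ℕ) (x : T) :
    cs p q μ m 1 L x = es q m L x - L * fc μ m := by
  unfold cs es
  rw [sum_range_one, sum_sub_distrib, sum_const, card_range, nsmul_eq_mul]
  simp only [pow_zero, one_mul]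

lemma meanErg_of_var {p q : ℕ} {μ : Measure T} [IsProbabilityMeasure μ] (h : Var p q μ) :
    MeanErg q μ := by
  intro m
  obtain ⟨C, ε, -, hC⟩ := h m
  have hlim : Tendsto (fun L : ℕ => C / (L : ℝ)) atTop (𝓝 0) :=
    tendsto_const_div_atTop_nhds_zero_nat C
  refine squeeze_zero' (Eventually.of_forall fun L => integral_nonneg fun x => by positivity) ?_ hlim
  filter_upwards [eventually_ge_atTop 1] with L hL
  have hLR : (0 : ℝ) < L := by exact_mod_cast hL
  have h1 := hC 1 L le_rfl hL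
  have e1 : ∀ x, ‖((L : ℂ))⁻¹ * es q m L x - fc μ m‖ ^ 2 =
      ((L : ℝ) ^ 2)⁻¹ * ‖cs p q μ m 1 L x‖ ^ 2 := by
    intro x
    rw [cs_one]
    have hLC : (L : ℂ) ≠ 0 := by exact_mod_cast hLR.ne'
    have e2 : ((L : ℂ))⁻¹ * es q m L x - fc μ m = ((L : ℂ))⁻¹ * (es q m L x - L * fc μ m) := by
      field_simp
    rw [e2, norm_mul, norm_inv, Complex.norm_natCast]
    ring
  simp_rw [e1]
  rw [integral_const_mul]
  rw [Nat.cast_one, Real.one_rpow, mul_one] at h1
  calc ((L : ℝ) ^ 2)⁻¹ * ∫ x, ‖cs p q μ m 1 L x‖ ^ 2 ∂μ ≤ ((L : ℝ) ^ 2)⁻¹ * (C * L) := by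
        gcongr
    _ = C / L := by field_simp

open Classical in
lemma out2_eq_card (p q : ℕ) (S : Set T) (r L : ℕ) (y : T) : out2 p q S r L y =
    ((range r ×ˢ range L).filter fun ai => (p ^ ai.1 * q ^ ai.2) • y ∉ S).card := by
  unfold out2
  rw [card_filter, sum_product]
  refine sum_congr rfl fun a _ => ?_
  have e1 : out q S L ((p ^ a) • y) = #{i ∈ range L | (q ^ i) • ((p ^ a) • y) ∉ S} := by
    unfold out; congr!
  rw [e1, card_filter]
  refine sum_congr rfl fun i _ => ?_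
  have e2 : (q ^ i) • ((p ^ a) • y) = (p ^ a * q ^ i) • y := by
    rw [← mul_smul, mul_comm]
  rw [e2]

/-- Chebyshev's inequality for the centred sums -/
lemma cheb {p q : ℕ} {μ : Measure T} [IsProbabilityMeasure μ] {m : ℤ} {C ε : ℝ}
    (h : ∀ r L : ℕ, 1 ≤ r → 1 ≤ L →
      ∫ x, ‖cs p q μ m r L x‖ ^ 2 ∂μ ≤ C * (r : ℝ) ^ (2 - ε) * L) {r L : ℕ} (hr : 1 ≤ r)
    (hL : 1 ≤ L) {t : ℝ} (ht : 0 < t) :
    μ.real {x | t * (r * L : ℝ) < ‖cs p q μ m r L x‖} ≤ |C| / (t ^ 2 * (r : ℝ) ^ ε * L) := by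
  have hrR : (0 : ℝ) < r := by exact_mod_cast hr
  have hLR : (0 : ℝ) < L := by exact_mod_cast hL
  have hV : 0 < (t * (r * L : ℝ)) ^ 2 := by positivity
  have h1 := mul_meas_ge_le_integral_of_nonneg (μ := μ) (f := fun x => ‖cs p q μ m r L x‖ ^ 2)
    (Eventually.of_forall fun x => by positivity) (cs_integrable p q μ m r L)
    ((t * (r * L : ℝ)) ^ 2)
  have h2 : μ.real {x | t * (r * L : ℝ) < ‖cs p q μ m r L x‖} ≤
      μ.real {x | (t * (r * L : ℝ)) ^ 2 ≤ ‖cs p q μ m r L x‖ ^ 2} := by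
    refine measureReal_mono fun x hx => ?_
    have hx' : t * (r * L : ℝ) < ‖cs p q μ m r L x‖ := hx
    show (t * (r * L : ℝ)) ^ 2 ≤ ‖cs p q μ m r L x‖ ^ 2
    exact pow_le_pow_left₀ (by positivity) hx'.le 2
  have h3 : (t * (r * L : ℝ)) ^ 2 * μ.real {x | t * (r * L : ℝ) < ‖cs p q μ m r L x‖} ≤
      |C| * (r : ℝ) ^ (2 - ε) * L := by
    calc (t * (r * L : ℝ)) ^ 2 * μ.real {x | t * (r * L : ℝ) < ‖cs p q μ m r L x‖}
        ≤ (t * (r * L : ℝ)) ^ 2 *
          μ.real {x | (t * (r * L : ℝ)) ^ 2 ≤ ‖cs p q μ m r L x‖ ^ 2} :=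
          mul_le_mul_of_nonneg_left h2 hV.le
      _ ≤ ∫ x, ‖cs p q μ m r L x‖ ^ 2 ∂μ := h1
      _ ≤ C * (r : ℝ) ^ (2 - ε) * L := h r L hr hL
      _ ≤ |C| * (r : ℝ) ^ (2 - ε) * L := by
          have := le_abs_self C
          gcongr
  rw [Real.rpow_sub hrR, Real.rpow_two] at h3
  rw [le_div_iff₀ (by positivity)]
  have hre : (0 : ℝ) < (r : ℝ) ^ ε := Real.rpow_pos_of_pos hrR _
  set Q := μ.real {x | t * (r * L : ℝ) < ‖cs p q μ m r L x‖} with hQ
  have h4 : (t * (r * L : ℝ)) ^ 2 * Q = Q * (t ^ 2 * (r : ℝ) ^ ε * L) * ((r : ℝ) ^ 2 / (r : ℝ) ^ ε * L) := by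
    field_simp
  have h5 : |C| * ((r : ℝ) ^ 2 / (r : ℝ) ^ ε) * L = |C| * ((r : ℝ) ^ 2 / (r : ℝ) ^ ε * L) := by ring
  rw [h4, h5] at h3
  exact le_of_mul_le_mul_right h3 (by positivity)

/-- **Measures with diffusive sums.** -/
theorem eq_volume_of_var {p q : ℕ} (hp : p.Prime) (hq : 2 ≤ q) (hpq : ¬ p ∣ q) (μ : Measure T)
    [IsProbabilityMeasure μ] (hna : ∀ x, μ {x} = 0)
    (hip : MeasurePreserving (fun x : T => p • x) μ μ) (h : Var p q μ) : μ = volume := by
  classical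
  by_contra hne
  have hinj : EssInj p μ := by
    rcases dichotomy hp hq hpq μ hip (meanErg_of_var h) with h1 | h1
    · exact absurd h1 hne
    · exact h1
  obtain ⟨c0, B, hc0, hB1, hmain⟩ := rigid_blocks hp hq hpq
  obtain ⟨K, cen, ρ, hK, hρ, hKρ, hU⟩ := covering hp.two_le μ hip hinj (κ := 1 / 32) (c := c0 / 2)
    (by norm_num) (by positivity)
  have hU' : μ.real (U cen (2 * ρ / 2))ᶜ ≤ 1 / 32 := by
    have e : 2 * ρ / 2 = ρ := by ring
    rw [e]; exact hU
  obtain ⟨M, t, ht, htest⟩ := exists_test μ hK cen (ρ := 2 * ρ) (by positivity) hU'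
  choose C ε hε hC using h
  have hBR : (0 : ℝ) < B := by exact_mod_cast hB1
  set A : ℕ := 4 * p with hA
  have hA1 : 1 ≤ A := by have := hp.two_le; omega
  have hrpos : ∀ j, (0 : ℝ) < ((2 * rr A j : ℕ) : ℝ) := fun j => by
    have := rr_pos A j
    exact_mod_cast (by omega : 0 < 2 * rr A j)
  set F : ℕ → ℝ := fun j => ∑ m ∈ M, |C m| * (2 * B) / (t ^ 2 * ((2 * rr A j : ℕ) : ℝ) ^ (ε m) * 2 ^ j)
    with hF
  have hF0 : ∀ j, 0 ≤ F j := fun j => sum_nonneg fun m _ => by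
    have := hrpos j
    positivity
  refine hmain μ inferInstance hna hip K cen (2 * ρ) hK (by positivity) (by linarith) F B hF0 ?_ ?_
  · -- the failure probabilities
    intro j hj
    set r := 2 * rr A j with hr
    set L := 2 ^ j / B with hL
    have hr1 : 1 ≤ r := by have := rr_pos A j; omega
    have hBj : B ≤ 2 ^ j := hj.trans (Nat.lt_two_pow_self).le
    have hL1 : 1 ≤ L := Nat.div_pos hBj (by omega)
    have hLR : (0 : ℝ) < L := by exact_mod_cast hL1
    have hLlow : (2 : ℝ) ^ j ≤ 2 * B * L := by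
      have h1 := Nat.div_add_mod (2 ^ j) B
      have h2 := Nat.mod_lt (2 ^ j) (show 0 < B by omega)
      rw [← hL] at h1
      have h3 : B ≤ B * L := Nat.le_mul_of_pos_right _ hL1
      have h4 : 2 ^ j ≤ 2 * B * L := by
        have : 2 * B * L = B * L + B * L := by ring
        omega
      exact_mod_cast h4
    have hsub : {y | (2 * rr A j * (2 ^ j / B : ℕ) : ℝ) / 8 <
        out2 p q (U cen (2 * ρ)) r L y} ⊆
        ⋃ m ∈ M, {x | t * (r * L : ℝ) < ‖cs p q μ m r L x‖} := by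
      intro y hy
      by_contra hcon
      simp only [Set.mem_iUnion, Set.mem_ofPred_eq, not_exists, not_lt] at hcon
      have h1 := htest (range r ×ˢ range L) (fun ai => p ^ ai.1 * q ^ ai.2) y (fun m hm => by
        have h2 := hcon m hm
        unfold cs at h2
        rw [sum_product, card_product, card_range, card_range]
        push_cast
        exact h2)
      rw [card_product, card_range, card_range] at h1
      have h3 : (out2 p q (U cen (2 * ρ)) r L y : ℝ) ≤ ((r * L : ℕ) : ℝ) / 8 := by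
        refine le_trans (le_of_eq ?_) h1
        rw [out2_eq_card]
      have hy' : (2 * rr A j * (2 ^ j / B : ℕ) : ℝ) / 8 < out2 p q (U cen (2 * ρ)) r L y := hy
      have e : ((r * L : ℕ) : ℝ) = (2 * rr A j * (2 ^ j / B : ℕ) : ℝ) := by
        rw [hr, hL]; push_cast; ring
      rw [e] at h3
      linarith
    calc μ.real {y | (2 * rr A j * (2 ^ j / B : ℕ) : ℝ) / 8 < out2 p q (U cen (2 * ρ)) r L y}
        ≤ μ.real (⋃ m ∈ M, {x | t * (r * L : ℝ) < ‖cs p q μ m r L x‖}) :=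
          measureReal_mono hsub (measure_ne_top _ _)
      _ ≤ ∑ m ∈ M, μ.real {x | t * (r * L : ℝ) < ‖cs p q μ m r L x‖} :=
          measureReal_biUnion_finset_le _ _
      _ ≤ F j := by
          refine sum_le_sum fun m _ => ?_
          refine (cheb (hC m) hr1 hL1 ht).trans ?_
          have hre : (0 : ℝ) < (r : ℝ) ^ (ε m) := Real.rpow_pos_of_pos (hrpos j) _
          rw [div_le_div_iff₀ (by positivity) (by positivity)]
          have h5 : |C m| * (t ^ 2 * (r : ℝ) ^ (ε m)) * 2 ^ j ≤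
              |C m| * (t ^ 2 * (r : ℝ) ^ (ε m)) * (2 * B * L) :=
            mul_le_mul_of_nonneg_left hLlow (by positivity)
          calc |C m| * (t ^ 2 * (r : ℝ) ^ (ε m) * 2 ^ j)
              = |C m| * (t ^ 2 * (r : ℝ) ^ (ε m)) * 2 ^ j := by ring
            _ ≤ |C m| * (t ^ 2 * (r : ℝ) ^ (ε m)) * (2 * B * L) := h5
            _ = |C m| * (2 * B) * (t ^ 2 * (r : ℝ) ^ (ε m) * L) := by ring
  · -- summability
    simp only [hF, mul_sum]
    refine summable_sum fun m _ => ?_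
    -- each term is at most `D / j ^ (1 + ε m)`
    set D : ℝ := |C m| * (2 * B) / t ^ 2 * (4 * A : ℝ) ^ (1 + ε m) with hD
    have hs : Summable fun j : ℕ => D * (1 / (j : ℝ) ^ (1 + ε m)) :=
      (Real.summable_one_div_nat_rpow.2 (by have := hε m; linarith)).mul_left D
    refine Summable.of_norm_bounded_eventually_nat hs ?_
    filter_upwards [eventually_ge_atTop 1] with j hj
    have hjR : (0 : ℝ) < j := by exact_mod_cast hj
    have hrj := rr_pos A j
    have hrjR : (0 : ℝ) < rr A j := by exact_mod_cast hrj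
    have h0 := hrpos j
    have hre : (0 : ℝ) < ((2 * rr A j : ℕ) : ℝ) ^ (ε m) := Real.rpow_pos_of_pos h0 _
    rw [Real.norm_of_nonneg (by positivity)]
    have h1 : ((2 ^ j / rr A j : ℕ) : ℝ) ≤ 2 ^ j / rr A j := by
      have := Nat.cast_div_le (α := ℝ) (m := 2 ^ j) (n := rr A j)
      push_cast at this
      exact this
    have h2 : (j : ℝ) ≤ 4 * A * rr A j := by exact_mod_cast le_rr A j hA1
    have hε0 := hε m
    have hAR : (0 : ℝ) < A := by exact_mod_cast hA1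
    have h3 : (j : ℝ) ^ (1 + ε m) ≤ (4 * A : ℝ) ^ (1 + ε m) * (rr A j * ((2 * rr A j : ℕ) : ℝ) ^ (ε m)) := by
      calc (j : ℝ) ^ (1 + ε m) ≤ (4 * A * rr A j : ℝ) ^ (1 + ε m) :=
            Real.rpow_le_rpow hjR.le h2 (by linarith)
        _ = (4 * A : ℝ) ^ (1 + ε m) * (rr A j : ℝ) ^ (1 + ε m) :=
            Real.mul_rpow (by positivity) hrjR.le
        _ = (4 * A : ℝ) ^ (1 + ε m) * (rr A j * (rr A j : ℝ) ^ (ε m)) := by
            rw [Real.rpow_add hrjR, Real.rpow_one]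
        _ ≤ (4 * A : ℝ) ^ (1 + ε m) * (rr A j * ((2 * rr A j : ℕ) : ℝ) ^ (ε m)) := by
            gcongr
            omega
    calc ((2 ^ j / rr A j : ℕ) : ℝ) *
          (|C m| * (2 * B) / (t ^ 2 * ((2 * rr A j : ℕ) : ℝ) ^ (ε m) * 2 ^ j))
        ≤ (2 ^ j / rr A j) *
          (|C m| * (2 * B) / (t ^ 2 * ((2 * rr A j : ℕ) : ℝ) ^ (ε m) * 2 ^ j)) := by gcongr
      _ = |C m| * (2 * B) / t ^ 2 * (1 / (rr A j * ((2 * rr A j : ℕ) : ℝ) ^ (ε m))) := by
          field_simp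
      _ ≤ |C m| * (2 * B) / t ^ 2 * ((4 * A : ℝ) ^ (1 + ε m) / (j : ℝ) ^ (1 + ε m)) := by
          refine mul_le_mul_of_nonneg_left ?_ (by positivity)
          rw [div_le_div_iff₀ (by positivity) (by positivity), one_mul]
          exact h3
      _ = D * (1 / (j : ℝ) ^ (1 + ε m)) := by rw [hD]; ring

end Pool.Agent.W764.FB
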