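import Pool.Agent.W764.FB.Cover

/-!
The chain argument with windows which are not available at every time.
-/

set_option autoImplicit false

open MeasureTheory Finset Metric Filter
open scoped ENNReal Topology

namespace Pool.Agent.W764.FB

open Pool.Agent.H706R2.Ren (labels small_balls mp_pow)

/-- **The chain argument**, with a delay `i k`. -/
theorem chain2 (p : ℕ) (hp : 2 ≤ p) (μ : Measure T) [IsProbabilityMeasure μ]
    (hinv : MeasurePreserving (fun x : T => p • x) μ μ) (hna : ∀ x, μ {x} = 0)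
    (G : ℕ → Set T) (hG : ∀ k, MeasurableSet (G k)) (R : ℕ → ℕ) (hR : Monotone R)
    (hRk : Tendsto (fun k : ℕ => (p : ℝ) ^ (R k) / (p : ℝ) ^ k) atTop (𝓝 0)) (k0 : ℕ)
    (d : ℕ → ℕ) (hd : ∀ K0 : ℕ, ∃ K, K0 ≤ K ∧ ∀ k, K ≤ k → K + d k ≤ k)
    (hsep : ∀ k ≥ k0, ∀ y z : T, (p ^ (d k)) • y ∈ G (k - d k) → (p ^ (d k)) • z ∈ G (k - d k) →
      ‖(p ^ (R k + 1)) • (y - z)‖ ≤ (p : ℝ) ^ (R k + 1) / (p : ℝ) ^ k →
      ‖(p ^ (R k)) • (y - z)‖ ≤ (p : ℝ) ^ (R k) / (p : ℝ) ^ k) :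
    ¬ Summable fun k => μ.real (G k)ᶜ := by
  intro hsum
  have hp0 : (0 : ℝ) < p := by exact_mod_cast (show 0 < p by omega)
  have h0 : ∀ k, 0 ≤ μ.real (G k)ᶜ := fun k => measureReal_nonneg
  -- small tail
  obtain ⟨K1, hK1k, hK1d, hK1⟩ : ∃ K1, k0 ≤ K1 ∧ (∀ k, K1 + 1 ≤ k → K1 + 1 + d k ≤ k) ∧
      ∀ n, ∑ j ∈ Ico (K1 + 1) (K1 + 1 + n), μ.real (G j)ᶜ ≤ 1 / 2 := by
    have h1 := (tendsto_sum_nat_add fun k => μ.real (G k)ᶜ)
    have h2 := h1.eventually (gt_mem_nhds (show (0 : ℝ) < 1 / 2 by norm_num))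
    obtain ⟨K2, hK2⟩ := eventually_atTop.1 h2
    obtain ⟨K, hK, hKd⟩ := hd (max K2 (k0 + 1))
    have hKa : K2 ≤ K := (le_max_left _ _).trans hK
    have hKb : k0 + 1 ≤ K := (le_max_right _ _).trans hK
    have e : K - 1 + 1 = K := by omega
    refine ⟨K - 1, by omega, by rw [e]; exact hKd, fun n => ?_⟩
    rw [e, sum_Ico_eq_sum_range, Nat.add_sub_cancel_left]
    have h3 : Summable fun k => μ.real (G (k + K))ᶜ :=
      (summable_nat_add_iff (f := fun k => μ.real (G k)ᶜ) K).2 hsum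
    have h4 := h3.sum_le_tsum (range n) (fun i _ => h0 _)
    calc ∑ k ∈ range n, μ.real (G (K + k))ᶜ = ∑ k ∈ range n, μ.real (G (k + K))ᶜ := by
          simp_rw [add_comm]
      _ ≤ ∑' k, μ.real (G (k + K))ᶜ := h4
      _ ≤ 1 / 2 := (hK2 K hKa).le
  obtain ⟨N, lab0, hlab0⟩ := labels (ε := 1 / (p : ℝ) ^ K1) (by positivity)
  have key : ∀ n, ∃ A : Set T, MeasurableSet A ∧
      μ.real Aᶜ ≤ ∑ j ∈ Ico (K1 + 1) (K1 + 1 + n), μ.real (G j)ᶜ ∧
      (∀ y ∈ A, ∀ i < n, (p ^ i) • y ∈ G (K1 + n - i)) ∧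
      ∃ lab : T → Fin N, ∀ y ∈ A, ∀ z ∈ A, lab y = lab z →
        ‖(p ^ (R (K1 + n))) • (y - z)‖ ≤ (p : ℝ) ^ (R (K1 + n)) / (p : ℝ) ^ (K1 + n) := by
    intro n
    induction n with
    | zero =>
      refine ⟨Set.univ, MeasurableSet.univ, by simp, fun _ _ i hi => absurd hi (Nat.not_lt_zero _),
        lab0, fun y _ z _ h => ?_⟩
      have h1 := hlab0 y z h
      calc ‖(p ^ (R (K1 + 0))) • (y - z)‖ ≤ (p ^ (R (K1 + 0)) : ℕ) * ‖y - z‖ := norm_nsmul_le
        _ ≤ (p ^ (R (K1 + 0)) : ℕ) * (1 / (p : ℝ) ^ K1) := by gcongr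
        _ = (p : ℝ) ^ (R (K1 + 0)) / (p : ℝ) ^ (K1 + 0) := by push_cast; ring_nf
    | succ n ih =>
      obtain ⟨A, hA, hAμ, hAG, lab, hlab⟩ := ih
      have hAG' : ∀ y ∈ (fun x : T => p • x) ⁻¹' A ∩ G (K1 + 1 + n), ∀ i < n + 1,
          (p ^ i) • y ∈ G (K1 + (n + 1) - i) := by
        intro y hy i hi
        rcases Nat.eq_zero_or_pos i with h | h
        · subst h
          rw [pow_zero, one_smul, Nat.sub_zero]
          have e : K1 + (n + 1) = K1 + 1 + n := by ring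
          rw [e]
          exact hy.2
        · have h1 := hAG (p • y) hy.1 (i - 1) (by omega)
          rw [← mul_smul, ← pow_succ] at h1
          have e1 : i - 1 + 1 = i := by omega
          have e2 : K1 + n - (i - 1) = K1 + (n + 1) - i := by omega
          rw [e1, e2] at h1
          exact h1
      refine ⟨(fun x : T => p • x) ⁻¹' A ∩ G (K1 + 1 + n),
        (hinv.measurable hA).inter (hG _), ?_, hAG', fun y => lab (p • y), ?_⟩
      · rw [Set.compl_inter, ← add_assoc, sum_Ico_succ_top (by omega)]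
        refine (measureReal_union_le _ _).trans ?_
        refine add_le_add ?_ le_rfl
        rw [← Set.preimage_compl, hinv.measureReal_preimage hA.compl.nullMeasurableSet]
        exact hAμ
      · intro y hy z hz hl
        have h1 := hlab (p • y) hy.1 (p • z) hz.1 hl
        have hk : K1 + (n + 1) = K1 + 1 + n := by ring
        have hdk := hK1d (K1 + 1 + n) (by omega)
        have hyG := hAG' y hy (d (K1 + 1 + n)) (by omega)
        have hzG := hAG' z hz (d (K1 + 1 + n)) (by omega)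
        rw [hk] at hyG hzG ⊢
        refine hsep (K1 + 1 + n) (by omega) y z hyG hzG ?_
        have hle : R (K1 + n) ≤ R (K1 + 1 + n) := hR (by omega)
        set a := R (K1 + n) with ha
        set b := R (K1 + 1 + n) with hb
        have e : (p ^ (b + 1)) • (y - z) = (p ^ (b - a)) • ((p ^ a) • (p • y - p • z)) := by
          rw [← smul_sub, ← mul_smul, ← mul_smul]
          congr 1
          rw [mul_assoc, ← pow_succ, ← pow_add]
          congr 1
          omega
        rw [e]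
        calc ‖(p ^ (b - a)) • ((p ^ a) • (p • y - p • z))‖ ≤
            (p ^ (b - a) : ℕ) * ‖(p ^ a) • (p • y - p • z)‖ := norm_nsmul_le
          _ ≤ (p ^ (b - a) : ℕ) * ((p : ℝ) ^ a / (p : ℝ) ^ (K1 + n)) := by gcongr
          _ = (p : ℝ) ^ (b + 1) / (p : ℝ) ^ (K1 + 1 + n) := by
            have e1 : (p : ℝ) ^ b = (p : ℝ) ^ (b - a) * (p : ℝ) ^ a := by
              rw [← pow_add]; congr 1; omega
            have e2 : (p : ℝ) ^ (K1 + 1 + n) = (p : ℝ) ^ (K1 + n) * p := by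
              rw [← pow_succ]; congr 1; omega
            rw [pow_succ, e1, e2]
            push_cast
            field_simp
  -- conclusion
  obtain ⟨δ, hδ, hsmall⟩ := small_balls μ hna (ε := 1 / (4 * ((N : ℝ) + 1))) (by positivity)
  have hev : ∀ᶠ n : ℕ in atTop, (p : ℝ) ^ (R (K1 + n)) / (p : ℝ) ^ (K1 + n) < δ := by
    have h1 := hRk.eventually (gt_mem_nhds hδ)
    have h2 : Tendsto (fun n : ℕ => K1 + n) atTop atTop := by
      simpa [add_comm] using tendsto_add_atTop_nat K1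
    exact h2.eventually h1
  obtain ⟨n, hn⟩ := hev.exists
  obtain ⟨A, hA, hAμ, -, lab, hlab⟩ := key n
  have hAc : 1 / 2 ≤ μ.real A := by
    have h1 := hAμ.trans (hK1 n)
    rw [measureReal_compl hA, probReal_univ] at h1
    linarith
  classical
  set f : Fin N → T := fun a => if h : ∃ y ∈ A, lab y = a then h.choose else 0 with hf
  have hcov : A ⊆ ⋃ a : Fin N, (fun x : T => (p ^ (R (K1 + n))) • x) ⁻¹'
      (closedBall ((p ^ (R (K1 + n))) • f a) δ) := by
    intro y hy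
    have hex : ∃ y' ∈ A, lab y' = lab y := ⟨y, hy, rfl⟩
    have hfa : f (lab y) = hex.choose := by rw [hf]; simp only [dif_pos hex]
    have h1 := hlab y hy hex.choose hex.choose_spec.1 hex.choose_spec.2.symm
    rw [Set.mem_iUnion]
    refine ⟨lab y, ?_⟩
    rw [Set.mem_preimage, mem_closedBall, dist_eq_norm, hfa, ← smul_sub]
    exact h1.trans hn.le
  have h2 : μ.real A ≤ ∑ a : Fin N, μ.real ((fun x : T => (p ^ (R (K1 + n))) • x) ⁻¹'
      (closedBall ((p ^ (R (K1 + n))) • f a) δ)) :=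
    (measureReal_mono hcov).trans (measureReal_iUnion_fintype_le _)
  have h3 : ∀ a : Fin N, μ.real ((fun x : T => (p ^ (R (K1 + n))) • x) ⁻¹'
      (closedBall ((p ^ (R (K1 + n))) • f a) δ)) ≤ 1 / (4 * ((N : ℝ) + 1)) := by
    intro a
    rw [(mp_pow p μ hinv _).measureReal_preimage measurableSet_closedBall.nullMeasurableSet]
    exact hsmall _
  have h4 : μ.real A ≤ N * (1 / (4 * ((N : ℝ) + 1))) := by
    refine h2.trans ((sum_le_sum fun a _ => h3 a).trans ?_)
    rw [sum_const, card_univ, Fintype.card_fin, nsmul_eq_mul]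
  have h5 : (N : ℝ) * (1 / (4 * ((N : ℝ) + 1))) ≤ 1 / 4 := by
    have : (0 : ℝ) ≤ N := Nat.cast_nonneg N
    rw [mul_one_div, div_le_div_iff₀ (by positivity) (by norm_num)]
    linarith
  linarith

end Pool.Agent.W764.FB
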