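import Pool.Agent.W764.FB.Cover

/-!
Deterministic comparison: if the averages of finitely many characters along a finite family of
multiples of `x` are close to their means then few of these multiples are outside a given union of
arcs of almost full measure.
-/

set_option autoImplicit false

open MeasureTheory Filter Topology Set
open scoped ENNReal

namespace Pool.Agent.W764.FB

open Pool.Agent.H706R2.Ren (U measurableSet_U)

/-- a continuous function which vanishes on the small arcs and is one outside the large arcs -/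
noncomputable def bump {K : ℕ} (cen : Fin K → T) (ρ : ℝ) (x : T) : ℝ :=
  max 0 (min 1 (2 / ρ * Metric.infDist x (range cen) - 1))

lemma continuous_bump {K : ℕ} (cen : Fin K → T) (ρ : ℝ) : Continuous (bump cen ρ) := by
  unfold bump
  exact continuous_const.max (continuous_const.min
    (((Metric.continuous_infDist_pt _).const_mul _).sub continuous_const))

lemma bump_nonneg {K : ℕ} (cen : Fin K → T) (ρ : ℝ) (x : T) : 0 ≤ bump cen ρ x := le_max_left _ _

lemma bump_le_one {K : ℕ} (cen : Fin K → T) (ρ : ℝ) (x : T) : bump cen ρ x ≤ 1 :=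
  max_le (by norm_num) (min_le_left _ _)

lemma bump_out {K : ℕ} (hK : 1 ≤ K) (cen : Fin K → T) {ρ : ℝ} (hρ : 0 < ρ) {x : T}
    (hx : x ∉ U cen ρ) : bump cen ρ x = 1 := by
  have hne : (range cen).Nonempty := ⟨cen ⟨0, hK⟩, mem_range_self _⟩
  have h1 : ρ ≤ Metric.infDist x (range cen) := by
    rw [Metric.le_infDist hne]
    rintro y ⟨a, rfl⟩
    by_contra hcon
    push Not at hcon
    apply hx
    unfold U
    exact mem_iUnion.2 ⟨a, Metric.mem_closedBall.2 hcon.le⟩
  have h2 : (1 : ℝ) ≤ 2 / ρ * Metric.infDist x (range cen) - 1 := by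
    have h3 : 2 / ρ * ρ ≤ 2 / ρ * Metric.infDist x (range cen) :=
      mul_le_mul_of_nonneg_left h1 (by positivity)
    have h4 : 2 / ρ * ρ = 2 := by field_simp
    linarith
  unfold bump
  rw [min_eq_left h2]
  norm_num

lemma bump_in {K : ℕ} (cen : Fin K → T) {ρ : ℝ} (hρ : 0 < ρ) {x : T}
    (hx : x ∈ U cen (ρ / 2)) : bump cen ρ x = 0 := by
  unfold U at hx
  obtain ⟨a, ha⟩ := mem_iUnion.1 hx
  have h1 : Metric.infDist x (range cen) ≤ ρ / 2 :=
    (Metric.infDist_le_dist_of_mem (mem_range_self a)).trans (Metric.mem_closedBall.1 ha)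
  have h2 : 2 / ρ * Metric.infDist x (range cen) - 1 ≤ 0 := by
    have h3 : 2 / ρ * Metric.infDist x (range cen) ≤ 2 / ρ * (ρ / 2) :=
      mul_le_mul_of_nonneg_left h1 (by positivity)
    have h4 : 2 / ρ * (ρ / 2) = 1 := by field_simp
    linarith
  unfold bump
  exact max_eq_left ((min_le_right _ _).trans h2)

open Classical in
/-- **Deterministic comparison.** -/
theorem exists_test (μ : Measure T) [IsProbabilityMeasure μ] {K : ℕ} (hK : 1 ≤ K)
    (cen : Fin K → T) {ρ : ℝ} (hρ : 0 < ρ) (hU : μ.real (U cen (ρ / 2))ᶜ ≤ 1 / 32) :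
    ∃ (M : Finset ℤ) (t : ℝ), 0 < t ∧ ∀ {ι : Type} (I : Finset ι) (s : ι → ℕ) (x : T),
      (∀ m ∈ M, ‖∑ i ∈ I, (fourier m ((s i) • x) - fc μ m)‖ ≤ t * I.card) →
      ((I.filter fun i => (s i) • x ∉ U cen ρ).card : ℝ) ≤ I.card / 8 := by
  set F : C(T, ℂ) := ⟨fun x => ((bump cen ρ x : ℝ) : ℂ),
    Complex.continuous_ofReal.comp (continuous_bump cen ρ)⟩ with hF
  obtain ⟨M, c, hc⟩ := trig_approx F (ε := 1 / 64) (by norm_num)
  set P : T → ℂ := fun x => ∑ m ∈ M, c m * fourier m x with hP
  set V : ℝ := ∑ m ∈ M, ‖c m‖ + 1 with hV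
  have hV0 : 0 < V := by
    have : 0 ≤ ∑ m ∈ M, ‖c m‖ := Finset.sum_nonneg fun _ _ => norm_nonneg _
    linarith
  refine ⟨M, 1 / (16 * V), by positivity, ?_⟩
  intro ι I s x hm
  have hPi : Integrable P μ := by
    refine integrable_finsetSum _ fun m _ => ?_
    exact (integrable_cont μ (fourier m)).const_mul _
  have hbi : Integrable (bump cen ρ) μ :=
    Pool.Agent.H847R3.XpXq.integrable_of_cont (continuous_bump cen ρ) μ
  -- the mean of the bump function
  have hint1 : ∫ x, bump cen ρ x ∂μ ≤ 1 / 32 := by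
    have h1 : ∫ x, bump cen ρ x ∂μ ≤ ∫ x, ((U cen (ρ / 2))ᶜ).indicator (fun _ => (1 : ℝ)) x ∂μ := by
      refine integral_mono hbi ((integrable_const 1).indicator (measurableSet_U _ _).compl) ?_
      intro x
      by_cases hx : x ∈ U cen (ρ / 2)
      · rw [bump_in cen hρ hx, indicator_of_notMem (by simpa using hx)]
      · rw [indicator_of_mem (by simpa using hx)]
        exact bump_le_one _ _ _
    rw [integral_indicator (measurableSet_U _ _).compl, setIntegral_const, smul_eq_mul,
      mul_one] at h1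
    exact h1.trans hU
  have hint2 : (∑ m ∈ M, c m * fc μ m).re ≤ 1 / 32 + 1 / 64 := by
    have h1 : ∫ x, P x ∂μ = ∑ m ∈ M, c m * fc μ m := by
      rw [hP, integral_finsetSum _ (fun m _ => (integrable_cont μ (fourier m)).const_mul _)]
      refine Finset.sum_congr rfl fun m _ => ?_
      rw [integral_const_mul]
      rfl
    have h2 : ‖∫ x, F x ∂μ - ∫ x, P x ∂μ‖ ≤ 1 / 64 := by
      rw [← integral_sub (integrable_cont μ F) hPi]
      have := norm_integral_le_of_norm_le_const (μ := μ) (f := fun x => F x - P x)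
        (C := 1 / 64) (Eventually.of_forall hc)
      simpa using this
    have h3 : ∫ x, F x ∂μ = ((∫ x, bump cen ρ x ∂μ : ℝ) : ℂ) := by
      rw [← integral_complex_ofReal]
      rfl
    rw [h1, h3] at h2
    have h4 := Complex.abs_re_le_norm (((∫ x, bump cen ρ x ∂μ : ℝ) : ℂ) - ∑ m ∈ M, c m * fc μ m)
    rw [Complex.sub_re, Complex.ofReal_re] at h4
    have h5 := (abs_le.1 (h4.trans h2)).1
    linarith
  -- the count
  have hcount : ((I.filter fun i => (s i) • x ∉ U cen ρ).card : ℝ) ≤
      ∑ i ∈ I, bump cen ρ ((s i) • x) := by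
    rw [Finset.card_filter]
    push_cast
    refine Finset.sum_le_sum fun i _ => ?_
    by_cases h : (s i) • x ∉ U cen ρ
    · rw [if_pos h, bump_out hK cen hρ h]
    · rw [if_neg h]
      exact bump_nonneg _ _ _
  have hpt : ∀ y : T, bump cen ρ y ≤ (P y).re + 1 / 64 := by
    intro y
    have h1 := hc y
    have h2 := Complex.abs_re_le_norm (F y - P y)
    rw [Complex.sub_re] at h2
    have h3 : (F y).re = bump cen ρ y := by rw [hF]; simp
    rw [h3] at h2
    have h4 := (abs_le.1 (h2.trans h1)).2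
    linarith
  have hsum : ∑ i ∈ I, bump cen ρ ((s i) • x) ≤
      (∑ i ∈ I, P ((s i) • x)).re + I.card * (1 / 64) := by
    rw [Complex.re_sum, ← nsmul_eq_mul, ← Finset.sum_const, ← Finset.sum_add_distrib]
    exact Finset.sum_le_sum fun i _ => hpt _
  have hdec : ∑ i ∈ I, P ((s i) • x) = ∑ m ∈ M, c m * ∑ i ∈ I, (fourier m ((s i) • x) - fc μ m)
      + I.card * ∑ m ∈ M, c m * fc μ m := by
    simp only [hP]
    rw [Finset.sum_comm, Finset.mul_sum, ← Finset.sum_add_distrib]
    refine Finset.sum_congr rfl fun m _ => ?_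
    rw [Finset.sum_sub_distrib, Finset.sum_const, nsmul_eq_mul, ← Finset.mul_sum]
    ring
  have hmain : ‖∑ m ∈ M, c m * ∑ i ∈ I, (fourier m ((s i) • x) - fc μ m)‖ ≤ I.card / 16 := by
    calc ‖∑ m ∈ M, c m * ∑ i ∈ I, (fourier m ((s i) • x) - fc μ m)‖
        ≤ ∑ m ∈ M, ‖c m‖ * (1 / (16 * V) * I.card) := by
          refine norm_sum_le_of_le _ fun m hmM => ?_
          rw [norm_mul]
          exact mul_le_mul_of_nonneg_left (hm m hmM) (norm_nonneg _)
      _ = (∑ m ∈ M, ‖c m‖) * (1 / (16 * V) * I.card) := by rw [Finset.sum_mul]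
      _ ≤ V * (1 / (16 * V) * I.card) := by
          refine mul_le_mul_of_nonneg_right ?_ (by positivity)
          rw [hV]
          linarith
      _ = I.card / 16 := by field_simp
  have hre : (∑ i ∈ I, P ((s i) • x)).re ≤ I.card / 16 + I.card * (1 / 32 + 1 / 64) := by
    rw [hdec, Complex.add_re]
    refine add_le_add ((Complex.re_le_norm _).trans hmain) ?_
    rw [Complex.mul_re, Complex.natCast_re, Complex.natCast_im, zero_mul, sub_zero]
    exact mul_le_mul_of_nonneg_left hint2 (Nat.cast_nonneg _)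
  linarith

end Pool.Agent.W764.FB
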