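import Pool.Agent.W764.FB.Win2
import Pool.Agent.W764.FB.Chain2
import Pool.Agent.W764.FB.Dev

/-!
Dyadic blocks of closeness exponents and the conclusion of the chain argument for two-dimensional
windows.
-/

set_option autoImplicit false

open MeasureTheory Finset Metric Filter
open scoped ENNReal Topology

namespace Pool.Agent.W764.FB

open Pool.Agent.H706R2.Ren (U out ord_bound exists_B measurableSet_U)

/-- the length of the windows in the direction of `p`, in the block `j` -/
def rr (A j : ℕ) : ℕ := 2 ^ (Nat.log 2 (j / A))

lemma rr_pos (A j : ℕ) : 1 ≤ rr A j := Nat.one_le_two_pow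

lemma rr_mono (A : ℕ) : Monotone (rr A) := fun _ _ h =>
  Nat.pow_le_pow_right (by norm_num) (Nat.log_mono_right (Nat.div_le_div_right h))

lemma rr_dvd (A j : ℕ) : rr A j ∣ 2 ^ j := by
  unfold rr
  refine pow_dvd_pow 2 ?_
  exact (Nat.log_le_self 2 _).trans (Nat.div_le_self _ _)

lemma rr_le (A j : ℕ) (hA : 1 ≤ A) (hj : A ≤ j) : A * rr A j ≤ j := by
  unfold rr
  have h1 : j / A ≠ 0 := by
    have := Nat.div_pos hj (by omega)
    omega
  have h2 := Nat.pow_log_le_self 2 h1
  calc A * 2 ^ Nat.log 2 (j / A) ≤ A * (j / A) := Nat.mul_le_mul_left _ h2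
    _ ≤ j := Nat.mul_div_le _ _

lemma rr_le' (A j : ℕ) : rr A j ≤ j + 1 := by
  unfold rr
  rcases Nat.eq_zero_or_pos (j / A) with h | h
  · rw [h]; simp
  · have h2 := Nat.pow_log_le_self 2 (show j / A ≠ 0 by omega)
    have := Nat.div_le_self j A
    omega

lemma le_rr (A j : ℕ) (hA : 1 ≤ A) : j ≤ 4 * A * rr A j := by
  rcases Nat.lt_or_ge j (2 * A) with h | h
  · have := rr_pos A j
    nlinarith
  · have h1 : j / A < 2 * rr A j := by
      unfold rr
      have := Nat.lt_pow_succ_log_self (show 1 < 2 by norm_num) (j / A)
      rw [pow_succ] at this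
      omega
    have h2 : j < A * (j / A) + A := by
      have := Nat.div_add_mod j A
      have := Nat.mod_lt j (show 0 < A by omega)
      omega
    have h3 : A * (j / A) + A ≤ A * (2 * rr A j) := by
      calc A * (j / A) + A = A * (j / A + 1) := by ring
        _ ≤ A * (2 * rr A j) := Nat.mul_le_mul_left _ h1
    nlinarith

lemma rr_tendsto (A : ℕ) (hA : 1 ≤ A) : Tendsto (rr A) atTop atTop := by
  refine tendsto_atTop.2 fun b => ?_
  filter_upwards [eventually_ge_atTop (4 * A * b)] with j hj
  have h1 := le_rr A j hA
  have h2 : 4 * A * b ≤ 4 * A * rr A j := hj.trans h1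
  exact Nat.le_of_mul_le_mul_left h2 (by omega)

/-- facts about the block of `k` -/
lemma block_facts (A k : ℕ) (hk : 1 ≤ k) :
    2 ^ (Nat.log 2 k) ≤ k - k % rr A (Nat.log 2 k) ∧
      Nat.log 2 (k - k % rr A (Nat.log 2 k)) = Nat.log 2 k ∧
      (k - k % rr A (Nat.log 2 k)) % rr A (Nat.log 2 k) = 0 := by
  set j := Nat.log 2 k with hj
  set r := rr A j with hr
  have h1 : 2 ^ j ≤ k := Nat.pow_log_le_self 2 (by omega)
  have h2 : k < 2 ^ (j + 1) := Nat.lt_pow_succ_log_self (by norm_num) k
  obtain ⟨c, hc⟩ := rr_dvd A j
  rw [← hr] at hc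
  have hrpos : 0 < r := rr_pos A j
  have h3 : k - k % r = r * (k / r) := by
    have := Nat.div_add_mod k r
    omega
  have h4 : c ≤ k / r := by
    rw [Nat.le_div_iff_mul_le hrpos, mul_comm]
    omega
  have h5 : 2 ^ j ≤ r * (k / r) := by
    rw [hc]
    exact Nat.mul_le_mul_left _ h4
  refine ⟨by rw [h3]; exact h5, ?_, by rw [h3]; exact Nat.mul_mod_right _ _⟩
  rw [h3, Nat.log_eq_iff (Or.inr ⟨by norm_num, ?_⟩)]
  · refine ⟨h5, lt_of_le_of_lt ?_ h2⟩
    exact Nat.mul_div_le k r
  · have : 0 < 2 ^ j := Nat.two_pow_pos j
    omega

/-- summability over `k` from summability over blocks -/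
lemma summable_blocks (A : ℕ) (f : ℕ → ℝ) (hf0 : ∀ k, 0 ≤ f k) (hf1 : ∀ k, f k ≤ 1) (F : ℕ → ℝ)
    (hF0 : ∀ j, 0 ≤ F j) (j1 : ℕ)
    (hz : ∀ k, k % rr A (Nat.log 2 k) ≠ 0 → f k = 0)
    (hF : ∀ k, j1 ≤ Nat.log 2 k → f k ≤ F (Nat.log 2 k))
    (hs : Summable fun j => ((2 ^ j / rr A j : ℕ) : ℝ) * F j) : Summable f := by
  classical
  set a : ℕ → ℝ := fun j => (if j < j1 + 1 then (2 : ℝ) ^ (j + 1) else 0) +
    ((2 ^ j / rr A j : ℕ) : ℝ) * F j with ha
  have hs1 : Summable fun j : ℕ => (if j < j1 + 1 then (2 : ℝ) ^ (j + 1) else 0) := by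
    refine summable_of_ne_finset_zero (s := range (j1 + 1)) fun j hj => ?_
    rw [mem_range] at hj
    exact if_neg hj
  have hsa : Summable a := hs1.add hs
  have ha0 : ∀ j, 0 ≤ a j := fun j => by
    have := hF0 j
    have h1 : (0 : ℝ) ≤ (if j < j1 + 1 then (2 : ℝ) ^ (j + 1) else 0) := by
      split_ifs <;> positivity
    positivity
  refine summable_of_sum_range_le (c := ∑' j, a j) hf0 fun n => ?_
  have hn : n ≤ 2 ^ n := Nat.lt_two_pow_self.le
  calc ∑ k ∈ range n, f k ≤ ∑ k ∈ range (2 ^ n), f k :=
        sum_le_sum_of_subset_of_nonneg (range_subset_range.2 hn) fun _ _ _ => hf0 _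
    _ = ∑ j ∈ range (2 ^ n + 1), ∑ k ∈ range (2 ^ n) with Nat.log 2 k = j, f k := by
        rw [sum_fiberwise_of_maps_to]
        intro k hk
        rw [mem_range] at *
        have := Nat.log_le_self 2 k
        omega
    _ ≤ ∑ j ∈ range (2 ^ n + 1), a j := by
        refine sum_le_sum fun j _ => ?_
        by_cases hj : j < j1 + 1
        · have h1 : ∑ k ∈ range (2 ^ n) with Nat.log 2 k = j, f k ≤ (2 : ℝ) ^ (j + 1) := by
            calc ∑ k ∈ range (2 ^ n) with Nat.log 2 k = j, f k
                ≤ ∑ k ∈ range (2 ^ n) with Nat.log 2 k = j, (1 : ℝ) := sum_le_sum fun k _ => hf1 k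
              _ = (((range (2 ^ n)).filter fun k => Nat.log 2 k = j).card : ℝ) := by simp
              _ ≤ ((range (2 ^ (j + 1))).card : ℝ) := by
                  have : (range (2 ^ n)).filter (fun k => Nat.log 2 k = j) ⊆ range (2 ^ (j + 1)) := by
                    intro k hk
                    rw [mem_filter] at hk
                    rw [mem_range, ← hk.2]
                    exact Nat.lt_pow_succ_log_self (by norm_num) k
                  exact_mod_cast card_le_card this
              _ = (2 : ℝ) ^ (j + 1) := by rw [card_range]; push_cast; rfl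
          have h2 : 0 ≤ ((2 ^ j / rr A j : ℕ) : ℝ) * F j := mul_nonneg (Nat.cast_nonneg _) (hF0 j)
          simp only [ha, if_pos hj]
          linarith
        · simp only [ha, if_neg hj, zero_add]
          obtain ⟨c, hc⟩ := rr_dvd A j
          have hrpos : 0 < rr A j := rr_pos A j
          have hc' : 2 ^ j / rr A j = c := by
            rw [hc]; exact Nat.mul_div_cancel_left c hrpos
          have h1 : ∑ k ∈ range (2 ^ n) with Nat.log 2 k = j, f k =
              ∑ k ∈ (range (2 ^ n)).filter (fun k => Nat.log 2 k = j) with k % rr A j = 0, f k := by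
            refine (sum_filter_of_ne fun k hk hne => ?_).symm
            by_contra hcon
            apply hne
            apply hz
            rw [(mem_filter.1 hk).2]
            exact hcon
          rw [h1]
          calc ∑ k ∈ (range (2 ^ n)).filter (fun k => Nat.log 2 k = j) with k % rr A j = 0, f k
              ≤ ∑ k ∈ (range (2 ^ n)).filter (fun k => Nat.log 2 k = j) with k % rr A j = 0, F j := by
                refine sum_le_sum fun k hk => ?_
                rw [mem_filter, mem_filter] at hk
                have := hF k (by omega)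
                rwa [hk.1.2] at this
            _ = ((((range (2 ^ n)).filter (fun k => Nat.log 2 k = j)).filter
                fun k => k % rr A j = 0).card : ℝ) * F j := by rw [sum_const, nsmul_eq_mul]
            _ ≤ ((2 ^ j / rr A j : ℕ) : ℝ) * F j := by
                refine mul_le_mul_of_nonneg_right ?_ (hF0 j)
                have h2 : (((range (2 ^ n)).filter (fun k => Nat.log 2 k = j)).filter
                    fun k => k % rr A j = 0).card ≤ (Finset.Ico c (c + c)).card := by
                  refine card_le_card_of_injOn (fun k => k / rr A j) ?_ ?_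
                  · intro k hk
                    rw [mem_coe, mem_filter, mem_filter] at hk
                    have hk0 : k ≠ 0 := by
                      intro h0
                      rw [h0] at hk
                      simp at hk
                      omega
                    have h3 : 2 ^ j ≤ k := by rw [← hk.1.2]; exact Nat.pow_log_le_self 2 hk0
                    have h4 : k < 2 ^ (j + 1) := by
                      rw [← hk.1.2]; exact Nat.lt_pow_succ_log_self (by norm_num) k
                    rw [mem_coe, Finset.mem_Ico]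
                    constructor
                    · rw [Nat.le_div_iff_mul_le hrpos, mul_comm, ← hc]
                      exact h3
                    · rw [Nat.div_lt_iff_lt_mul hrpos]
                      have : (c + c) * rr A j = 2 ^ j + 2 ^ j := by rw [hc]; ring
                      rw [this]
                      rw [pow_succ] at h4
                      omega
                  · intro k hk k' hk' hkk
                    rw [mem_coe, mem_filter] at hk hk'
                    have e1 := Nat.div_add_mod k (rr A j)
                    have e2 := Nat.div_add_mod k' (rr A j)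
                    simp only at hkk
                    rw [hk.2, hkk] at e1
                    rw [hk'.2] at e2
                    omega
                rw [Nat.card_Ico, Nat.add_sub_cancel] at h2
                rw [hc']
                exact_mod_cast h2
    _ ≤ ∑' j, a j := hsa.sum_le_tsum _ fun i _ => ha0 i

end Pool.Agent.W764.FB
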