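import Pool.Agent.W764.FB.Host4
import Pool.Agent.H706R2.Ren3

/-!
The covering lemma: a measure for which `x ↦ p x` is injective on a set of full measure is almost
carried by few small arcs.
-/

set_option autoImplicit false

open MeasureTheory Filter Topology Set
open scoped ENNReal

namespace Pool.Agent.W764.FB

open Pool.Agent.H706R2.Ren (U labels measurableSet_U)

/-- `x ↦ p x` is injective on a set of full measure -/
def EssInj (p : ℕ) (μ : Measure T) : Prop :=
  ∃ B : Set T, MeasurableSet B ∧ μ Bᶜ = 0 ∧ ∀ x ∈ B, ∀ k, 1 ≤ k → k < p → x + hh p 1 k ∉ B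

/-- If `p (x - y)` is small then `x - y` is close to some `k / p`. -/
lemma close_hh {p : ℕ} (hp : 0 < p) (z : T) :
    ∃ k, k < p ∧ ‖z - hh p 1 k‖ ≤ ‖p • z‖ / p := by
  have hpR : (0 : ℝ) < p := by exact_mod_cast hp
  obtain ⟨d, rfl⟩ : ∃ d : ℝ, (d : T) = z := QuotientAddGroup.mk_surjective z
  set m : ℤ := round ((p : ℝ) * d) with hm
  have hn : ‖p • (d : T)‖ = |(p : ℝ) * d - m| := by
    rw [← AddCircle.coe_nsmul, nsmul_eq_mul, UnitAddCircle.norm_eq]
  refine ⟨(m % p).toNat, ?_, ?_⟩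
  · have h1 := Int.emod_lt_of_pos m (show (0 : ℤ) < p by exact_mod_cast hp)
    have h2 := Int.emod_nonneg m (show (p : ℤ) ≠ 0 by exact_mod_cast hp.ne')
    omega
  · have h2 := Int.emod_nonneg m (show (p : ℤ) ≠ 0 by exact_mod_cast hp.ne')
    have e1 : (((m % p).toNat : ℕ) : ℝ) = m - p * (m / p : ℤ) := by
      have h3 : (((m % p).toNat : ℕ) : ℤ) = m - p * (m / p) := by
        rw [Int.toNat_of_nonneg h2, Int.emod_def]
      exact_mod_cast h3
    unfold hh
    rw [← AddCircle.coe_sub, UnitAddCircle.norm_eq, pow_one, e1, hn]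
    refine (round_le _ (m / p : ℤ)).trans (le_of_eq ?_)
    rw [← abs_of_pos hpR, ← abs_div, abs_of_pos hpR]
    congr 1
    field_simp
    ring

/-- uniform local injectivity on a large set -/
lemma local_inj {p : ℕ} (hp : 0 < p) (μ : Measure T) [IsProbabilityMeasure μ] (h : EssInj p μ)
    {ε : ℝ} (hε : 0 < ε) : ∃ Z : Set T, MeasurableSet Z ∧ μ.real Zᶜ ≤ ε ∧ ∃ η > 0, ∀ x ∈ Z, ∀ y ∈ Z,
      ‖p • (x - y)‖ ≤ η → ‖x - y‖ ≤ ‖p • (x - y)‖ / p := by
  obtain ⟨B, hBm, hB0, hB⟩ := h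
  have hpR : (1 : ℝ) ≤ p := by exact_mod_cast hp
  have hB1 : μ B = 1 := (prob_compl_eq_zero_iff hBm).1 hB0
  obtain ⟨Z, hZB, hZc, hZ⟩ : ∃ Z ⊆ B, IsCompact Z ∧ 1 - ENNReal.ofReal ε < μ Z := by
    refine hBm.exists_lt_isCompact ?_
    rw [hB1]
    exact ENNReal.sub_lt_self (by simp) (by simp) (by simpa using hε)
  have hZm : MeasurableSet Z := hZc.measurableSet
  refine ⟨Z, hZm, ?_, ?_⟩
  · have h1 : μ Zᶜ ≤ ENNReal.ofReal ε := by
      rw [prob_compl_eq_one_sub hZm]
      exact tsub_le_iff_tsub_le.1 hZ.le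
    exact ENNReal.toReal_le_of_le_ofReal hε.le h1
  · -- separation
    have hsep : ∀ k : ℕ, ∃ η > 0, (1 ≤ k → k < p → ∀ x ∈ Z, ∀ y ∈ Z, η < ‖x - y - hh p 1 k‖) := by
      intro k
      by_cases hk : 1 ≤ k ∧ k < p
      · set Z' : Set T := (fun y => y + hh p 1 k) '' Z with hZ'
        have hZ'c : IsCompact Z' := hZc.image (continuous_add_const _)
        have hdisj : Disjoint Z Z' := by
          rw [Set.disjoint_left]
          rintro x hx ⟨y, hy, rfl⟩
          exact hB y (hZB hy) k hk.1 hk.2 (hZB hx)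
        obtain ⟨r, hr, hrr⟩ := Metric.exists_pos_forall_lt_edist hZc hZ'c.isClosed hdisj
        refine ⟨r, by exact_mod_cast hr, fun _ _ x hx y hy => ?_⟩
        have h1 := hrr x hx (y + hh p 1 k) ⟨y, hy, rfl⟩
        rw [edist_dist, ENNReal.lt_ofReal_iff_toReal_lt (by simp)] at h1
        rw [dist_eq_norm] at h1
        have e : x - (y + hh p 1 k) = x - y - hh p 1 k := by abel
        rw [e] at h1
        simpa using h1
      · exact ⟨1, one_pos, fun h1 h2 => absurd ⟨h1, h2⟩ hk⟩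
    choose η hη hsep using hsep
    obtain ⟨k0, -, hk0⟩ := (Finset.range p).exists_min_image η ⟨0, Finset.mem_range.2 hp⟩
    refine ⟨η k0, hη k0, fun x hx y hy hxy => ?_⟩
    obtain ⟨k, hkp, hk⟩ := close_hh hp (x - y)
    rcases Nat.eq_zero_or_pos k with h0 | h0
    · rw [h0, hh_zero, sub_zero] at hk
      exact hk
    · exfalso
      have h1 := hsep k h0 hkp x hx y hy
      have h2 := hk0 k (Finset.mem_range.2 hkp)
      have h3 : ‖p • (x - y)‖ / p ≤ ‖p • (x - y)‖ := div_le_self (norm_nonneg _) hpR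
      linarith

lemma norm_hh {p : ℕ} {k : ℕ} (hk : 1 ≤ k) (hkp : k < p) : 1 / (p : ℝ) ≤ ‖hh p 1 k‖ := by
  have hpR : (0 : ℝ) < p := by exact_mod_cast (by omega : 0 < p)
  unfold hh
  rw [UnitAddCircle.norm_eq, pow_one]
  set r : ℤ := round ((k : ℝ) / p) with hr
  have hne : (k : ℤ) - p * r ≠ 0 := by
    intro h
    have h1 : (p : ℤ) ∣ (k : ℤ) := ⟨r, by linarith⟩
    have h2 : p ∣ k := by exact_mod_cast h1
    have := Nat.le_of_dvd (by omega) h2
    omega
  have h1 : (1 : ℝ) ≤ |((k : ℤ) - p * r : ℤ)| := by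
    have := Int.one_le_abs hne
    exact_mod_cast this
  have e : (k : ℝ) / p - r = (((k : ℤ) - p * r : ℤ) : ℝ) / p := by
    push_cast
    field_simp
  rw [e, abs_div, abs_of_pos hpR, ← Int.cast_abs]
  gcongr

lemma markov_gen (q : ℕ) (μ : Measure T) [IsProbabilityMeasure μ]
    (hinv : MeasurePreserving (fun x : T => q • x) μ μ) {S : Set T} (hS : MeasurableSet S)
    (L : ℕ) {a : ℝ} :
    a * μ.real {y | a ≤ Pool.Agent.H706R2.Ren.out q S L y} ≤ L * μ.real Sᶜ := by
  have hint : ∀ i ∈ Finset.range L, Integrable (((fun x : T => (q ^ i) • x) ⁻¹' Sᶜ).indicator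
      fun _ => (1 : ℝ)) μ := fun i _ =>
    (integrable_const 1).indicator ((continuous_nsmul _).measurable hS.compl)
  have h1 : ∫ y, (Pool.Agent.H706R2.Ren.out q S L y : ℝ) ∂μ = L * μ.real Sᶜ := by
    simp_rw [Pool.Agent.H706R2.Ren.out_eq]
    rw [integral_finsetSum _ hint]
    have : ∀ i ∈ Finset.range L, ∫ y, ((fun x : T => (q ^ i) • x) ⁻¹' Sᶜ).indicator
        (fun _ => (1 : ℝ)) y ∂μ = μ.real Sᶜ := by
      intro i _
      rw [integral_indicator ((continuous_nsmul _).measurable hS.compl), setIntegral_const,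
        smul_eq_mul, mul_one]
      exact (Pool.Agent.H706R2.Ren.mp_pow q μ hinv i).measureReal_preimage
        hS.compl.nullMeasurableSet
    rw [Finset.sum_congr rfl this, Finset.sum_const, Finset.card_range, nsmul_eq_mul]
  have hi : Integrable (fun y => (Pool.Agent.H706R2.Ren.out q S L y : ℝ)) μ := by
    simp_rw [Pool.Agent.H706R2.Ren.out_eq]
    exact integrable_finsetSum _ hint
  have h2 := mul_meas_ge_le_integral_of_nonneg (μ := μ)
    (f := fun y => (Pool.Agent.H706R2.Ren.out q S L y : ℝ))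
    (Eventually.of_forall fun y => Nat.cast_nonneg _) hi a
  rw [h1] at h2
  exact h2

open Classical in
/-- the code of a point: `0` at the times of visit to `Z`, a label of the position otherwise -/
noncomputable def code (p : ℕ) (Z : Set T) {Q : ℕ} (lab : T → Fin Q) (N : ℕ) (x : T) :
    Fin N → Fin (Q + 1) :=
  fun j => if (p ^ (j : ℕ)) • x ∈ Z then 0 else (lab ((p ^ (j : ℕ)) • x)).succ

lemma same_code {p : ℕ} (hp : 0 < p) {Z : Set T} {η : ℝ} (hη1 : η ≤ 1 / 4)
    (hZ : ∀ x ∈ Z, ∀ y ∈ Z, ‖p • (x - y)‖ ≤ η → ‖x - y‖ ≤ ‖p • (x - y)‖ / p) {Q : ℕ}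
    {lab : T → Fin Q} (hlab : ∀ y z, lab y = lab z → ‖y - z‖ ≤ 1 / (2 * p)) (N : ℕ) (x y : T)
    (h0 : ‖(p ^ N) • (x - y)‖ ≤ η) (hc : code p Z lab N x = code p Z lab N y) :
    ‖x - y‖ ≤ η / (p : ℝ) ^ N := by
  have hpR : (0 : ℝ) < p := by exact_mod_cast hp
  have hp1 : (1 : ℝ) ≤ p := by exact_mod_cast hp
  have key : ∀ j, j ≤ N → ‖(p ^ (N - j)) • (x - y)‖ ≤ η / (p : ℝ) ^ j := by
    intro j
    induction j with
    | zero => intro _; simpa using h0
    | succ j ih =>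
      intro hj
      have h1 := ih (by omega)
      set u := (p ^ (N - (j + 1))) • x with hu
      set w := (p ^ (N - (j + 1))) • y with hw
      have e1 : (p ^ (N - j)) • (x - y) = p • (u - w) := by
        rw [hu, hw, ← smul_sub, ← mul_smul, ← pow_succ']
        congr 2
        omega
      have e2 : (p ^ (N - (j + 1))) • (x - y) = u - w := by rw [hu, hw, smul_sub]
      rw [e1] at h1
      rw [e2]
      have hη0 : 0 ≤ η := (norm_nonneg _).trans h0
      have h2 : ‖p • (u - w)‖ ≤ η := h1.trans (div_le_self hη0 (one_le_pow₀ hp1))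
      have hcj := congrFun hc ⟨N - (j + 1), by omega⟩
      simp only [code] at hcj
      rw [← hu, ← hw] at hcj
      have hfin : ‖u - w‖ ≤ ‖p • (u - w)‖ / p := by
        by_cases huZ : u ∈ Z
        · by_cases hwZ : w ∈ Z
          · exact hZ u huZ w hwZ h2
          · rw [if_pos huZ, if_neg hwZ] at hcj
            exact absurd hcj.symm (Fin.succ_ne_zero _)
        · by_cases hwZ : w ∈ Z
          · rw [if_neg huZ, if_pos hwZ] at hcj
            exact absurd hcj (Fin.succ_ne_zero _)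
          · rw [if_neg huZ, if_neg hwZ] at hcj
            have hl := hlab u w (Fin.succ_injective _ hcj)
            obtain ⟨k, hkp, hk⟩ := close_hh hp (u - w)
            rcases Nat.eq_zero_or_pos k with hk0 | hk0
            · rw [hk0, hh_zero, sub_zero] at hk
              exact hk
            · exfalso
              have h3 := norm_hh hk0 hkp
              have h4 : ‖hh p 1 k‖ ≤ ‖u - w‖ + ‖u - w - hh p 1 k‖ := by
                have := norm_sub_le (u - w) (u - w - hh p 1 k)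
                rwa [sub_sub_cancel] at this
              have h5 : ‖p • (u - w)‖ / p ≤ 1 / 4 / p := by
                gcongr
                exact h2.trans hη1
              have h6 : 1 / (2 * (p : ℝ)) + 1 / 4 / p = 3 / 4 / p := by
                field_simp
                norm_num
              have h7 : (3 : ℝ) / 4 / p < 1 / p := by
                gcongr
                norm_num
              linarith
      calc ‖u - w‖ ≤ ‖p • (u - w)‖ / p := hfin
        _ ≤ η / (p : ℝ) ^ j / p := by gcongr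
        _ = η / (p : ℝ) ^ (j + 1) := by rw [pow_succ, div_div]
  have h := key N le_rfl
  rw [Nat.sub_self, pow_zero, one_smul] at h
  exact h

/-- the number of codes with few nonzero entries -/
lemma card_codes (Q s N g : ℕ) (hs : 1 ≤ s) :
    ((Finset.univ.filter fun c : Fin N → Fin (Q + 1) =>
      (Finset.univ.filter fun j => c j ≠ 0).card ≤ g).card : ℝ) ≤
      (s : ℝ) ^ g * (1 + (Q : ℝ) / s) ^ N := by
  classical
  have hs0 : (0 : ℝ) < s := by exact_mod_cast hs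
  have hs1 : (1 : ℝ) ≤ s := by exact_mod_cast hs
  set wt : Fin (Q + 1) → ℝ := fun d => if d = 0 then 1 else (s : ℝ)⁻¹ with hwt
  have h1 : ∑ c : Fin N → Fin (Q + 1), ∏ j, wt (c j) = (1 + (Q : ℝ) / s) ^ N := by
    have h2 : ∑ d, wt d = 1 + (Q : ℝ) / s := by
      rw [Fin.sum_univ_succ]
      simp only [hwt, Fin.succ_ne_zero, if_true, if_false, Finset.sum_const, Finset.card_univ,
        Fintype.card_fin, nsmul_eq_mul]
      rw [div_eq_mul_inv]
    rw [← h2]
    exact (Fintype.sum_pow wt N).symm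
  have h3 : ∀ c : Fin N → Fin (Q + 1), ∏ j, wt (c j) =
      ((s : ℝ)⁻¹) ^ (Finset.univ.filter fun j => c j ≠ 0).card := by
    intro c
    rw [← Finset.prod_const, Finset.prod_filter]
    refine Finset.prod_congr rfl fun j _ => ?_
    simp only [hwt]
    by_cases h : c j = 0
    · simp [h]
    · simp [h]
  have hwt0 : ∀ c : Fin N → Fin (Q + 1), 0 ≤ ∏ j, wt (c j) := by
    intro c
    rw [h3]
    positivity
  have h4 : ((Finset.univ.filter fun c : Fin N → Fin (Q + 1) =>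
      (Finset.univ.filter fun j => c j ≠ 0).card ≤ g).card : ℝ) * ((s : ℝ)⁻¹) ^ g ≤
      (1 + (Q : ℝ) / s) ^ N := by
    rw [← h1]
    calc ((Finset.univ.filter fun c : Fin N → Fin (Q + 1) =>
        (Finset.univ.filter fun j => c j ≠ 0).card ≤ g).card : ℝ) * ((s : ℝ)⁻¹) ^ g
        = ∑ c ∈ (Finset.univ.filter fun c : Fin N → Fin (Q + 1) =>
        (Finset.univ.filter fun j => c j ≠ 0).card ≤ g), ((s : ℝ)⁻¹) ^ g := by
          rw [Finset.sum_const, nsmul_eq_mul]
      _ ≤ ∑ c ∈ (Finset.univ.filter fun c : Fin N → Fin (Q + 1) =>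
        (Finset.univ.filter fun j => c j ≠ 0).card ≤ g), ∏ j, wt (c j) := by
          refine Finset.sum_le_sum fun c hc => ?_
          rw [h3]
          rw [Finset.mem_filter] at hc
          exact pow_le_pow_of_le_one (by positivity) (inv_le_one_of_one_le₀ hs1) hc.2
      _ ≤ ∑ c : Fin N → Fin (Q + 1), ∏ j, wt (c j) :=
          Finset.sum_le_sum_of_subset_of_nonneg (Finset.filter_subset _ _) fun c _ _ => hwt0 c
  have h5 : (0 : ℝ) < (s : ℝ) ^ g := by positivity
  rw [inv_pow, ← div_eq_mul_inv, div_le_iff₀ h5] at h4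
  linarith

lemma card_code {p : ℕ} {Z : Set T} {Q : ℕ} (lab : T → Fin Q) (N : ℕ) (x : T) :
    (Finset.univ.filter fun j => code p Z lab N x j ≠ 0).card =
      Pool.Agent.H706R2.Ren.out p Z N x := by
  classical
  have e1 : Pool.Agent.H706R2.Ren.out p Z N x =
      (Finset.filter (fun i => (p ^ i) • x ∉ Z) (Finset.range N)).card := by
    unfold Pool.Agent.H706R2.Ren.out
    congr!
  rw [e1]
  refine Finset.card_bij (fun j _ => (j : ℕ)) ?_ ?_ ?_
  · intro j hj
    rw [Finset.mem_filter] at hj ⊢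
    refine ⟨Finset.mem_range.2 j.2, fun hz => hj.2 ?_⟩
    simp only [code]
    rw [if_pos hz]
  · intro a _ b _ hab
    exact Fin.ext hab
  · intro i hi
    rw [Finset.mem_filter, Finset.mem_range] at hi
    refine ⟨⟨i, hi.1⟩, ?_, rfl⟩
    rw [Finset.mem_filter]
    refine ⟨Finset.mem_univ _, ?_⟩
    simp only [code]
    rw [if_neg hi.2]
    exact Fin.succ_ne_zero _

/-- **The covering lemma.** -/
theorem covering {p : ℕ} (hp : 2 ≤ p) (μ : Measure T) [IsProbabilityMeasure μ]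
    (hinv : MeasurePreserving (fun x : T => p • x) μ μ) (h : EssInj p μ) {κ c : ℝ} (hκ : 0 < κ)
    (hc : 0 < c) : ∃ (K : ℕ) (cen : Fin K → T) (ρ : ℝ), 1 ≤ K ∧ 0 < ρ ∧ ρ * (K : ℝ) ^ 2 ≤ c ∧
      μ.real (U cen ρ)ᶜ ≤ κ := by
  classical
  have hpR : (2 : ℝ) ≤ p := by exact_mod_cast hp
  obtain ⟨Q1, lab1, hlab1⟩ := labels (ε := 1 / (2 * (p : ℝ))) (by positivity)
  set s : ℕ := 5 * Q1 + 5 with hs
  have hs1 : 1 ≤ s := by omega
  have hsR : (0 : ℝ) < s := by exact_mod_cast hs1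
  have hq : 1 + (Q1 : ℝ) / s ≤ 6 / 5 := by
    have h1 : (Q1 : ℝ) / s ≤ 1 / 5 := by
      rw [div_le_div_iff₀ hsR (by norm_num), hs]
      push_cast
      linarith
    linarith
  obtain ⟨b, hb⟩ : ∃ b : ℕ, (s : ℝ) ^ 2 * (3 / 4 : ℝ) ^ b < 1 / 2 := by
    have h1 : Tendsto (fun b : ℕ => (s : ℝ) ^ 2 * (3 / 4 : ℝ) ^ b) atTop (𝓝 ((s : ℝ) ^ 2 * 0)) :=
      (tendsto_pow_atTop_nhds_zero_of_lt_one (by norm_num) (by norm_num)).const_mul _
    rw [mul_zero] at h1
    exact (h1.eventually (gt_mem_nhds (show (0 : ℝ) < 1 / 2 by norm_num))).exists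
  have hb1 : 1 ≤ b := by
    rcases Nat.eq_zero_or_pos b with h0 | h0
    · rw [h0, pow_zero, mul_one] at hb
      have h1 : (1 : ℝ) ≤ s := by exact_mod_cast hs1
      nlinarith
    · exact h0
  have hbR : (0 : ℝ) < b := by exact_mod_cast hb1
  obtain ⟨Z, hZm, hZκ, η, hη, hZ⟩ := local_inj (by omega : 0 < p) μ h (ε := κ / b) (by positivity)
  set η' : ℝ := min η (1 / 4) with hη'
  have hη'0 : 0 < η' := lt_min hη (by norm_num)
  have hZ' : ∀ x ∈ Z, ∀ y ∈ Z, ‖p • (x - y)‖ ≤ η' → ‖x - y‖ ≤ ‖p • (x - y)‖ / p :=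
    fun x hx y hy hxy => hZ x hx y hy (hxy.trans (min_le_left _ _))
  obtain ⟨Q0, lab0, hlab0⟩ := labels (ε := η') hη'0
  have hQ0 : 1 ≤ Q0 := by
    rcases Nat.eq_zero_or_pos Q0 with h0 | h0
    · subst h0
      exact (lab0 0).elim0
    · exact h0
  obtain ⟨g, hg⟩ : ∃ g : ℕ, (Q0 : ℝ) ^ 2 * η' * (1 / 2 : ℝ) ^ (g + 1) < c := by
    have h1 : Tendsto (fun b : ℕ => (Q0 : ℝ) ^ 2 * η' * (1 / 2 : ℝ) ^ (b + 1)) atTop
        (𝓝 ((Q0 : ℝ) ^ 2 * η' * 0)) :=
      ((tendsto_pow_atTop_nhds_zero_of_lt_one (by norm_num) (by norm_num)).comp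
        (tendsto_add_atTop_nat 1)).const_mul _
    rw [mul_zero] at h1
    exact (h1.eventually (gt_mem_nhds hc)).exists
  set g1 : ℕ := g + 1 with hg1
  have hg1R : (0 : ℝ) < g1 := by exact_mod_cast (by omega : 0 < g1)
  set N : ℕ := b * g1 with hN
  set CS := Finset.univ.filter fun c : Fin N → Fin (Q1 + 1) =>
      (Finset.univ.filter fun j => c j ≠ 0).card ≤ g1 with hCS
  set M : ℕ := CS.card with hM
  have hMle : (M : ℝ) ≤ (s : ℝ) ^ g1 * (1 + (Q1 : ℝ) / s) ^ N := card_codes Q1 s N g1 hs1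
  set Good : Set T := {x | Pool.Agent.H706R2.Ren.out p Z N x ≤ g1} with hGood
  have hgc : ∀ x ∈ Good, code p Z lab1 N x ∈ CS := by
    intro x hx
    rw [hCS, Finset.mem_filter]
    refine ⟨Finset.mem_univ _, ?_⟩
    rw [card_code]
    exact hx
  have hM1 : 1 ≤ M := by
    rw [hM, Nat.one_le_iff_ne_zero, Ne, Finset.card_eq_zero]
    intro h0
    have : (fun _ => 0 : Fin N → Fin (Q1 + 1)) ∈ CS := by
      rw [hCS, Finset.mem_filter]
      refine ⟨Finset.mem_univ _, ?_⟩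
      simp
    rw [h0] at this
    exact absurd this (Finset.notMem_empty _)
  set e : Fin (Q0 * M) ≃ Fin Q0 × CS := (finProdFinEquiv (m := Q0) (n := M)).symm.trans
    (Equiv.prodCongr (Equiv.refl _) CS.equivFin.symm) with he
  set pick : Fin Q0 × CS → T := fun a => if hx : ∃ x ∈ Good, lab0 ((p ^ N) • x) = a.1 ∧
    code p Z lab1 N x = a.2 then hx.choose else 0 with hpick
  refine ⟨Q0 * M, fun i => pick (e i), η' / (p : ℝ) ^ N, Nat.mul_pos hQ0 hM1, by positivity,
    ?_, ?_⟩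
  · have h1 : (M : ℝ) ^ 2 ≤ ((s : ℝ) ^ 2 * (3 / 2 : ℝ) ^ b) ^ g1 := by
      calc (M : ℝ) ^ 2 ≤ ((s : ℝ) ^ g1 * (1 + (Q1 : ℝ) / s) ^ N) ^ 2 := by gcongr
        _ = ((s : ℝ) ^ 2 * ((1 + (Q1 : ℝ) / s) ^ 2) ^ b) ^ g1 := by
            rw [hN, mul_pow, mul_pow, ← pow_mul, ← pow_mul, ← pow_mul, ← pow_mul, ← pow_mul]
            congr 2 <;> ring
        _ ≤ ((s : ℝ) ^ 2 * (3 / 2 : ℝ) ^ b) ^ g1 := by
            gcongr
            have : 0 ≤ (Q1 : ℝ) / s := by positivity
            nlinarith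
    have h2 : (2 : ℝ) ^ N ≤ (p : ℝ) ^ N := pow_le_pow_left₀ (by norm_num) hpR _
    have h3 : (M : ℝ) ^ 2 / (p : ℝ) ^ N ≤ (1 / 2 : ℝ) ^ g1 := by
      calc (M : ℝ) ^ 2 / (p : ℝ) ^ N ≤ ((s : ℝ) ^ 2 * (3 / 2 : ℝ) ^ b) ^ g1 / (2 : ℝ) ^ N := by
            gcongr
        _ = ((s : ℝ) ^ 2 * (3 / 4 : ℝ) ^ b) ^ g1 := by
            rw [hN, pow_mul, ← div_pow]
            congr 1
            rw [mul_div_assoc, ← div_pow]
            norm_num
        _ ≤ (1 / 2 : ℝ) ^ g1 := by gcongr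
    calc η' / (p : ℝ) ^ N * ((Q0 * M : ℕ) : ℝ) ^ 2
        = (Q0 : ℝ) ^ 2 * η' * ((M : ℝ) ^ 2 / (p : ℝ) ^ N) := by push_cast; ring
      _ ≤ (Q0 : ℝ) ^ 2 * η' * (1 / 2 : ℝ) ^ g1 := by gcongr
      _ ≤ c := hg.le
  · have hsub : (U (fun i => pick (e i)) (η' / (p : ℝ) ^ N))ᶜ ⊆
        {y | (g1 : ℝ) ≤ Pool.Agent.H706R2.Ren.out p Z N y} := by
      intro x hx
      by_contra hcon
      apply hx
      have hxG : x ∈ Good := by
        simp only [mem_ofPred_eq, not_le] at hcon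
        have : Pool.Agent.H706R2.Ren.out p Z N x < g1 := by exact_mod_cast hcon
        exact this.le
      unfold U
      rw [mem_iUnion]
      set a : Fin Q0 × CS := (lab0 ((p ^ N) • x), ⟨code p Z lab1 N x, hgc x hxG⟩) with ha
      refine ⟨e.symm a, ?_⟩
      have hex : ∃ x ∈ Good, lab0 ((p ^ N) • x) = a.1 ∧ code p Z lab1 N x = a.2 :=
        ⟨x, hxG, rfl, rfl⟩
      have hp1 : pick (e (e.symm a)) = hex.choose := by
        rw [Equiv.apply_symm_apply, hpick]
        simp only [dif_pos hex]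
      show x ∈ Metric.closedBall (pick (e (e.symm a))) _
      rw [Metric.mem_closedBall, dist_eq_norm, hp1]
      have hsp := hex.choose_spec
      refine same_code (by omega : 0 < p) (min_le_right _ _) hZ' hlab1 N x hex.choose ?_ ?_
      · rw [smul_sub]
        exact hlab0 _ _ hsp.2.1.symm
      · exact hsp.2.2.symm
    have h1 := markov_gen p μ hinv hZm N (a := (g1 : ℝ))
    have h2 : (N : ℝ) * μ.real Zᶜ ≤ g1 * κ := by
      calc (N : ℝ) * μ.real Zᶜ ≤ N * (κ / b) := by gcongr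
        _ = g1 * κ := by rw [hN]; push_cast; field_simp
    have h3 : μ.real {y | (g1 : ℝ) ≤ Pool.Agent.H706R2.Ren.out p Z N y} ≤ κ :=
      le_of_mul_le_mul_left (h1.trans h2) hg1R
    exact (measureReal_mono hsub).trans h3

end Pool.Agent.W764.FB
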