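import Pool.Agent.W764.FB.Host1

/-!
A finite measure on the circle is determined by its Fourier coefficients.
-/

set_option autoImplicit false

open MeasureTheory Filter Topology Set
open scoped ENNReal BoundedContinuousFunction

namespace Pool.Agent.W764.FB

lemma integrable_cont (μ : Measure T) [IsFiniteMeasure μ] (f : C(T, ℂ)) : Integrable f μ :=
  Pool.Agent.H847R3.XpXq.integrable_of_contC f.continuous μ

/-- approximation of continuous functions by trigonometric polynomials -/
lemma trig_approx (f : C(T, ℂ)) {ε : ℝ} (hε : 0 < ε) :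
    ∃ (M : Finset ℤ) (c : ℤ → ℂ), ∀ x, ‖f x - ∑ m ∈ M, c m * fourier m x‖ ≤ ε := by
  have hmem : f ∈ (Submodule.span ℂ (range (fourier (T := (1 : ℝ))))).topologicalClosure := by
    rw [span_fourier_closure_eq_top]
    exact Submodule.mem_top
  rw [← SetLike.mem_coe, Submodule.topologicalClosure_coe] at hmem
  obtain ⟨g, hg, hfg⟩ := Metric.mem_closure_iff.1 hmem ε hε
  rw [SetLike.mem_coe] at hg
  obtain ⟨c, hc⟩ := (Finsupp.mem_span_range_iff_exists_finsupp).1 hg
  refine ⟨c.support, c, fun x => ?_⟩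
  have e : ∑ m ∈ c.support, c m * fourier m x = g x := by
    rw [← hc, Finsupp.sum, ContinuousMap.coe_sum, Finset.sum_apply]
    rfl
  rw [e]
  have h1 : ‖(f - g) x‖ ≤ ‖f - g‖ := ContinuousMap.norm_coe_le_norm _ _
  rw [dist_eq_norm] at hfg
  exact h1.trans hfg.le

theorem ext_fourier {μ ν : Measure T} [IsFiniteMeasure μ] [IsFiniteMeasure ν]
    (h : ∀ m : ℤ, ∫ x, fourier m x ∂μ = ∫ x, fourier m x ∂ν) : μ = ν := by
  have hmass : ∀ (κ : Measure T) [IsFiniteMeasure κ] (f g : C(T, ℂ)) (ε : ℝ),
      (∀ x, ‖f x - g x‖ ≤ ε) → ‖∫ x, f x ∂κ - ∫ x, g x ∂κ‖ ≤ ε * κ.real univ := by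
    intro κ _ f g ε hε
    rw [← integral_sub (integrable_cont κ f) (integrable_cont κ g)]
    exact norm_integral_le_of_norm_le_const (Eventually.of_forall hε)
  have hC : ∀ f : C(T, ℂ), ∫ x, f x ∂μ = ∫ x, f x ∂ν := by
    intro f
    by_contra hne
    have hpos : 0 < ‖∫ x, f x ∂μ - ∫ x, f x ∂ν‖ := norm_pos_iff.2 (sub_ne_zero.2 hne)
    set D := ‖∫ x, f x ∂μ - ∫ x, f x ∂ν‖ with hD
    set V : ℝ := μ.real univ + ν.real univ + 1 with hV
    have hV0 : 0 < V := by
      have := measureReal_nonneg (μ := μ) (s := univ)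
      have := measureReal_nonneg (μ := ν) (s := univ)
      linarith
    obtain ⟨M, c, hc⟩ := trig_approx f (ε := D / (2 * V)) (by positivity)
    set g : C(T, ℂ) := ∑ m ∈ M, c m • fourier m with hg
    have hgx : ∀ x, g x = ∑ m ∈ M, c m * fourier m x := by
      intro x
      rw [hg, ContinuousMap.coe_sum, Finset.sum_apply]
      rfl
    have h1 := hmass μ f g (D / (2 * V)) (fun x => by rw [hgx]; exact hc x)
    have h2 := hmass ν f g (D / (2 * V)) (fun x => by rw [hgx]; exact hc x)
    have h3 : ∫ x, g x ∂μ = ∫ x, g x ∂ν := by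
      simp_rw [hgx]
      rw [integral_finsetSum _ (fun m _ => (integrable_cont μ (fourier m)).const_mul _),
        integral_finsetSum _ (fun m _ => (integrable_cont ν (fourier m)).const_mul _)]
      refine Finset.sum_congr rfl fun m _ => ?_
      rw [integral_const_mul, integral_const_mul, h m]
    have h4 : D ≤ D / (2 * V) * μ.real univ + D / (2 * V) * ν.real univ := by
      calc D = ‖(∫ x, f x ∂μ - ∫ x, g x ∂μ) - (∫ x, f x ∂ν - ∫ x, g x ∂ν)‖ := by
            rw [hD, h3]; congr 1; ring
        _ ≤ _ := (norm_sub_le _ _).trans (add_le_add h1 h2)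
    have h5 : D / (2 * V) * μ.real univ + D / (2 * V) * ν.real univ ≤ D / (2 * V) * V := by
      rw [← mul_add]
      exact mul_le_mul_of_nonneg_left (by linarith) (by positivity)
    have h6 : D / (2 * V) * V = D / 2 := by field_simp
    linarith
  refine ext_of_forall_integral_eq_of_IsFiniteMeasure fun f => ?_
  have h1 := hC ⟨fun x => ((f x : ℝ) : ℂ), Complex.continuous_ofReal.comp f.continuous⟩
  simp only [ContinuousMap.coe_mk] at h1
  rw [integral_complex_ofReal, integral_complex_ofReal] at h1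
  exact_mod_cast h1

theorem eq_volume {μ : Measure T} [IsProbabilityMeasure μ]
    (h : ∀ m : ℤ, m ≠ 0 → ∫ x, fourier m x ∂μ = 0) : μ = volume := by
  refine ext_fourier fun m => ?_
  rcases eq_or_ne m 0 with rfl | hm
  · simp
  · rw [h m hm, Pool.Agent.H847R3.XpXq.integral_fourier_zero hm]

end Pool.Agent.W764.FB
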