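import Pool.Agent.H706R2.Ren2
import Pool.Agent.H847R3.XpXqE

/-!
Fibre sums over the preimages of `x ↦ p x` on the circle and the transfer identity.
-/

set_option autoImplicit false

open MeasureTheory Filter Topology Set
open scoped ENNReal

namespace Pool.Agent.W764.FB

abbrev T := UnitAddCircle

/-- the point `k / p ^ n` of the circle -/
noncomputable def hh (p n k : ℕ) : T := (((k : ℝ) / (p : ℝ) ^ n : ℝ) : T)

/-- fibre sum -/
noncomputable def fs (p n : ℕ) (g : T → ℝ≥0∞) (x : T) : ℝ≥0∞ :=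
  ∑ k ∈ Finset.range (p ^ n), g (x + hh p n k)

lemma measurable_fs (p n : ℕ) {g : T → ℝ≥0∞} (hg : Measurable g) : Measurable (fs p n g) := by
  unfold fs
  exact Finset.measurable_fun_sum _ fun k _ => hg.comp (measurable_add_const _)

/-- sums of a periodic function over a period -/
lemma sum_shift {p : ℕ} (hp : 0 < p) (F : ℤ → ℝ≥0∞) (hF : ∀ j : ℤ, F (j + p) = F j) (k : ℤ) :
    ∑ j ∈ Finset.range p, F ((j : ℤ) + k) = ∑ j ∈ Finset.range p, F j := by
  have hper : Function.Periodic F (p : ℤ) := hF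
  have hmod : ∀ j : ℤ, F (j % p) = F j := by
    intro j
    have h1 : F (j % p + (j / p) * p) = F (j % p) := hper.int_mul (j / p) (j % p)
    have h2 : j % (p : ℤ) + j / p * p = j := Int.emod_add_ediv_mul j p
    rw [h2] at h1
    exact h1.symm
  have hpz : (0 : ℤ) < p := by exact_mod_cast hp
  refine Finset.sum_nbij' (fun j => (((j : ℤ) + k) % p).toNat) (fun j => (((j : ℤ) - k) % p).toNat)
    ?_ ?_ ?_ ?_ ?_
  · intro j hj
    have h1 := Int.emod_nonneg ((j : ℤ) + k) hpz.ne'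
    have h2 := Int.emod_lt_of_pos ((j : ℤ) + k) hpz
    rw [Finset.mem_range]
    omega
  · intro j hj
    have h1 := Int.emod_nonneg ((j : ℤ) - k) hpz.ne'
    have h2 := Int.emod_lt_of_pos ((j : ℤ) - k) hpz
    rw [Finset.mem_range]
    omega
  · intro j hj
    rw [Finset.mem_range] at hj
    have h1 := Int.emod_nonneg ((j : ℤ) + k) hpz.ne'
    have e1 : (((((j : ℤ) + k) % p).toNat : ℕ) : ℤ) = ((j : ℤ) + k) % p := Int.toNat_of_nonneg h1
    have e2 : ((((((j : ℤ) + k) % p).toNat : ℕ) : ℤ) - k) % p = (j : ℤ) := by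
      rw [e1, Int.sub_emod, Int.emod_emod_of_dvd _ (dvd_refl _), ← Int.sub_emod,
        add_sub_cancel_right]
      exact Int.emod_eq_of_lt (by positivity) (by exact_mod_cast hj)
    show (((((((j : ℤ) + k) % p).toNat : ℕ) : ℤ) - k) % p).toNat = j
    rw [e2]
    simp
  · intro j hj
    rw [Finset.mem_range] at hj
    have h1 := Int.emod_nonneg ((j : ℤ) - k) hpz.ne'
    have e1 : (((((j : ℤ) - k) % p).toNat : ℕ) : ℤ) = ((j : ℤ) - k) % p := Int.toNat_of_nonneg h1
    have e2 : ((((((j : ℤ) - k) % p).toNat : ℕ) : ℤ) + k) % p = (j : ℤ) := by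
      rw [e1, Int.add_emod, Int.emod_emod_of_dvd _ (dvd_refl _), ← Int.add_emod,
        sub_add_cancel]
      exact Int.emod_eq_of_lt (by positivity) (by exact_mod_cast hj)
    show (((((((j : ℤ) - k) % p).toNat : ℕ) : ℤ) + k) % p).toNat = j
    rw [e2]
    simp
  · intro j hj
    have h1 := Int.emod_nonneg ((j : ℤ) + k) hpz.ne'
    have e1 : (((((j : ℤ) + k) % p).toNat : ℕ) : ℤ) = ((j : ℤ) + k) % p := Int.toNat_of_nonneg h1
    rw [e1, hmod]

/-- fibre sums of order one are functions of `p x` -/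
lemma fs_one_shift {p : ℕ} (hp : 0 < p) (g : T → ℝ≥0∞) (x : T) (k : ℤ) :
    fs p 1 g (x + (((k : ℝ) / (p : ℝ) : ℝ) : T)) = fs p 1 g x := by
  have hpR : (p : ℝ) ≠ 0 := by exact_mod_cast hp.ne'
  set F : ℤ → ℝ≥0∞ := fun j => g (x + (((j : ℝ) / (p : ℝ) : ℝ) : T)) with hF
  have hper : ∀ j : ℤ, F (j + p) = F j := by
    intro j
    simp only [hF]
    congr 2
    push_cast
    rw [add_div, div_self hpR, AddCircle.coe_add]
    have : ((1 : ℝ) : T) = 0 := AddCircle.coe_period 1
    rw [this, add_zero]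
  have h := sum_shift hp F hper k
  have e1 : fs p 1 g (x + (((k : ℝ) / (p : ℝ) : ℝ) : T)) = ∑ j ∈ Finset.range p, F ((j : ℤ) + k) := by
    unfold fs hh
    rw [pow_one, pow_one]
    refine Finset.sum_congr rfl fun j _ => ?_
    simp only [hF]
    congr 1
    rw [add_assoc, ← AddCircle.coe_add]
    congr 2
    push_cast
    ring
  have e2 : fs p 1 g x = ∑ j ∈ Finset.range p, F j := by
    unfold fs hh
    rw [pow_one, pow_one]
    refine Finset.sum_congr rfl fun j _ => ?_
    simp only [hF]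
    push_cast
    rfl
  rw [e1, e2, h]

/-- a function of `p x` -/
lemma fs_one_sec {p : ℕ} (hp : 0 < p) (g : T → ℝ≥0∞) (x : T) :
    fs p 1 g (Pool.Agent.H847R3.XpXq.sec p (p • x)) = fs p 1 g x := by
  obtain ⟨k, hk⟩ := Pool.Agent.H847R3.XpXq.sec_spec (a := (p : ℤ)) (by exact_mod_cast hp.ne') x
  rw [natCast_zsmul] at hk
  rw [hk]
  exact fs_one_shift hp g x k

lemma smul_hh (p n k : ℕ) (hp : 0 < p) : p • hh p (n + 1) k = hh p n k := by
  unfold hh
  have hpR : (p : ℝ) ≠ 0 := by exact_mod_cast hp.ne'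
  rw [← AddCircle.coe_nsmul]
  congr 1
  rw [nsmul_eq_mul, pow_succ]
  field_simp

lemma fs_succ {p : ℕ} (hp : 0 < p) (n : ℕ) (g : T → ℝ≥0∞) (x : T) :
    fs p (n + 1) g x = ∑ l ∈ Finset.range (p ^ n), fs p 1 g (x + hh p (n + 1) l) := by
  have hpR : (p : ℝ) ≠ 0 := by exact_mod_cast hp.ne'
  unfold fs
  rw [pow_one, Finset.sum_comm, pow_succ', Finset.sum_range]
  rw [← (finProdFinEquiv (m := p) (n := p ^ n)).sum_comp, Fintype.sum_prod_type]
  simp only [Finset.sum_range]
  refine Finset.sum_congr rfl fun j _ => Finset.sum_congr rfl fun l _ => ?_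
  congr 1
  rw [add_assoc]
  congr 1
  unfold hh
  rw [← AddCircle.coe_add]
  congr 1
  simp only [finProdFinEquiv_apply_val]
  push_cast
  rw [pow_one, pow_succ]
  field_simp

end Pool.Agent.W764.FB
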