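import Pool.Agent.W764.FB.Host1

/-!
The density of an invariant measure with respect to its average over the fibres of `x ↦ p x`, and
the transfer identity.
-/

set_option autoImplicit false

open MeasureTheory Filter Topology Set
open scoped ENNReal

namespace Pool.Agent.W764.FB

/-- the sum of the translates of `μ` by `k / p`, `k < p` -/
noncomputable def mu1 (p : ℕ) (μ : Measure T) : Measure T :=
  ∑ k ∈ Finset.range p, μ.map (fun x => x + hh p 1 k)

lemma lintegral_mu1 (p : ℕ) (μ : Measure T) {g : T → ℝ≥0∞} (hg : Measurable g) :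
    ∫⁻ x, g x ∂(mu1 p μ) = ∫⁻ x, fs p 1 g x ∂μ := by
  unfold mu1 fs
  have h1 : ∀ k ∈ Finset.range (p ^ 1), Measurable fun x : T => g (x + hh p 1 k) :=
    fun k _ => hg.comp (measurable_add_const (hh p 1 k))
  rw [lintegral_finsetSum_measure, lintegral_finsetSum _ h1, pow_one]
  exact Finset.sum_congr rfl fun k _ => lintegral_map hg (measurable_add_const _)

instance (p : ℕ) (μ : Measure T) [IsFiniteMeasure μ] : IsFiniteMeasure (mu1 p μ) := by
  refine ⟨?_⟩
  have h := lintegral_mu1 p μ (g := fun _ => 1) measurable_const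
  rw [lintegral_one] at h
  rw [h]
  unfold fs
  simp only [Finset.sum_const, nsmul_eq_mul, mul_one, lintegral_const]
  exact ENNReal.mul_lt_top (ENNReal.natCast_lt_top _) (measure_lt_top _ _)

lemma hh_zero (p n : ℕ) : hh p n 0 = 0 := by
  unfold hh
  rw [Nat.cast_zero, zero_div]
  rfl

lemma le_mu1 {p : ℕ} (hp : 0 < p) (μ : Measure T) : μ ≤ mu1 p μ := by
  rw [Measure.le_iff]
  intro s hs
  have h1 : ∫⁻ x, s.indicator 1 x ∂(mu1 p μ) = ∫⁻ x, fs p 1 (s.indicator 1) x ∂μ :=
    lintegral_mu1 p μ (measurable_one.indicator hs)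
  rw [lintegral_indicator_one hs] at h1
  rw [h1, ← lintegral_indicator_one hs]
  refine lintegral_mono fun x => ?_
  unfold fs
  refine le_trans ?_ (Finset.single_le_sum (f := fun k => s.indicator (1 : T → ℝ≥0∞) (x + hh p 1 k))
    (fun _ _ => zero_le) (Finset.mem_range.2 (show 0 < p ^ 1 by rwa [pow_one])))
  rw [hh_zero, add_zero]

/-- The density of `μ` with respect to the sum of its translates by `k / p`. -/
theorem exists_density {p : ℕ} (hp : 0 < p) (μ : Measure T) [IsFiniteMeasure μ] :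
    ∃ ψ : T → ℝ≥0∞, Measurable ψ ∧ (∀ x, ψ x ≤ 1) ∧
      ∀ g : T → ℝ≥0∞, Measurable g → ∫⁻ x, fs p 1 (fun y => ψ y * g y) x ∂μ = ∫⁻ x, g x ∂μ := by
  have hle := le_mu1 hp μ
  have hfin : IsFiniteMeasure (mu1 p μ) := inferInstance
  have hdec : μ.HaveLebesgueDecomposition (mu1 p μ) := Measure.haveLebesgueDecomposition_of_sigmaFinite _ _
  have hac : μ ≪ mu1 p μ := hle.absolutelyContinuous
  refine ⟨fun x => min (μ.rnDeriv (mu1 p μ) x) 1, (Measure.measurable_rnDeriv _ _).min
    measurable_const, fun x => min_le_right _ _, fun g hg => ?_⟩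
  have hψm : Measurable fun x => min (μ.rnDeriv (mu1 p μ) x) 1 :=
    (Measure.measurable_rnDeriv _ _).min measurable_const
  have hae : (fun x => min (μ.rnDeriv (mu1 p μ) x) 1) =ᵐ[mu1 p μ] μ.rnDeriv (mu1 p μ) := by
    filter_upwards [Measure.rnDeriv_le_one_of_le hle] with x hx
    exact min_eq_left hx
  have h1 : (mu1 p μ).withDensity (fun x => min (μ.rnDeriv (mu1 p μ) x) 1) = μ := by
    rw [withDensity_congr_ae hae]
    exact Measure.withDensity_rnDeriv_eq _ _ hac
  rw [← lintegral_mu1 p μ (g := fun y => min (μ.rnDeriv (mu1 p μ) y) 1 * g y) (hψm.mul hg)]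
  conv_rhs => rw [← h1]
  rw [lintegral_withDensity_eq_lintegral_mul _ hψm hg]
  rfl

/-- the product of `ψ` along the orbit -/
noncomputable def phi (p : ℕ) (ψ : T → ℝ≥0∞) (n : ℕ) (x : T) : ℝ≥0∞ :=
  ∏ j ∈ Finset.range n, ψ ((p ^ j) • x)

lemma measurable_phi (p : ℕ) {ψ : T → ℝ≥0∞} (hψ : Measurable ψ) (n : ℕ) :
    Measurable (phi p ψ n) := by
  unfold phi
  exact Finset.measurable_fun_prod _ fun j _ => hψ.comp (continuous_nsmul _).measurable

lemma phi_succ (p : ℕ) (ψ : T → ℝ≥0∞) (n : ℕ) (x : T) :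
    phi p ψ (n + 1) x = ψ x * phi p ψ n (p • x) := by
  unfold phi
  rw [Finset.prod_range_succ', pow_zero, one_smul, mul_comm]
  congr 1
  refine Finset.prod_congr rfl fun j _ => ?_
  rw [pow_succ, mul_smul]

/-- **The transfer identity.** -/
theorem transfer {p : ℕ} (hp : 0 < p) (μ : Measure T) [IsFiniteMeasure μ]
    (hinv : MeasurePreserving (fun x : T => p • x) μ μ) {ψ : T → ℝ≥0∞} (hψ : Measurable ψ)
    (h : ∀ g : T → ℝ≥0∞, Measurable g → ∫⁻ x, fs p 1 (fun y => ψ y * g y) x ∂μ = ∫⁻ x, g x ∂μ)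
    (n : ℕ) : ∀ g : T → ℝ≥0∞, Measurable g →
      ∫⁻ x, fs p n (fun y => phi p ψ n y * g y) x ∂μ = ∫⁻ x, g x ∂μ := by
  induction n with
  | zero =>
    intro g hg
    unfold fs phi
    simp [hh_zero]
  | succ n ih =>
    intro g hg
    set H : T → ℝ≥0∞ := fun y => fs p 1 (fun z => ψ z * g z)
      (Pool.Agent.H847R3.XpXq.sec p y) with hH
    have hHm : Measurable H := (measurable_fs p 1 (hψ.mul hg)).comp
      (Pool.Agent.H847R3.XpXq.meas_sec _)
    have hHp : ∀ x, H (p • x) = fs p 1 (fun z => ψ z * g z) x := fun x => fs_one_sec hp _ x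
    have e1 : ∀ x, fs p (n + 1) (fun y => phi p ψ (n + 1) y * g y) x =
        fs p n (fun y => phi p ψ n y * H y) (p • x) := by
      intro x
      rw [fs_succ hp]
      unfold fs
      refine Finset.sum_congr rfl fun l _ => ?_
      have e2 : p • x + hh p n l = p • (x + hh p (n + 1) l) := by
        rw [smul_add, smul_hh p n l hp]
      show _ = phi p ψ n (p • x + hh p n l) * H (p • x + hh p n l)
      rw [e2, hHp]
      unfold fs
      rw [Finset.mul_sum]
      refine Finset.sum_congr rfl fun j _ => ?_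
      show phi p ψ (n + 1) (x + hh p (n + 1) l + hh p 1 j) * g (x + hh p (n + 1) l + hh p 1 j) =
        phi p ψ n (p • (x + hh p (n + 1) l)) * (ψ (x + hh p (n + 1) l + hh p 1 j) *
          g (x + hh p (n + 1) l + hh p 1 j))
      rw [phi_succ]
      have e3 : p • (x + hh p (n + 1) l + hh p 1 j) = p • (x + hh p (n + 1) l) := by
        rw [smul_add p (x + hh p (n + 1) l) (hh p 1 j)]
        have : p • hh p 1 j = 0 := by
          have h1 := smul_hh p 0 j hp
          rw [zero_add] at h1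
          rw [h1]
          unfold hh
          rw [pow_zero, div_one, AddCircle.coe_eq_zero_iff]
          exact ⟨j, by simp⟩
        rw [this, add_zero]
      rw [e3]
      ring
    calc ∫⁻ x, fs p (n + 1) (fun y => phi p ψ (n + 1) y * g y) x ∂μ
        = ∫⁻ x, fs p n (fun y => phi p ψ n y * H y) (p • x) ∂μ := lintegral_congr e1
      _ = ∫⁻ x, fs p n (fun y => phi p ψ n y * H y) x ∂μ :=
          hinv.lintegral_comp (measurable_fs p n ((measurable_phi p hψ n).mul hHm))
      _ = ∫⁻ x, H x ∂μ := ih H hHm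
      _ = ∫⁻ x, H (p • x) ∂μ := (hinv.lintegral_comp hHm).symm
      _ = ∫⁻ x, fs p 1 (fun z => ψ z * g z) x ∂μ := lintegral_congr hHp
      _ = ∫⁻ x, g x ∂μ := h g hg

end Pool.Agent.W764.FB
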