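import Pool.Agent.W764.FB.Host2

/-!
Mean squares of exponential sums over the fibres of `x ↦ p ^ n x`.
-/

set_option autoImplicit false

open MeasureTheory Filter Topology Set
open scoped ENNReal

namespace Pool.Agent.W764.FB

lemma fourier_smul (m : ℤ) (n : ℕ) (y : T) : fourier m (n • y) = fourier (m * n) y := by
  rw [fourier_apply, fourier_apply]
  congr 2
  rw [mul_zsmul, ← Nat.cast_smul_eq_nsmul ℤ]

lemma fourier_hh (p n k : ℕ) (t : ℤ) : fourier t (hh p n k) = (fourier t (hh p n 1)) ^ k := by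
  have h : hh p n k = k • hh p n 1 := by
    unfold hh
    rw [← AddCircle.coe_nsmul]
    congr 1
    rw [nsmul_eq_mul]
    push_cast
    ring
  rw [h, fourier_apply, fourier_apply]
  rw [← Nat.cast_smul_eq_nsmul ℤ, smul_comm, Nat.cast_smul_eq_nsmul, AddCircle.toCircle_nsmul]
  push_cast
  rfl

lemma fourier_add_pt (t : ℤ) (x y : T) : fourier t (x + y) = fourier t x * fourier t y := by
  rw [fourier_apply, fourier_apply, fourier_apply, smul_add, AddCircle.toCircle_add]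
  push_cast
  rfl

lemma fourier_sum_zero {p : ℕ} (hp : 0 < p) (n : ℕ) {t : ℤ} (ht : ¬ ((p : ℤ) ^ n) ∣ t) (x : T) :
    ∑ k ∈ Finset.range (p ^ n), fourier t (x + hh p n k) = 0 := by
  have hpR : (p : ℝ) ≠ 0 := by exact_mod_cast hp.ne'
  have h1 : ∀ k, fourier t (x + hh p n k) = fourier t x * (fourier t (hh p n 1)) ^ k := by
    intro k
    rw [fourier_add_pt, fourier_hh]
  simp_rw [h1]
  rw [← Finset.mul_sum]
  have hne : fourier t (hh p n 1) ≠ 1 := by
    intro h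
    rw [fourier_apply] at h
    have h2 : AddCircle.toCircle (t • hh p n 1) = 1 := by
      apply Subtype.ext
      rw [h]
      rfl
    have h3 : t • hh p n 1 = 0 := by
      apply AddCircle.injective_toCircle (T := (1 : ℝ)) one_ne_zero
      rw [h2, AddCircle.toCircle_zero]
    unfold hh at h3
    rw [← AddCircle.coe_zsmul, AddCircle.coe_eq_zero_iff] at h3
    obtain ⟨j, hj⟩ := h3
    apply ht
    refine ⟨j, ?_⟩
    have h4 : (j : ℝ) = t * (1 / (p : ℝ) ^ n) := by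
      have := hj
      simp only [zsmul_eq_mul, mul_one, Nat.cast_one] at this
      exact this
    have h5 : (t : ℝ) = (p : ℝ) ^ n * j := by
      rw [h4]
      field_simp
    exact_mod_cast h5
  have hpow : (fourier t (hh p n 1)) ^ (p ^ n) = 1 := by
    rw [← fourier_hh]
    have : hh p n (p ^ n) = 0 := by
      unfold hh
      push_cast
      rw [div_self (pow_ne_zero _ hpR)]
      exact AddCircle.coe_period 1
    rw [this]
    simp
  rw [geom_sum_eq hne, hpow, sub_self, zero_div, mul_zero]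

/-- exponential sum along `q ^ i` -/
noncomputable def es (q : ℕ) (m : ℤ) (N : ℕ) (y : T) : ℂ :=
  ∑ i ∈ Finset.range N, fourier m ((q ^ i) • y)

lemma continuous_es (q : ℕ) (m : ℤ) (N : ℕ) : Continuous (es q m N) := by
  unfold es
  exact continuous_finsetSum _ fun i _ => (fourier m).continuous.comp (continuous_nsmul _)

lemma norm_es_sq (q : ℕ) (m : ℤ) (N : ℕ) (y : T) : ((‖es q m N y‖ ^ 2 : ℝ) : ℂ) =
    ∑ i ∈ Finset.range N, ∑ j ∈ Finset.range N, fourier (m * (q ^ i : ℕ) - m * (q ^ j : ℕ)) y := by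
  have h1 : ∀ w : ℂ, ((‖w‖ ^ 2 : ℝ) : ℂ) = w * (starRingEnd ℂ) w := by
    intro w
    rw [Complex.mul_conj, Complex.normSq_eq_norm_sq]
  rw [h1]
  unfold es
  rw [map_sum, Finset.sum_mul_sum]
  refine Finset.sum_congr rfl fun i _ => Finset.sum_congr rfl fun j _ => ?_
  rw [fourier_smul, fourier_smul, ← fourier_neg, sub_eq_add_neg, fourier_add]

lemma sum_norm_es {p : ℕ} (hp : 0 < p) (q n : ℕ) (m : ℤ) (N : ℕ)
    (h : ∀ i < N, ∀ j < N, i ≠ j → ¬ ((p : ℤ) ^ n) ∣ (m * (q ^ i : ℕ) - m * (q ^ j : ℕ))) (x : T) :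
    ∑ k ∈ Finset.range (p ^ n), ‖es q m N (x + hh p n k)‖ ^ 2 = (p : ℝ) ^ n * N := by
  have h1 : ((∑ k ∈ Finset.range (p ^ n), ‖es q m N (x + hh p n k)‖ ^ 2 : ℝ) : ℂ) =
      (((p : ℝ) ^ n * N : ℝ) : ℂ) := by
    rw [Complex.ofReal_sum]
    simp_rw [norm_es_sq]
    rw [Finset.sum_comm]
    have h2 : ∀ i ∈ Finset.range N, ∑ k ∈ Finset.range (p ^ n), ∑ j ∈ Finset.range N,
        fourier (m * (q ^ i : ℕ) - m * (q ^ j : ℕ)) (x + hh p n k) = ((p : ℂ) ^ n) := by
      intro i hi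
      rw [Finset.sum_comm, Finset.sum_eq_single i]
      · simp
      · intro j hj hji
        exact fourier_sum_zero hp n (h i (Finset.mem_range.1 hi) j (Finset.mem_range.1 hj)
          (Ne.symm hji)) x
      · intro hc
        exact absurd hi hc
    rw [Finset.sum_congr rfl h2, Finset.sum_const, Finset.card_range, nsmul_eq_mul]
    push_cast
    ring
  exact_mod_cast h1

/-- the frequencies are distinct modulo `p ^ n` -/
lemma distinct_mod {p q : ℕ} (hp : p.Prime) (hq : 2 ≤ q) (hpq : ¬ p ∣ q) {C : ℕ}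
    (hC : ∀ d r : ℕ, 1 ≤ d → p ^ r ∣ q ^ d - 1 → p ^ r ≤ C * d) {m m' : ℤ} {v n N : ℕ}
    (hm : m = (p : ℤ) ^ v * m') (hm' : ¬ (p : ℤ) ∣ m') (hvn : v ≤ n) (hN : C * N ≤ p ^ (n - v))
    (hC1 : 1 ≤ C) :
    ∀ i < N, ∀ j < N, i ≠ j → ¬ ((p : ℤ) ^ n) ∣ (m * (q ^ i : ℕ) - m * (q ^ j : ℕ)) := by
  have main : ∀ i < N, ∀ j < N, i < j → ¬ ((p : ℤ) ^ n) ∣ (m * (q ^ j : ℕ) - m * (q ^ i : ℕ)) := by
    intro i hi j hj hij hd
    have hpz : Prime (p : ℤ) := Nat.prime_iff_prime_int.1 hp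
    have h1 : m * (q ^ j : ℕ) - m * (q ^ i : ℕ) =
        (p : ℤ) ^ v * (m' * ((q : ℤ) ^ i * ((q : ℤ) ^ (j - i) - 1))) := by
      have : (q : ℤ) ^ j = q ^ i * q ^ (j - i) := by
        rw [← pow_add]; congr 1; omega
      push_cast
      rw [this, hm]
      ring
    have h0 : (p : ℤ) ^ n = (p : ℤ) ^ v * (p : ℤ) ^ (n - v) := by
      rw [← pow_add]; congr 1; omega
    have hpv : (p : ℤ) ^ v ≠ 0 := pow_ne_zero _ hpz.ne_zero
    rw [h1, h0] at hd
    have h2 : (p : ℤ) ^ (n - v) ∣ m' * ((q : ℤ) ^ i * ((q : ℤ) ^ (j - i) - 1)) :=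
      (mul_dvd_mul_iff_left hpv).1 hd
    have h3 := hpz.pow_dvd_of_dvd_mul_left (n - v) hm' h2
    have hq' : ¬ (p : ℤ) ∣ (q : ℤ) ^ i := by
      intro hc
      have := hpz.dvd_of_dvd_pow hc
      exact hpq (by exact_mod_cast this)
    have h4 := hpz.pow_dvd_of_dvd_mul_left (n - v) hq' h3
    have h5 : p ^ (n - v) ∣ q ^ (j - i) - 1 := by
      have h6 : 1 ≤ q ^ (j - i) := Nat.one_le_pow _ _ (by omega)
      have h7 : ((p ^ (n - v) : ℕ) : ℤ) ∣ ((q ^ (j - i) - 1 : ℕ) : ℤ) := by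
        rw [Nat.cast_sub h6]
        push_cast
        exact h4
      exact_mod_cast h7
    have h8 := hC (j - i) (n - v) (by omega) h5
    have h9 : C * (j - i) < C * N := Nat.mul_lt_mul_of_pos_left (by omega) (by omega)
    omega
  intro i hi j hj hij
  rcases lt_or_gt_of_ne hij with h | h
  · have := main i hi j hj h
    intro hc
    apply this
    have e : m * (q ^ j : ℕ) - m * (q ^ i : ℕ) = -(m * (q ^ i : ℕ) - m * (q ^ j : ℕ)) := by ring
    rw [e]
    exact (dvd_neg).2 hc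
  · exact main j hj i hi h

end Pool.Agent.W764.FB
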