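import Pool.Agent.W764.FB.Host3
import Pool.Agent.W764.FB.Ext

/-!
The dichotomy: an invariant measure for which the `×q` averages of the characters converge to
constants in `L²` is Lebesgue measure, or `x ↦ p x` is injective on a set of full measure.
-/

set_option autoImplicit false

open MeasureTheory Filter Topology Set
open scoped ENNReal

namespace Pool.Agent.W764.FB

/-- the Fourier coefficient -/
noncomputable def fc (μ : Measure T) (m : ℤ) : ℂ := ∫ x, fourier m x ∂μ

/-- `L²` convergence of the `×q` averages of characters to constants -/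
def MeanErg (q : ℕ) (μ : Measure T) : Prop :=
  ∀ m : ℤ, Tendsto (fun N : ℕ => ∫ x, ‖((N : ℂ))⁻¹ * es q m N x - fc μ m‖ ^ 2 ∂μ) atTop (𝓝 0)

lemma phi_le_one (p : ℕ) {ψ : T → ℝ≥0∞} (h : ∀ x, ψ x ≤ 1) (n : ℕ) (x : T) : phi p ψ n x ≤ 1 :=
  Finset.prod_le_one' fun _ _ => h _

lemma phi_anti (p : ℕ) {ψ : T → ℝ≥0∞} (h : ∀ x, ψ x ≤ 1) (x : T) :
    Antitone fun n => phi p ψ n x := by
  refine antitone_nat_of_succ_le fun n => ?_
  unfold phi
  rw [Finset.prod_range_succ]
  exact mul_le_of_le_one_right' (h _)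

lemma phi_eventually (p : ℕ) {ψ : T → ℝ≥0∞} (h : ∀ x, ψ x ≤ 1) {c : ℝ≥0∞} (hc : c < 1) {x : T}
    (hx : ∃ᶠ n : ℕ in atTop, ψ ((p ^ n) • x) ≤ c) {δ : ℝ≥0∞} (hδ : 0 < δ) :
    ∃ n, phi p ψ n x ≤ δ := by
  have key : ∀ k : ℕ, ∃ n, phi p ψ n x ≤ c ^ k := by
    intro k
    induction k with
    | zero => exact ⟨0, by simp [phi]⟩
    | succ k ih =>
      obtain ⟨n, hn⟩ := ih
      obtain ⟨j, hj1, hj2⟩ := frequently_atTop.1 hx n
      refine ⟨j + 1, ?_⟩
      have h1 : phi p ψ (j + 1) x = phi p ψ j x * ψ ((p ^ j) • x) := by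
        unfold phi
        rw [Finset.prod_range_succ]
      rw [h1, pow_succ]
      exact mul_le_mul' ((phi_anti p h x hj1).trans hn) hj2
  have hlim : Tendsto (fun k : ℕ => c ^ k) atTop (𝓝 0) :=
    ENNReal.tendsto_pow_atTop_nhds_zero_of_lt_one hc
  obtain ⟨k, hk⟩ := (hlim.eventually (gt_mem_nhds hδ)).exists
  obtain ⟨n, hn⟩ := key k
  exact ⟨n, hn.trans hk.le⟩

/-- the mean square over the set where the weight is small -/
lemma small_weight {p q : ℕ} (hp : 0 < p) (μ : Measure T) [IsProbabilityMeasure μ]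
    (hinv : MeasurePreserving (fun x : T => p • x) μ μ) {ψ : T → ℝ≥0∞} (hψ : Measurable ψ)
    (h : ∀ g : T → ℝ≥0∞, Measurable g → ∫⁻ x, fs p 1 (fun y => ψ y * g y) x ∂μ = ∫⁻ x, g x ∂μ)
    (n N : ℕ) (m : ℤ)
    (hd : ∀ i < N, ∀ j < N, i ≠ j → ¬ ((p : ℤ) ^ n) ∣ (m * (q ^ i : ℕ) - m * (q ^ j : ℕ)))
    {δ : ℝ} (hδ : 0 ≤ δ) :
    ∫ x in {y | phi p ψ n y ≤ ENNReal.ofReal δ}, ‖es q m N x‖ ^ 2 ∂μ ≤ δ * ((p : ℝ) ^ n * N) := by
  have hset : MeasurableSet {y | phi p ψ n y ≤ ENNReal.ofReal δ} :=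
    measurableSet_le (measurable_phi p hψ n) measurable_const
  have hsq : Continuous fun x => ‖es q m N x‖ ^ 2 := (continuous_es q m N).norm.pow 2
  set g : T → ℝ≥0∞ := {y | phi p ψ n y ≤ ENNReal.ofReal δ}.indicator
    (fun y => ENNReal.ofReal (‖es q m N y‖ ^ 2)) with hg
  have hgm : Measurable g := (ENNReal.measurable_ofReal.comp hsq.measurable).indicator hset
  have h1 := transfer hp μ hinv hψ h n g hgm
  have h2 : ∫⁻ x, fs p n (fun y => phi p ψ n y * g y) x ∂μ ≤
      ENNReal.ofReal (δ * ((p : ℝ) ^ n * N)) := by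
    have h3 : ∀ x, fs p n (fun y => phi p ψ n y * g y) x ≤ ENNReal.ofReal (δ * ((p : ℝ) ^ n * N)) := by
      intro x
      have h4 : ∀ y, phi p ψ n y * g y ≤ ENNReal.ofReal (δ * ‖es q m N y‖ ^ 2) := by
        intro y
        by_cases hy : y ∈ {y | phi p ψ n y ≤ ENNReal.ofReal δ}
        · rw [hg, indicator_of_mem hy, ENNReal.ofReal_mul hδ]
          exact mul_le_mul' hy le_rfl
        · rw [hg, indicator_of_notMem hy, mul_zero]
          exact zero_le
      unfold fs
      calc ∑ k ∈ Finset.range (p ^ n), phi p ψ n (x + hh p n k) * g (x + hh p n k)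
          ≤ ∑ k ∈ Finset.range (p ^ n), ENNReal.ofReal (δ * ‖es q m N (x + hh p n k)‖ ^ 2) :=
            Finset.sum_le_sum fun k _ => h4 _
        _ = ENNReal.ofReal (∑ k ∈ Finset.range (p ^ n), δ * ‖es q m N (x + hh p n k)‖ ^ 2) := by
            rw [ENNReal.ofReal_sum_of_nonneg]
            intro k _
            positivity
        _ = ENNReal.ofReal (δ * ((p : ℝ) ^ n * N)) := by
            rw [← Finset.mul_sum, sum_norm_es hp q n m N hd]
    calc ∫⁻ x, fs p n (fun y => phi p ψ n y * g y) x ∂μ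
        ≤ ∫⁻ _, ENNReal.ofReal (δ * ((p : ℝ) ^ n * N)) ∂μ := lintegral_mono h3
      _ = ENNReal.ofReal (δ * ((p : ℝ) ^ n * N)) := by
          rw [lintegral_const, measure_univ, mul_one]
  rw [h1] at h2
  rw [integral_eq_lintegral_of_nonneg_ae (Eventually.of_forall fun x => by positivity)
    hsq.aestronglyMeasurable.restrict, ← lintegral_indicator hset]
  exact ENNReal.toReal_le_of_le_ofReal (by positivity) h2

lemma es_integrable (q : ℕ) (m : ℤ) (N : ℕ) (c : ℂ) (a : ℂ) (μ : Measure T) [IsFiniteMeasure μ] :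
    Integrable (fun x => ‖a * es q m N x - c‖ ^ 2) μ :=
  Pool.Agent.H847R3.XpXq.integrable_of_cont
    ((((continuous_es q m N).const_mul a).sub continuous_const).norm.pow 2) μ

/-- choice of the length of the sums -/
lemma exists_length {p C : ℕ} (hp : 2 ≤ p) (hC : 1 ≤ C) (v : ℕ) :
    ∃ N : ℕ → ℕ, Tendsto N atTop atTop ∧ (∀ n, C * N n ≤ p ^ (n - v)) ∧
      ∀ᶠ n in atTop, 1 ≤ N n ∧ (p : ℝ) ^ n ≤ (2 * C * p ^ v) * N n := by
  refine ⟨fun n => p ^ (n - v) / C, ?_, fun n => Nat.mul_div_le _ _, ?_⟩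
  · have h1 : Tendsto (fun n : ℕ => n / C) atTop atTop := Nat.tendsto_div_const_atTop (by omega)
    have h2 : Tendsto (fun n : ℕ => p ^ (n - v)) atTop atTop :=
      (tendsto_pow_atTop_atTop_of_one_lt (by omega)).comp (tendsto_sub_atTop_nat v)
    exact h1.comp h2
  · have h2 : Tendsto (fun n : ℕ => p ^ (n - v)) atTop atTop :=
      (tendsto_pow_atTop_atTop_of_one_lt (by omega)).comp (tendsto_sub_atTop_nat v)
    filter_upwards [h2.eventually_ge_atTop (2 * C), eventually_ge_atTop v] with n hn hv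
    have h3 : C ≤ p ^ (n - v) := by omega
    have h4 : p ^ (n - v) < C * (p ^ (n - v) / C) + C := by
      have := Nat.div_add_mod (p ^ (n - v)) C
      have := Nat.mod_lt (p ^ (n - v)) (show 0 < C by omega)
      omega
    refine ⟨Nat.div_pos h3 (by omega), ?_⟩
    have h5 : p ^ (n - v) ≤ 2 * (C * (p ^ (n - v) / C)) := by omega
    have h6 : p ^ n = p ^ v * p ^ (n - v) := by rw [← pow_add]; congr 1; omega
    have h7 : p ^ n ≤ (2 * C * p ^ v) * (p ^ (n - v) / C) := by
      rw [h6]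
      calc p ^ v * p ^ (n - v) ≤ p ^ v * (2 * (C * (p ^ (n - v) / C))) := Nat.mul_le_mul_left _ h5
        _ = (2 * C * p ^ v) * (p ^ (n - v) / C) := by ring
    exact_mod_cast h7

/-- **The dichotomy.** -/
theorem dichotomy {p q : ℕ} (hp : p.Prime) (hq : 2 ≤ q) (hpq : ¬ p ∣ q) (μ : Measure T)
    [IsProbabilityMeasure μ] (hip : MeasurePreserving (fun x : T => p • x) μ μ)
    (hme : MeanErg q μ) :
    μ = volume ∨ ∃ B : Set T, MeasurableSet B ∧ μ Bᶜ = 0 ∧
      ∀ x ∈ B, ∀ k, 1 ≤ k → k < p → x + hh p 1 k ∉ B := by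
  obtain ⟨ψ, hψm, hψ1, hψ⟩ := exists_density hp.pos μ
  by_cases h0 : μ {x | ψ x < 1} = 0
  · -- injectivity
    right
    set A : Set T := {x | ψ x = 1} with hA
    have hAm : MeasurableSet A := measurableSet_eq_fun hψm measurable_const
    have hAc : μ Aᶜ = 0 := by
      have : Aᶜ = {x | ψ x < 1} := by
        ext x
        simp only [hA, mem_compl_iff, mem_ofPred_eq]
        exact ⟨fun h => lt_of_le_of_ne (hψ1 x) h, fun h => h.ne⟩
      rw [this, h0]
    have hk : ∀ k, 1 ≤ k → k < p → μ {x | x + hh p 1 k ∈ A} = 0 := by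
      intro k hk1 hkp
      have h1 := hψ (A.indicator 1) (measurable_one.indicator hAm)
      rw [lintegral_indicator_one hAm] at h1
      have hA1 : μ A = 1 := by
        have := prob_compl_eq_zero_iff hAm (μ := μ)
        exact this.1 hAc
      have h2 : ∫⁻ x, (A.indicator (1 : T → ℝ≥0∞) x + A.indicator 1 (x + hh p 1 k)) ∂μ ≤ μ A := by
        rw [← h1]
        refine lintegral_mono fun x => ?_
        have h3 : ∀ y, ψ y * A.indicator (1 : T → ℝ≥0∞) y = A.indicator 1 y := by
          intro y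
          by_cases hy : y ∈ A
          · rw [indicator_of_mem hy]
            have : ψ y = 1 := hy
            rw [this, one_mul]
          · rw [indicator_of_notMem hy, mul_zero]
        unfold fs
        simp_rw [h3]
        have h4 : ({0, k} : Finset ℕ) ⊆ Finset.range (p ^ 1) := by
          intro j hj
          rw [Finset.mem_insert, Finset.mem_singleton] at hj
          rw [pow_one, Finset.mem_range]
          omega
        refine le_trans (le_of_eq ?_) (Finset.sum_le_sum_of_subset h4)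
        rw [Finset.sum_pair (by omega), hh_zero, add_zero]
      rw [lintegral_add_left (measurable_one.indicator hAm), lintegral_indicator_one hAm, hA1] at h2
      have h5 : ∫⁻ x, A.indicator (1 : T → ℝ≥0∞) (x + hh p 1 k) ∂μ = 0 := by
        have h6 : (1 : ℝ≥0∞) + ∫⁻ x, A.indicator (1 : T → ℝ≥0∞) (x + hh p 1 k) ∂μ ≤ 1 + 0 := by
          rw [add_zero]; exact h2
        have := (ENNReal.add_le_add_iff_left (by simp)).1 h6
        exact le_antisymm this zero_le
      have h7 : (fun x => A.indicator (1 : T → ℝ≥0∞) (x + hh p 1 k)) =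
          {x | x + hh p 1 k ∈ A}.indicator 1 := by
        ext x
        simp only [indicator, mem_ofPred_eq, Pi.one_apply]
      have hmk : MeasurableSet {x | x + hh p 1 k ∈ A} := measurable_add_const _ hAm
      rw [h7] at h5
      exact (lintegral_indicator_one hmk).symm.trans h5
    set B : Set T := A ∩ ⋂ k ∈ Finset.Ico 1 p, {x | x + hh p 1 k ∈ A}ᶜ with hB
    refine ⟨B, ?_, ?_, ?_⟩
    · exact hAm.inter (Finset.measurableSet_biInter _ fun k _ => (measurable_add_const _ hAm).compl)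
    · rw [hB, compl_inter, compl_iInter₂]
      simp only [compl_compl]
      refine measure_union_null hAc ?_
      refine (measure_biUnion_null_iff (Finset.Ico 1 p).countable_toSet).2 fun k hk' => ?_
      rw [Finset.coe_Ico, mem_Ico] at hk'
      exact hk k hk'.1 hk'.2
    · intro x hx k hk1 hkp hxk
      have h1 := hx.2
      rw [mem_iInter₂] at h1
      exact h1 k (Finset.mem_Ico.2 ⟨hk1, hkp⟩) hxk.1
  · left
    refine eq_volume fun m hm => ?_
    obtain ⟨C, hC1, hC⟩ := Pool.Agent.H706R2.Ren.ord_bound p q hp hq hpq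
    -- a set where the weight is bounded away from one
    obtain ⟨u, -, hu, hulim⟩ := exists_seq_strictMono_tendsto' (show (0 : ℝ≥0∞) < 1 by norm_num)
    obtain ⟨j, hj⟩ : ∃ j, μ {x | ψ x ≤ u j} ≠ 0 := by
      by_contra hcon
      push Not at hcon
      apply h0
      refine measure_mono_null ?_ (measure_iUnion_null hcon)
      intro x hx
      obtain ⟨j, hj⟩ := (hulim.eventually (lt_mem_nhds (show ψ x < 1 from hx))).exists
      exact mem_iUnion.2 ⟨j, hj.le⟩
    set E : Set T := {x | ψ x ≤ u j} with hE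
    have hEm : MeasurableSet E := measurableSet_le hψm measurable_const
    have hEpos : 0 < μ.real E := by
      rw [measureReal_def]
      exact ENNReal.toReal_pos hj (measure_ne_top _ _)
    have hiter : ∀ (n : ℕ) (x : T), (fun x : T => p • x)^[n] x = (p ^ n) • x := by
      intro n
      induction n with
      | zero => intro x; simp
      | succ n ih =>
        intro x
        rw [Function.iterate_succ_apply, ih, pow_succ, mul_smul]
    have hrec := hip.conservative.ae_mem_imp_frequently_image_mem hEm.nullMeasurableSet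
    have hae : ∀ᵐ x ∂μ, x ∈ E → ∀ δ : ℝ≥0∞, 0 < δ → ∃ n, phi p ψ n x ≤ δ := by
      filter_upwards [hrec] with x hx hxE δ hδ
      refine phi_eventually p hψ1 (hu j).2 ?_ hδ
      refine (hx hxE).mono fun n hn => ?_
      rw [hiter] at hn
      exact hn
    -- write `m = p ^ v * m'`
    have hpz : Prime (p : ℤ) := Nat.prime_iff_prime_int.1 hp
    obtain ⟨v, m', hm', hmv⟩ : ∃ (v : ℕ) (m' : ℤ), ¬ (p : ℤ) ∣ m' ∧ m = (p : ℤ) ^ v * m' := by
      have hfin : FiniteMultiplicity (p : ℤ) m :=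
        Int.finiteMultiplicity_iff.2 ⟨by simpa using hp.one_lt.ne', hm⟩
      obtain ⟨c, hc1, hc2⟩ := hfin.exists_eq_pow_mul_and_not_dvd
      exact ⟨_, c, hc2, hc1⟩
    obtain ⟨N, hNlim, hN1, hN2⟩ := exists_length hp.two_le hC1 v
    set D : ℝ := 2 * C * p ^ v with hD
    have hD0 : 0 ≤ D := by positivity
    have hme' : Tendsto (fun n : ℕ => ∫ x, ‖((N n : ℂ))⁻¹ * es q m (N n) x - fc μ m‖ ^ 2 ∂μ)
        atTop (𝓝 0) := (hme m).comp hNlim
    -- the main estimate
    have key : ∀ δ : ℝ, 0 < δ → ‖fc μ m‖ ^ 2 * μ.real E ≤ 2 * (δ * D) := by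
      intro δ hδ
      set F : ℕ → Set T := fun n => {y | phi p ψ n y ≤ ENNReal.ofReal δ} with hF
      have hFm : ∀ n, MeasurableSet (F n) := fun n =>
        measurableSet_le (measurable_phi p hψm n) measurable_const
      have hFmono : Monotone fun n => E ∩ F n := by
        intro a b hab x hx
        exact ⟨hx.1, (phi_anti p hψ1 x hab).trans hx.2⟩
      have hlim : Tendsto (fun n => μ.real (E ∩ F n)) atTop (𝓝 (μ.real E)) := by
        have h1 : Tendsto (fun n => μ (E ∩ F n)) atTop (𝓝 (μ (⋃ n, E ∩ F n))) :=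
          tendsto_measure_iUnion_atTop hFmono
        have h2 : μ (⋃ n, E ∩ F n) = μ E := by
          refine le_antisymm (measure_mono (iUnion_subset fun n => inter_subset_left)) ?_
          refine measure_mono_ae ?_
          filter_upwards [hae] with x hx hxE
          obtain ⟨n, hn⟩ := hx hxE (ENNReal.ofReal δ) (ENNReal.ofReal_pos.2 hδ)
          exact mem_iUnion.2 ⟨n, hxE, hn⟩
        rw [h2] at h1
        exact (ENNReal.tendsto_toReal (measure_ne_top μ E)).comp h1
      have hbound : ∀ᶠ n in atTop, ‖fc μ m‖ ^ 2 * μ.real (E ∩ F n) ≤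
          2 * (δ * D) + 2 * ∫ x, ‖((N n : ℂ))⁻¹ * es q m (N n) x - fc μ m‖ ^ 2 ∂μ := by
        filter_upwards [hN2, eventually_ge_atTop v] with n hn hvn
        have hNn : (0 : ℝ) < N n := by exact_mod_cast hn.1
        have h1 := small_weight (q := q) hp.pos μ hip hψm hψ n (N n) m
          (distinct_mod hp hq hpq hC hmv hm' hvn (hN1 n) hC1) hδ.le
        have hi1 : IntegrableOn (fun x => ‖es q m (N n) x‖ ^ 2) (F n) μ := by
          have := (es_integrable q m (N n) 0 1 μ).integrableOn (s := F n)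
          simpa using this
        have hi2 := es_integrable q m (N n) (fc μ m) ((N n : ℂ))⁻¹ μ
        have h2 : ∀ x, ‖fc μ m‖ ^ 2 ≤ 2 * ((N n : ℝ)⁻¹ ^ 2 * ‖es q m (N n) x‖ ^ 2) +
            2 * ‖((N n : ℂ))⁻¹ * es q m (N n) x - fc μ m‖ ^ 2 := by
          intro x
          set A := ((N n : ℂ))⁻¹ * es q m (N n) x with hA
          have e1 : (N n : ℝ)⁻¹ ^ 2 * ‖es q m (N n) x‖ ^ 2 = ‖A‖ ^ 2 := by
            rw [hA, norm_mul, norm_inv, Complex.norm_natCast]
            ring
          rw [e1]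
          have h3 : ‖fc μ m‖ ≤ ‖A‖ + ‖A - fc μ m‖ := by
            have := norm_sub_le A (A - fc μ m)
            rwa [sub_sub_cancel] at this
          nlinarith [norm_nonneg (fc μ m), norm_nonneg A, norm_nonneg (A - fc μ m),
            sq_nonneg (‖A‖ - ‖A - fc μ m‖)]
        have h3 : ‖fc μ m‖ ^ 2 * μ.real (F n) ≤ 2 * ((N n : ℝ)⁻¹ ^ 2 *
            ∫ x in F n, ‖es q m (N n) x‖ ^ 2 ∂μ) +
            2 * ∫ x in F n, ‖((N n : ℂ))⁻¹ * es q m (N n) x - fc μ m‖ ^ 2 ∂μ := by
          have h4 : ∫ _ in F n, ‖fc μ m‖ ^ 2 ∂μ = ‖fc μ m‖ ^ 2 * μ.real (F n) := by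
            rw [setIntegral_const, smul_eq_mul, mul_comm]
          rw [← h4]
          have h5 : ∫ x in F n, (2 * ((N n : ℝ)⁻¹ ^ 2 * ‖es q m (N n) x‖ ^ 2) +
              2 * ‖((N n : ℂ))⁻¹ * es q m (N n) x - fc μ m‖ ^ 2) ∂μ =
              2 * ((N n : ℝ)⁻¹ ^ 2 * ∫ x in F n, ‖es q m (N n) x‖ ^ 2 ∂μ) +
              2 * ∫ x in F n, ‖((N n : ℂ))⁻¹ * es q m (N n) x - fc μ m‖ ^ 2 ∂μ := by
            rw [integral_add ((hi1.const_mul _).const_mul _) (hi2.integrableOn.const_mul _),
              integral_const_mul, integral_const_mul, integral_const_mul]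
          rw [← h5]
          exact setIntegral_mono (integrableOn_const (measure_ne_top _ _))
            (((hi1.const_mul _).const_mul _).add (hi2.integrableOn.const_mul _)) h2
        have h6 : ∫ x in F n, ‖((N n : ℂ))⁻¹ * es q m (N n) x - fc μ m‖ ^ 2 ∂μ ≤
            ∫ x, ‖((N n : ℂ))⁻¹ * es q m (N n) x - fc μ m‖ ^ 2 ∂μ :=
          setIntegral_le_integral hi2 (Eventually.of_forall fun x => by positivity)
        have h7 : (N n : ℝ)⁻¹ ^ 2 * ∫ x in F n, ‖es q m (N n) x‖ ^ 2 ∂μ ≤ δ * D := by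
          calc (N n : ℝ)⁻¹ ^ 2 * ∫ x in F n, ‖es q m (N n) x‖ ^ 2 ∂μ
              ≤ (N n : ℝ)⁻¹ ^ 2 * (δ * ((p : ℝ) ^ n * N n)) :=
                mul_le_mul_of_nonneg_left h1 (by positivity)
            _ ≤ (N n : ℝ)⁻¹ ^ 2 * (δ * ((D * N n) * N n)) := by
                have := hn.2
                gcongr
            _ = δ * D := by field_simp
        have h8 : μ.real (E ∩ F n) ≤ μ.real (F n) := measureReal_mono inter_subset_right
        have h9 : ‖fc μ m‖ ^ 2 * μ.real (E ∩ F n) ≤ ‖fc μ m‖ ^ 2 * μ.real (F n) :=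
          mul_le_mul_of_nonneg_left h8 (by positivity)
        linarith
      have hl1 : Tendsto (fun n => ‖fc μ m‖ ^ 2 * μ.real (E ∩ F n)) atTop
          (𝓝 (‖fc μ m‖ ^ 2 * μ.real E)) := hlim.const_mul _
      have hl2 : Tendsto (fun n => 2 * (δ * D) + 2 * ∫ x, ‖((N n : ℂ))⁻¹ * es q m (N n) x
          - fc μ m‖ ^ 2 ∂μ) atTop (𝓝 (2 * (δ * D) + 2 * 0)) :=
        (hme'.const_mul 2).const_add _
      have := le_of_tendsto_of_tendsto hl1 hl2 hbound
      linarith
    have hfin : ‖fc μ m‖ ^ 2 * μ.real E ≤ 0 := by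
      by_contra hcon
      push Not at hcon
      have h1 := key (‖fc μ m‖ ^ 2 * μ.real E / (4 * (D + 1))) (by positivity)
      have h2 : 2 * (‖fc μ m‖ ^ 2 * μ.real E / (4 * (D + 1)) * D) ≤
          ‖fc μ m‖ ^ 2 * μ.real E / 2 := by
        rw [div_mul_eq_mul_div, ← mul_div_assoc, div_le_div_iff₀ (by positivity) (by norm_num)]
        nlinarith
      linarith
    have h1 : ‖fc μ m‖ ^ 2 = 0 := by
      have h2 : 0 ≤ ‖fc μ m‖ ^ 2 := by positivity
      by_contra hne
      have h3 : 0 < ‖fc μ m‖ ^ 2 := lt_of_le_of_ne h2 (Ne.symm hne)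
      have := mul_pos h3 hEpos
      linarith
    have h2 : fc μ m = 0 := by
      have := pow_eq_zero_iff (n := 2) (by norm_num) |>.1 h1
      exact norm_eq_zero.1 this
    exact h2

end Pool.Agent.W764.FB
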