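import Pool.Agent.W764.FB.Block

/-!
The conclusion of the chain argument for two-dimensional windows.
-/

set_option autoImplicit false

open MeasureTheory Finset Metric Filter
open scoped ENNReal Topology

namespace Pool.Agent.W764.FB

open Pool.Agent.H706R2.Ren (U out ord_bound exists_B measurableSet_U measurable_out)

lemma measurable_out2 (p q : ℕ) {S : Set T} (hS : MeasurableSet S) (r L : ℕ) :
    Measurable fun y => (out2 p q S r L y : ℝ) := by
  unfold out2
  push_cast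
  exact Finset.measurable_fun_sum _ fun a _ =>
    (measurable_out q hS L).comp (continuous_nsmul _).measurable

lemma growth2 (p : ℕ) (hp : 2 ≤ p) : ∀ᶠ j : ℕ in atTop, 64 * 2 ^ j < p ^ (2 ^ j) := by
  filter_upwards [eventually_ge_atTop 4] with j hj
  have h1 : j + 6 < 2 ^ j := by
    obtain ⟨i, rfl⟩ := Nat.exists_eq_add_of_le hj
    induction i with
    | zero => norm_num
    | succ i ih =>
      have := ih (by omega)
      rw [← add_assoc, pow_succ]
      omega
  calc 64 * 2 ^ j = 2 ^ (j + 6) := by rw [pow_add]; ring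
    _ < 2 ^ (2 ^ j) := Nat.pow_lt_pow_right (by norm_num) h1
    _ ≤ p ^ (2 ^ j) := Nat.pow_le_pow_left hp _

/-- **Conclusion of the chain argument.** -/
theorem rigid_blocks {p q : ℕ} (hp : p.Prime) (hq : 2 ≤ q) (hpq : ¬ p ∣ q) :
    ∃ (c0 : ℝ) (B : ℕ), 0 < c0 ∧ 1 ≤ B ∧ ∀ (μ : Measure T), IsProbabilityMeasure μ →
      (∀ x, μ {x} = 0) → MeasurePreserving (fun x : T => p • x) μ μ →
      ∀ (K : ℕ) (cen : Fin K → T) (ρ : ℝ), 1 ≤ K → 0 ≤ ρ → ρ * (K : ℝ) ^ 2 ≤ c0 →
      ∀ (F : ℕ → ℝ) (j1 : ℕ), (∀ j, 0 ≤ F j) →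
        (∀ j, j1 ≤ j → μ.real {y | (2 * rr (4 * p) j * (2 ^ j / B : ℕ) : ℝ) / 8 <
          out2 p q (U cen ρ) (2 * rr (4 * p) j) (2 ^ j / B) y} ≤ F j) →
        (Summable fun j => ((2 ^ j / rr (4 * p) j : ℕ) : ℝ) * F j) → False := by
  classical
  obtain ⟨C, hC1, hC⟩ := ord_bound p q hp hq hpq
  obtain ⟨B, hB1, hB⟩ := exists_B p q hp.two_le
  refine ⟨1 / (1024 * C), B, by positivity, hB1, ?_⟩
  intro μ hμ hna hip K cen ρ hK hρ hKρ F j1 hF0 hF hs
  set A : ℕ := 4 * p with hA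
  have hp2 := hp.two_le
  have hA1 : 1 ≤ A := by omega
  set J : ℕ → ℕ := fun k => Nat.log 2 k with hJ
  set R : ℕ → ℕ := fun k => 2 * rr A (J k) - 1 with hR
  set G : ℕ → Set T := fun k => if k % rr A (J k) = 0 then
    {y | (out2 p q (U cen ρ) (2 * rr A (J k)) (2 ^ (J k) / B) y : ℝ) ≤
      (2 * rr A (J k) * (2 ^ (J k) / B : ℕ) : ℝ) / 8} else Set.univ with hG
  obtain ⟨f0, hf0⟩ : ∃ f0 : ℕ, 256 * C * K ^ 2 ≤ p ^ f0 :=
    ⟨256 * C * K ^ 2, (Nat.lt_pow_self hp.one_lt).le⟩
  -- the blocks from which on everything works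
  have hev : ∀ᶠ j : ℕ in atTop, A ≤ j ∧ 4 * f0 ≤ rr A j ∧ B ^ 2 ≤ 2 ^ j ∧ B ≤ 2 ^ j ∧
      64 * 2 ^ j < p ^ (2 ^ j) := by
    have h2 : Tendsto (fun j : ℕ => 2 ^ j) atTop atTop :=
      tendsto_pow_atTop_atTop_of_one_lt (by norm_num)
    filter_upwards [eventually_ge_atTop A, (rr_tendsto A hA1).eventually_ge_atTop (4 * f0),
      h2.eventually_ge_atTop (B ^ 2), h2.eventually_ge_atTop B, growth2 p hp2] with j a b c d e
    exact ⟨a, b, c, d, e⟩
  obtain ⟨j2, hj2⟩ := eventually_atTop.1 hev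
  refine chain2 p hp2 μ hip hna G ?_ R ?_ ?_ (2 ^ j2) (fun k => k % rr A (J k)) ?_ ?_ ?_
  · intro k
    simp only [hG]
    split_ifs
    · exact measurableSet_le (measurable_out2 p q (measurableSet_U _ _) _ _) measurable_const
    · exact MeasurableSet.univ
  · intro a b hab
    simp only [hR]
    have := rr_mono A (Nat.log_mono_right (b := 2) hab)
    simp only [hJ]
    omega
  · -- the radius tends to zero
    have hlim : Tendsto (fun k : ℕ => (1 / 2 : ℝ) ^ (k / 2)) atTop (𝓝 0) :=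
      (tendsto_pow_atTop_nhds_zero_of_lt_one (by norm_num) (by norm_num)).comp
        (Nat.tendsto_div_const_atTop (by norm_num))
    refine squeeze_zero' (Eventually.of_forall fun k => by positivity) ?_ hlim
    filter_upwards [eventually_ge_atTop (2 ^ 5)] with k hk
    have h1 : 5 ≤ J k := by
      have := Nat.log_mono_right (b := 2) hk
      rw [Nat.log_pow (by norm_num)] at this
      exact this
    have h2 : 2 ^ (J k) ≤ k := Nat.pow_log_le_self 2 (by omega)
    have h3 := rr_le' A (J k)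
    have h4 : 4 * J k + 4 ≤ 2 ^ (J k) := by
      obtain ⟨i, hi⟩ := Nat.exists_eq_add_of_le h1
      rw [hi]
      clear hi
      induction i with
      | zero => norm_num
      | succ i ih =>
        rw [← add_assoc, pow_succ]
        omega
    have h5 : R k + k / 2 ≤ k := by
      simp only [hR]
      omega
    have hp0 : (0 : ℝ) < p := by exact_mod_cast hp.pos
    have hpR : (2 : ℝ) ≤ p := by exact_mod_cast hp2
    rw [div_le_iff₀ (by positivity)]
    have h6 : (1 : ℝ) ≤ (1 / 2 : ℝ) ^ (k / 2) * (p : ℝ) ^ (k / 2) := by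
      rw [← mul_pow]
      exact one_le_pow₀ (by linarith)
    calc (p : ℝ) ^ (R k) ≤ ((1 / 2 : ℝ) ^ (k / 2) * (p : ℝ) ^ (k / 2)) * (p : ℝ) ^ (R k) :=
          le_mul_of_one_le_left (by positivity) h6
      _ = (1 / 2 : ℝ) ^ (k / 2) * (p : ℝ) ^ (R k + k / 2) := by rw [pow_add]; ring
      _ ≤ (1 / 2 : ℝ) ^ (k / 2) * (p : ℝ) ^ k := by
          gcongr
          linarith
  · intro K0
    refine ⟨2 ^ K0, Nat.lt_two_pow_self.le, fun k hk => ?_⟩
    have hk1 : 1 ≤ k := (Nat.one_le_two_pow).trans hk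
    obtain ⟨b1, -, -⟩ := block_facts A k hk1
    have h1 : K0 ≤ J k := by
      have := Nat.log_mono_right (b := 2) hk
      rw [Nat.log_pow (by norm_num)] at this
      exact this
    have h2 : 2 ^ K0 ≤ 2 ^ (J k) := Nat.pow_le_pow_right (by norm_num) h1
    have h3 := Nat.mod_le k (rr A (J k))
    have b1' : 2 ^ (J k) ≤ k - k % rr A (J k) := b1
    show 2 ^ K0 + k % rr A (J k) ≤ k
    omega
  · -- separation
    intro k hk y z hy hz hyz
    have hk1 : 1 ≤ k := (Nat.one_le_two_pow).trans hk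
    obtain ⟨b1, b2, b3⟩ := block_facts A k hk1
    set j := Nat.log 2 k with hj
    have hjk : J k = j := rfl
    have hjj : j2 ≤ j := by
      have := Nat.log_mono_right (b := 2) hk
      rw [Nat.log_pow (by norm_num)] at this
      exact this
    obtain ⟨hAj, hrf, hBj, hBj', hgr⟩ := hj2 j hjj
    set r := rr A j with hr
    set L := 2 ^ j / B with hL
    have hr1 : 1 ≤ r := rr_pos A j
    have hAr : A * r ≤ j := rr_le A j hA1 hAj
    have hJ' : J (k - k % r) = j := b2
    have hGk : G (k - k % r) = {y | (out2 p q (U cen ρ) (2 * r) L y : ℝ) ≤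
        (2 * r * (L : ℕ) : ℝ) / 8} := by
      simp only [hG]
      rw [hJ', if_pos b3]
    have hy' : (p ^ (k % r)) • y ∈ G (k - k % r) := hy
    have hz' : (p ^ (k % r)) • z ∈ G (k - k % r) := hz
    rw [hGk] at hy' hz'
    have hRk : R k = 2 * r - 1 := rfl
    have hmod : k % r < r := Nat.mod_lt _ hr1
    set e := 2 * r - k % r with he
    have hp0 : (0 : ℝ) < p := by exact_mod_cast hp.pos
    -- sizes
    have hpow4 : (p ^ (2 * r)) ^ 2 ≤ 2 ^ j := by
      calc (p ^ (2 * r)) ^ 2 = (p ^ r) ^ 4 := by rw [← pow_mul, ← pow_mul]; congr 1; ring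
        _ ≤ ((2 ^ p) ^ r) ^ 4 := by
            gcongr
            exact Nat.lt_two_pow_self.le
        _ = 2 ^ (A * r) := by rw [← pow_mul, ← pow_mul, hA]; congr 1; ring
        _ ≤ 2 ^ j := Nat.pow_le_pow_right (by norm_num) hAr
    have hLlow : p ^ (2 * r) ≤ L := by
      rw [hL, Nat.le_div_iff_mul_le (by omega)]
      have h1 : (p ^ (2 * r) * B) ^ 2 ≤ (2 ^ j) ^ 2 := by
        calc (p ^ (2 * r) * B) ^ 2 = (p ^ (2 * r)) ^ 2 * B ^ 2 := by ring
          _ ≤ 2 ^ j * 2 ^ j := Nat.mul_le_mul hpow4 hBj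
          _ = (2 ^ j) ^ 2 := by ring
      exact (Nat.pow_le_pow_iff_left (n := 2) (by norm_num)).1 h1
    have hkpow : 2 ^ j ≤ k := Nat.pow_log_le_self 2 (by omega)
    set δ : ℝ := (p : ℝ) ^ (2 * r) / (p : ℝ) ^ k with hδ
    have hδ8 : 8 * ((q : ℝ) ^ L * δ) < 1 := by
      have h1 : (8 * (q ^ L * p ^ (2 * r))) ^ 2 < (p ^ (2 ^ j)) ^ 2 := by
        have h2 : (q ^ L) ^ 2 ≤ p ^ (2 ^ j) := by
          calc (q ^ L) ^ 2 = (q ^ 2) ^ L := by rw [← pow_mul, ← pow_mul, mul_comm]
            _ ≤ (p ^ B) ^ L := Nat.pow_le_pow_left hB _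
            _ = p ^ (B * L) := by rw [← pow_mul]
            _ ≤ p ^ (2 ^ j) := Nat.pow_le_pow_right hp.pos (Nat.mul_div_le _ _)
        calc (8 * (q ^ L * p ^ (2 * r))) ^ 2 = (q ^ L) ^ 2 * (64 * (p ^ (2 * r)) ^ 2) := by ring
          _ ≤ p ^ (2 ^ j) * (64 * 2 ^ j) := by gcongr
          _ < p ^ (2 ^ j) * p ^ (2 ^ j) :=
              Nat.mul_lt_mul_of_pos_left hgr (Nat.pow_pos hp.pos)
          _ = (p ^ (2 ^ j)) ^ 2 := by ring
      have h3 : 8 * (q ^ L * p ^ (2 * r)) < p ^ (2 ^ j) := lt_of_pow_lt_pow_left₀ 2 (Nat.zero_le _) h1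
      have h4 : 8 * (q ^ L * p ^ (2 * r)) < p ^ k :=
        h3.trans_le (Nat.pow_le_pow_right hp.pos hkpow)
      have h5 : 8 * ((q : ℝ) ^ L * (p : ℝ) ^ (2 * r)) < (p : ℝ) ^ k := by exact_mod_cast h4
      have e1 : 8 * ((q : ℝ) ^ L * δ) = 8 * ((q : ℝ) ^ L * (p : ℝ) ^ (2 * r)) / (p : ℝ) ^ k := by
        rw [hδ]; ring
      rw [e1, div_lt_one (by positivity)]
      exact h5
    have hR1 : R k + 1 = 2 * r := by rw [hRk]; omega
    have hmain := sep2 hp (by omega : 1 ≤ q) hpq hC1 hC hK cen hρ hKρ hf0 hrf hr1 hLlow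
      (show r < e by omega) (show e ≤ 2 * r by omega) (by positivity : 0 ≤ δ) hδ8
      ((p ^ (k % r)) • y) ((p ^ (k % r)) • z) hy' hz' ?_
    · rw [← smul_sub, ← mul_smul, ← pow_add] at hmain
      have e1 : e - 1 + k % r = R k := by rw [hRk]; omega
      rw [e1] at hmain
      refine hmain.trans (le_of_eq ?_)
      rw [hδ, ← hR1, pow_succ]
      field_simp
    · rw [← smul_sub, ← mul_smul, ← pow_add]
      have e1 : e + k % r = R k + 1 := by rw [hRk]; omega
      rw [e1]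
      refine hyz.trans (le_of_eq ?_)
      rw [hδ, hR1]
  · -- summability
    refine summable_blocks A _ (fun k => measureReal_nonneg) (fun k => measureReal_le_one) F hF0 j1
      ?_ ?_ hs
    · intro k hk
      have : G k = Set.univ := by
        simp only [hG]
        exact if_neg hk
      rw [this]
      simp
    · intro k hk
      by_cases h : k % rr A (J k) = 0
      · have e1 : (G k)ᶜ = {y | (2 * rr A (J k) * (2 ^ (J k) / B : ℕ) : ℝ) / 8 <
            out2 p q (U cen ρ) (2 * rr A (J k)) (2 ^ (J k) / B) y} := by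
          ext y
          simp only [hG, if_pos h, Set.mem_compl_iff, Set.mem_ofPred_eq, not_le]
        rw [e1]
        exact hF _ hk
      · have : G k = Set.univ := by
          simp only [hG]
          exact if_neg h
        rw [this]
        simp only [Set.compl_univ, measureReal_empty]
        exact hF0 _

end Pool.Agent.W764.FB
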