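import Pool.Agent.W764.FB.Cover

/-!
Two-dimensional windows: two points whose difference is close to `m / p ^ f` cannot both have most
of their `p ^ a q ^ i` multiples in a union of few small arcs.
-/

set_option autoImplicit false

open MeasureTheory Finset Metric Filter
open scoped ENNReal Topology

namespace Pool.Agent.W764.FB

open Pool.Agent.H706R2.Ren (U out)

/-- distinct residues in a short window of exponents -/
lemma ne_mod {p q : ℕ} (hp : p.Prime) (hq : 1 ≤ q) (hpq : ¬ p ∣ q) {C : ℕ}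
    (hC : ∀ d r : ℕ, 1 ≤ d → p ^ r ∣ q ^ d - 1 → p ^ r ≤ C * d) {m : ℤ} {f W : ℕ}
    (hm : ¬ (p : ℤ) ∣ m) (hW : C * W ≤ p ^ f) {i j : ℕ} (hij : i < j) (hd : j - i < W)
    (h : ((p : ℤ) ^ f) ∣ ((q : ℤ) ^ j - (q : ℤ) ^ i) * m) : False := by
  have hpz : Prime (p : ℤ) := Nat.prime_iff_prime_int.1 hp
  have h2 := hpz.pow_dvd_of_dvd_mul_right f hm h
  have h1 : (q : ℤ) ^ j - (q : ℤ) ^ i = (q : ℤ) ^ i * ((q : ℤ) ^ (j - i) - 1) := by
    have : (q : ℤ) ^ j = q ^ i * q ^ (j - i) := by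
      rw [← pow_add]; congr 1; omega
    rw [this]
    ring
  rw [h1] at h2
  have hq' : ¬ (p : ℤ) ∣ (q : ℤ) ^ i := by
    intro hc
    have := hpz.dvd_of_dvd_pow hc
    exact hpq (by exact_mod_cast this)
  have h4 := hpz.pow_dvd_of_dvd_mul_left f hq' h2
  have h5 : p ^ f ∣ q ^ (j - i) - 1 := by
    have h6 : 1 ≤ q ^ (j - i) := Nat.one_le_pow _ _ hq
    have h7 : ((p ^ f : ℕ) : ℤ) ∣ ((q ^ (j - i) - 1 : ℕ) : ℤ) := by
      rw [Nat.cast_sub h6]
      push_cast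
      exact h4
    exact_mod_cast h7
  have h8 := hC (j - i) f (by omega) h5
  have h9 : 0 < p ^ f := Nat.pow_pos hp.pos
  have hC0 : 0 < C := by
    rcases Nat.eq_zero_or_pos C with h0 | h0
    · rw [h0, zero_mul] at h8; omega
    · exact h0
  have h10 : C * (j - i) < C * W := Nat.mul_lt_mul_of_pos_left hd hC0
  omega

/-- counting residues close to each other -/
lemma count_close {p q : ℕ} (hp : p.Prime) (hq : 1 ≤ q) (hpq : ¬ p ∣ q) {C : ℕ}
    (hC : ∀ d r : ℕ, 1 ≤ d → p ^ r ∣ q ^ d - 1 → p ^ r ≤ C * d) {m : ℤ} {f W : ℕ}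
    (hm : ¬ (p : ℤ) ∣ m) (hW : C * W ≤ p ^ f) (A : ℕ) (I : Finset ℕ)
    (hI : ∀ i ∈ I, A ≤ i ∧ i < A + W) {B : ℝ} (hB0 : 0 ≤ B)
    (hB : ∀ i ∈ I, ∀ j ∈ I,
      ‖(((((q : ℝ) ^ i - (q : ℝ) ^ j) * m / (p : ℝ) ^ f : ℝ)) : T)‖ ≤ B / (p : ℝ) ^ f) :
    (I.card : ℝ) ≤ 2 * B + 1 := by
  have hpR : (0 : ℝ) < (p : ℝ) ^ f := by
    have : (0 : ℝ) < p := by exact_mod_cast hp.pos
    positivity
  rcases I.eq_empty_or_nonempty with h0 | ⟨i0, hi0⟩
  · rw [h0, card_empty]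
    push_cast
    linarith
  set k : ℕ → ℤ := fun i => ((q : ℤ) ^ i - (q : ℤ) ^ i0) * m -
    (p : ℤ) ^ f * round (((q : ℝ) ^ i - (q : ℝ) ^ i0) * m / (p : ℝ) ^ f) with hk
  have hkB : ∀ i ∈ I, |(k i : ℝ)| ≤ B := by
    intro i hi
    have h1 := hB i hi i0 hi0
    rw [UnitAddCircle.norm_eq, le_div_iff₀ hpR] at h1
    have e : (k i : ℝ) = (((q : ℝ) ^ i - (q : ℝ) ^ i0) * m / (p : ℝ) ^ f -
        round (((q : ℝ) ^ i - (q : ℝ) ^ i0) * m / (p : ℝ) ^ f)) * (p : ℝ) ^ f := by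
      simp only [hk]
      generalize round (((q : ℝ) ^ i - (q : ℝ) ^ i0) * m / (p : ℝ) ^ f) = rr
      push_cast
      field_simp
    rw [e, abs_mul, abs_of_pos hpR]
    exact h1
  have hmaps : ∀ i ∈ I, k i ∈ Finset.Icc (-⌊B⌋) ⌊B⌋ := by
    intro i hi
    have h1 := abs_le.1 (hkB i hi)
    rw [Finset.mem_Icc]
    constructor
    · have h2 : -(k i) ≤ ⌊B⌋ := by
        rw [Int.le_floor]
        push_cast
        linarith
      linarith
    · rw [Int.le_floor]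
      exact h1.2
  have hinj : ∀ i ∈ I, ∀ j ∈ I, k i = k j → i = j := by
    have main : ∀ i ∈ I, ∀ j ∈ I, i < j → k i ≠ k j := by
      intro i hi j hj hij hkk
      refine ne_mod hp hq hpq hC hm hW hij ?_ ?_
      · exact (by have := hI i hi; have := hI j hj; omega)
      · simp only [hk] at hkk
        exact ⟨round (((q : ℝ) ^ j - (q : ℝ) ^ i0) * m / (p : ℝ) ^ f) -
          round (((q : ℝ) ^ i - (q : ℝ) ^ i0) * m / (p : ℝ) ^ f), by linarith⟩
    intro i hi j hj hkk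
    rcases lt_trichotomy i j with h | h | h
    · exact absurd hkk (main i hi j hj h)
    · exact h
    · exact absurd hkk.symm (main j hj i hi h)
  have hc := Finset.card_le_card_of_injOn k hmaps (fun i hi j hj h => hinj i hi j hj h)
  rw [Int.card_Icc] at hc
  have hfl : 0 ≤ ⌊B⌋ := Int.floor_nonneg.2 hB0
  have h1 : ((⌊B⌋ + 1 - -⌊B⌋).toNat : ℝ) = 2 * ⌊B⌋ + 1 := by
    have h2 : (((⌊B⌋ + 1 - -⌊B⌋).toNat : ℕ) : ℤ) = 2 * ⌊B⌋ + 1 := by
      rw [Int.toNat_of_nonneg (by linarith)]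
      ring
    exact_mod_cast h2
  have h2 : (I.card : ℝ) ≤ ((⌊B⌋ + 1 - -⌊B⌋).toNat : ℝ) := by exact_mod_cast hc
  rw [h1] at h2
  have h3 := Int.floor_le B
  linarith

open Classical in
/-- the times when both points are in `S` -/
noncomputable def both (q : ℕ) (S : Set T) (L : ℕ) (y z : T) : Finset ℕ :=
  {i ∈ range L | (q ^ i) • y ∈ S ∧ (q ^ i) • z ∈ S}

lemma both_ge (q : ℕ) (S : Set T) (L : ℕ) (y z : T) :
    L ≤ (both q S L y z).card + out q S L y + out q S L z := by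
  classical
  have hsub : range L ⊆ (both q S L y z ∪ {i ∈ range L | (q ^ i) • y ∉ S}) ∪
      {i ∈ range L | (q ^ i) • z ∉ S} := by
    intro i hi
    simp only [both, mem_union, mem_filter]
    tauto
  have h1 := card_le_card hsub
  rw [card_range] at h1
  have h2 := card_union_le (both q S L y z ∪ {i ∈ range L | (q ^ i) • y ∉ S})
    {i ∈ range L | (q ^ i) • z ∉ S}
  have h3 := card_union_le (both q S L y z) {i ∈ range L | (q ^ i) • y ∉ S}
  have e1 : out q S L y = #{i ∈ range L | (q ^ i) • y ∉ S} := by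
    unfold out; congr!
  have e2 : out q S L z = #{i ∈ range L | (q ^ i) • z ∉ S} := by
    unfold out; congr!
  omega

/-- both points in the arcs, in a short window -/
lemma window_count {p q : ℕ} (hp : p.Prime) (hq : 1 ≤ q) (hpq : ¬ p ∣ q) {C : ℕ}
    (hC : ∀ d r : ℕ, 1 ≤ d → p ^ r ∣ q ^ d - 1 → p ^ r ≤ C * d) {m : ℤ} {f W : ℕ}
    (hm : ¬ (p : ℤ) ∣ m) (hW : C * W ≤ p ^ f) {K : ℕ} (cen : Fin K → T) {ρ δ : ℝ} (hρ : 0 ≤ ρ)
    (hδ0 : 0 ≤ δ) (L : ℕ) (hδ : 8 * ((q : ℝ) ^ L * δ) < 1) (y z : T) (d : ℝ) (hd : (d : T) = y - z)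
    (hη : |(p : ℝ) ^ f * d - m| ≤ δ) (A : ℕ) :
    ((Finset.filter (fun i => A ≤ i ∧ i < A + W) (both q (U cen ρ) L y z)).card : ℝ) ≤
      (K : ℝ) ^ 2 * (8 * ρ * (p : ℝ) ^ f + 2) := by
  classical
  have hpR : (0 : ℝ) < (p : ℝ) ^ f := by
    have : (0 : ℝ) < p := by exact_mod_cast hp.pos
    positivity
  set J := Finset.filter (fun i => A ≤ i ∧ i < A + W) (both q (U cen ρ) L y z) with hJ
  have hmem : ∀ i ∈ J, i < L ∧ (q ^ i) • y ∈ U cen ρ ∧ (q ^ i) • z ∈ U cen ρ := by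
    intro i hi
    rw [hJ, mem_filter, both, mem_filter, mem_range] at hi
    exact hi.1
  have hU : ∀ x ∈ U cen ρ, ∃ a, ‖x - cen a‖ ≤ ρ := by
    intro x hx
    simp only [U, Set.mem_iUnion, mem_closedBall, dist_eq_norm] at hx
    exact hx
  set Jab : Fin K → Fin K → Finset ℕ := fun a b => Finset.filter (fun i =>
    ‖(q ^ i) • y - cen a‖ ≤ ρ ∧ ‖(q ^ i) • z - cen b‖ ≤ ρ) J with hJab
  have hcover : J ⊆ (univ : Finset (Fin K × Fin K)).biUnion fun ab => Jab ab.1 ab.2 := by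
    intro i hi
    obtain ⟨-, h1, h2⟩ := hmem i hi
    obtain ⟨a, ha⟩ := hU _ h1
    obtain ⟨b, hb⟩ := hU _ h2
    rw [mem_biUnion]
    exact ⟨(a, b), mem_univ _, by rw [hJab]; exact mem_filter.2 ⟨hi, ha, hb⟩⟩
  have hcard : ∀ a b, ((Jab a b).card : ℝ) ≤ 8 * ρ * (p : ℝ) ^ f + 2 := by
    intro a b
    have hB0 : 0 ≤ 4 * ρ * (p : ℝ) ^ f + (q : ℝ) ^ L * δ := by positivity
    have h1 := count_close hp hq hpq hC hm hW A (Jab a b) (fun i hi => by
      rw [hJab] at hi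
      have := (mem_filter.1 hi).1
      rw [hJ, mem_filter] at this
      exact this.2) hB0 ?_
    · linarith
    · intro i hi j hj
      have hi' := (mem_filter.1 (by simpa only [hJab] using hi) :
        i ∈ J ∧ ‖(q ^ i) • y - cen a‖ ≤ ρ ∧ ‖(q ^ i) • z - cen b‖ ≤ ρ)
      have hj' := (mem_filter.1 (by simpa only [hJab] using hj) :
        j ∈ J ∧ ‖(q ^ j) • y - cen a‖ ≤ ρ ∧ ‖(q ^ j) • z - cen b‖ ≤ ρ)
      have hn1 : ‖(q ^ i) • (y - z) - (q ^ j) • (y - z)‖ ≤ 4 * ρ := by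
        have e : (q ^ i) • (y - z) - (q ^ j) • (y - z) =
            ((q ^ i) • y - cen a) - ((q ^ j) • y - cen a) -
            ((q ^ i) • z - cen b) + ((q ^ j) • z - cen b) := by
          rw [nsmul_sub, nsmul_sub]
          abel
        rw [e]
        have a1 := hi'.2.1
        have a2 := hj'.2.1
        have a3 := hi'.2.2
        have a4 := hj'.2.2
        have b1 := norm_add_le (((q ^ i) • y - cen a) - ((q ^ j) • y - cen a) -
            ((q ^ i) • z - cen b)) ((q ^ j) • z - cen b)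
        have b2 := norm_sub_le (((q ^ i) • y - cen a) - ((q ^ j) • y - cen a))
            ((q ^ i) • z - cen b)
        have b3 := norm_sub_le ((q ^ i) • y - cen a) ((q ^ j) • y - cen a)
        linarith
      have hsm : ∀ n : ℕ, n • (y - z) = ((n * d : ℝ) : T) := by
        intro n
        rw [← hd, ← AddCircle.coe_nsmul, nsmul_eq_mul]
      set t : ℝ := ((q : ℝ) ^ i - (q : ℝ) ^ j) * ((p : ℝ) ^ f * d - m) / (p : ℝ) ^ f with ht
      have e1 : (((((q : ℝ) ^ i - (q : ℝ) ^ j) * m / (p : ℝ) ^ f : ℝ)) : T) =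
          ((q ^ i) • (y - z) - (q ^ j) • (y - z)) - (t : T) := by
        rw [hsm, hsm, ← AddCircle.coe_sub, ← AddCircle.coe_sub]
        congr 1
        rw [ht]
        push_cast
        field_simp
        ring
      have hqd : |(q : ℝ) ^ i - (q : ℝ) ^ j| ≤ (q : ℝ) ^ L := by
        have hq1 : (1 : ℝ) ≤ q := by exact_mod_cast hq
        have c1 : (q : ℝ) ^ i ≤ (q : ℝ) ^ L := pow_le_pow_right₀ hq1 (hmem i hi'.1).1.le
        have c2 : (q : ℝ) ^ j ≤ (q : ℝ) ^ L := pow_le_pow_right₀ hq1 (hmem j hj'.1).1.le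
        have c3 : 0 ≤ (q : ℝ) ^ i := by positivity
        have c4 : 0 ≤ (q : ℝ) ^ j := by positivity
        rw [abs_le]
        constructor <;> linarith
      have ht' : ‖(t : T)‖ ≤ (q : ℝ) ^ L * δ / (p : ℝ) ^ f := by
        have c1 : ‖(t : T)‖ ≤ |t| := by
          rw [UnitAddCircle.norm_eq]
          have := round_le t 0
          simpa using this
        refine c1.trans ?_
        rw [ht, abs_div, abs_mul, abs_of_pos hpR]
        gcongr
      rw [e1]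
      refine (norm_sub_le _ _).trans ?_
      rw [add_div, mul_div_cancel_right₀ _ hpR.ne']
      exact add_le_add hn1 ht'
  calc (J.card : ℝ) ≤ (((univ : Finset (Fin K × Fin K)).biUnion fun ab => Jab ab.1 ab.2).card : ℝ) := by
        exact_mod_cast card_le_card hcover
    _ ≤ ∑ ab : Fin K × Fin K, ((Jab ab.1 ab.2).card : ℝ) := by exact_mod_cast card_biUnion_le
    _ ≤ ∑ ab : Fin K × Fin K, (8 * ρ * (p : ℝ) ^ f + 2) := sum_le_sum fun ab _ => hcard _ _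
    _ = (K : ℝ) ^ 2 * (8 * ρ * (p : ℝ) ^ f + 2) := by
        rw [sum_const, card_univ, Fintype.card_prod, Fintype.card_fin, nsmul_eq_mul]
        push_cast
        ring

/-- both points in the arcs, in a long window -/
lemma level_bound {p q : ℕ} (hp : p.Prime) (hq : 1 ≤ q) (hpq : ¬ p ∣ q) {C : ℕ} (hC1 : 1 ≤ C)
    (hC : ∀ d r : ℕ, 1 ≤ d → p ^ r ∣ q ^ d - 1 → p ^ r ≤ C * d) {m : ℤ} {f : ℕ}
    (hm : ¬ (p : ℤ) ∣ m) {K : ℕ} (cen : Fin K → T) {ρ δ : ℝ} (hρ : 0 ≤ ρ)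
    (hδ0 : 0 ≤ δ) (L : ℕ) (hδ : 8 * ((q : ℝ) ^ L * δ) < 1) (y z : T) (d : ℝ) (hd : (d : T) = y - z)
    (hη : |(p : ℝ) ^ f * d - m| ≤ δ) (hfC : C ≤ p ^ f) (hfL : p ^ f ≤ L)
    (hKρ : ρ * (K : ℝ) ^ 2 ≤ 1 / (1024 * C)) (hKf : 256 * C * K ^ 2 ≤ p ^ f) :
    ((both q (U cen ρ) L y z).card : ℝ) ≤ L / 16 := by
  classical
  have hCR : (1 : ℝ) ≤ C := by exact_mod_cast hC1
  have hpf : 0 < p ^ f := Nat.pow_pos hp.pos
  have hpR : (0 : ℝ) < (p : ℝ) ^ f := by exact_mod_cast hpf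
  set W : ℕ := p ^ f / C with hW
  have hW1 : 1 ≤ W := Nat.div_pos hfC (by omega)
  have hWR : (0 : ℝ) < W := by exact_mod_cast hW1
  have hCW : C * W ≤ p ^ f := Nat.mul_div_le _ _
  have hWlow : p ^ f ≤ 2 * C * W := by
    have h1 := Nat.div_add_mod (p ^ f) C
    have h2 := Nat.mod_lt (p ^ f) (show 0 < C by omega)
    rw [← hW] at h1
    have h3 : C ≤ C * W := Nat.le_mul_of_pos_right _ hW1
    have h4 : 2 * C * W = C * W + C * W := by ring
    omega
  have hWL : W ≤ L := (Nat.div_le_self _ _).trans hfL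
  set J := both q (U cen ρ) L y z with hJ
  have hcover : J ⊆ (range (L / W + 1)).biUnion fun t =>
      Finset.filter (fun i => t * W ≤ i ∧ i < t * W + W) J := by
    intro i hi
    have hiL : i < L := by
      rw [hJ, both, mem_filter, mem_range] at hi
      exact hi.1
    rw [mem_biUnion]
    refine ⟨i / W, ?_, ?_⟩
    · rw [mem_range]
      have := Nat.div_le_div_right (c := W) hiL.le
      omega
    · rw [mem_filter]
      have h1 := Nat.div_add_mod i W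
      have h2 := Nat.mod_lt i (show 0 < W by omega)
      rw [mul_comm] at h1
      exact ⟨hi, by omega, by omega⟩
  have h1 : (J.card : ℝ) ≤ ((L / W + 1 : ℕ) : ℝ) * ((K : ℝ) ^ 2 * (8 * ρ * (p : ℝ) ^ f + 2)) := by
    calc (J.card : ℝ) ≤ (((range (L / W + 1)).biUnion fun t =>
          Finset.filter (fun i => t * W ≤ i ∧ i < t * W + W) J).card : ℝ) := by
          exact_mod_cast card_le_card hcover
      _ ≤ ∑ t ∈ range (L / W + 1), ((Finset.filter (fun i => t * W ≤ i ∧ i < t * W + W) J).card : ℝ) := by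
          exact_mod_cast card_biUnion_le
      _ ≤ ∑ t ∈ range (L / W + 1), ((K : ℝ) ^ 2 * (8 * ρ * (p : ℝ) ^ f + 2)) := by
          refine sum_le_sum fun t _ => ?_
          have := window_count hp hq hpq hC hm hCW cen hρ hδ0 L hδ y z d hd hη (t * W)
          exact this
      _ = ((L / W + 1 : ℕ) : ℝ) * ((K : ℝ) ^ 2 * (8 * ρ * (p : ℝ) ^ f + 2)) := by
          rw [sum_const, card_range, nsmul_eq_mul]
  have h2 : ((L / W + 1 : ℕ) : ℝ) ≤ 4 * C * L / (p : ℝ) ^ f := by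
    have h3 : ((L / W + 1 : ℕ) : ℝ) * W ≤ 2 * L := by
      have h4 : (L / W + 1) * W ≤ 2 * L := by
        have h5 := Nat.div_mul_le_self L W
        have h6 : (L / W + 1) * W = L / W * W + W := by ring
        omega
      exact_mod_cast h4
    have h7 : (p : ℝ) ^ f ≤ 2 * C * W := by exact_mod_cast hWlow
    rw [le_div_iff₀ hpR]
    calc ((L / W + 1 : ℕ) : ℝ) * (p : ℝ) ^ f ≤ ((L / W + 1 : ℕ) : ℝ) * (2 * C * W) := by gcongr
      _ = 2 * C * (((L / W + 1 : ℕ) : ℝ) * W) := by ring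
      _ ≤ 2 * C * (2 * L) := by gcongr
      _ = 4 * C * L := by ring
  have hL0 : (0 : ℝ) ≤ L := Nat.cast_nonneg _
  have h8 : 4 * C * L / (p : ℝ) ^ f * ((K : ℝ) ^ 2 * (8 * ρ * (p : ℝ) ^ f + 2)) =
      L * (32 * C * (ρ * (K : ℝ) ^ 2) + 8 * C * (K : ℝ) ^ 2 / (p : ℝ) ^ f) := by
    field_simp
    ring
  have h9 : 32 * C * (ρ * (K : ℝ) ^ 2) ≤ 1 / 32 := by
    calc 32 * C * (ρ * (K : ℝ) ^ 2) ≤ 32 * C * (1 / (1024 * C)) := by gcongr
      _ = 1 / 32 := by field_simp; norm_num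
  have h10 : 8 * C * (K : ℝ) ^ 2 / (p : ℝ) ^ f ≤ 1 / 32 := by
    have : (256 * C * (K : ℝ) ^ 2) ≤ (p : ℝ) ^ f := by exact_mod_cast hKf
    rw [div_le_iff₀ hpR]
    linarith
  calc (J.card : ℝ) ≤ ((L / W + 1 : ℕ) : ℝ) * ((K : ℝ) ^ 2 * (8 * ρ * (p : ℝ) ^ f + 2)) := h1
    _ ≤ 4 * C * L / (p : ℝ) ^ f * ((K : ℝ) ^ 2 * (8 * ρ * (p : ℝ) ^ f + 2)) := by gcongr
    _ = L * (32 * C * (ρ * (K : ℝ) ^ 2) + 8 * C * (K : ℝ) ^ 2 / (p : ℝ) ^ f) := h8
    _ ≤ L * (1 / 32 + 1 / 32) := by gcongr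
    _ = L / 16 := by ring

/-- the number of `(a, i)` with `a < r`, `i < L` and `p ^ a q ^ i y` outside `S` -/
noncomputable def out2 (p q : ℕ) (S : Set T) (r L : ℕ) (y : T) : ℕ :=
  ∑ a ∈ range r, out q S L ((p ^ a) • y)

/-- **Two-dimensional separation.** -/
theorem sep2 {p q : ℕ} (hp : p.Prime) (hq : 1 ≤ q) (hpq : ¬ p ∣ q) {C : ℕ} (hC1 : 1 ≤ C)
    (hC : ∀ d r : ℕ, 1 ≤ d → p ^ r ∣ q ^ d - 1 → p ^ r ≤ C * d) {K : ℕ} (hK : 1 ≤ K)
    (cen : Fin K → T) {ρ δ : ℝ} (hρ : 0 ≤ ρ) (hKρ : ρ * (K : ℝ) ^ 2 ≤ 1 / (1024 * C)) {f0 r L e : ℕ}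
    (hf0 : 256 * C * K ^ 2 ≤ p ^ f0) (hr : 4 * f0 ≤ r) (hr1 : 1 ≤ r) (hL : p ^ (2 * r) ≤ L)
    (he : r < e) (he2 : e ≤ 2 * r) (hδ0 : 0 ≤ δ) (hδ : 8 * ((q : ℝ) ^ L * δ) < 1) (y z : T)
    (hy : (out2 p q (U cen ρ) (2 * r) L y : ℝ) ≤ (2 * r * L : ℝ) / 8)
    (hz : (out2 p q (U cen ρ) (2 * r) L z : ℝ) ≤ (2 * r * L : ℝ) / 8)
    (h : ‖(p ^ e) • (y - z)‖ ≤ δ) : ‖(p ^ (e - 1)) • (y - z)‖ ≤ δ / p := by
  have hp0 : (0 : ℝ) < p := by exact_mod_cast hp.pos
  obtain ⟨d, hd⟩ : ∃ d : ℝ, (d : T) = y - z := QuotientAddGroup.mk_surjective (y - z)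
  have hsm : ∀ n : ℕ, n • (y - z) = ((n * d : ℝ) : T) := by
    intro n
    rw [← hd, ← AddCircle.coe_nsmul, nsmul_eq_mul]
  set m : ℤ := round ((p : ℝ) ^ e * d) with hm
  have hη : |(p : ℝ) ^ e * d - m| ≤ δ := by
    have := h
    rw [hsm, UnitAddCircle.norm_eq] at this
    push_cast at this
    exact this
  by_cases hpm : (p : ℤ) ∣ m
  · obtain ⟨m', hm'⟩ := hpm
    rw [hsm, UnitAddCircle.norm_eq]
    refine (round_le _ m').trans ?_
    rw [le_div_iff₀ hp0]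
    have e1 : |((p ^ (e - 1) : ℕ) : ℝ) * d - m'| * p = |(p : ℝ) ^ e * d - m| := by
      have e2 : (p : ℝ) ^ e = (p : ℝ) ^ (e - 1) * p := by
        rw [← pow_succ]; congr 1; omega
      have e0 : (p : ℝ) ^ e * d - m = (((p ^ (e - 1) : ℕ) : ℝ) * d - m') * p := by
        rw [hm', e2]
        push_cast
        ring
      rw [e0, abs_mul, abs_of_pos hp0]
    rw [e1]
    exact hη
  · exfalso
    -- levels `a < e - f0`
    have hLpos : 0 < L := lt_of_lt_of_le (Nat.pow_pos hp.pos) hL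
    have hLR : (0 : ℝ) < L := by exact_mod_cast hLpos
    have hlev : ∀ a ∈ range (e - f0), (L : ℝ) * (15 / 16) ≤
        (out q (U cen ρ) L ((p ^ a) • y) : ℝ) + out q (U cen ρ) L ((p ^ a) • z) := by
      intro a ha
      rw [mem_range] at ha
      have hpow : p ^ f0 ≤ p ^ (e - a) := Nat.pow_le_pow_right hp.pos (by omega)
      have hpow2 : p ^ (e - a) ≤ p ^ (2 * r) := Nat.pow_le_pow_right hp.pos (by omega)
      have hK2 : 1 ≤ K ^ 2 := Nat.one_le_pow _ _ hK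
      have h1 := level_bound hp hq hpq hC1 hC (f := e - a) hpm cen hρ hδ0 L hδ ((p ^ a) • y)
        ((p ^ a) • z) ((p : ℝ) ^ a * d) (by
          rw [← smul_sub, hsm]
          push_cast
          rfl) (by
          have e3 : (p : ℝ) ^ (e - a) * ((p : ℝ) ^ a * d) = (p : ℝ) ^ e * d := by
            rw [← mul_assoc, ← pow_add]
            congr 2
            omega
          rw [e3]
          exact hη) (by
          have : C ≤ 256 * C * K ^ 2 := by nlinarith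
          omega) (hpow2.trans hL) hKρ (hf0.trans hpow)
      have h2 := both_ge q (U cen ρ) L ((p ^ a) • y) ((p ^ a) • z)
      have h3 : (L : ℝ) ≤ (both q (U cen ρ) L ((p ^ a) • y) ((p ^ a) • z)).card +
          out q (U cen ρ) L ((p ^ a) • y) + out q (U cen ρ) L ((p ^ a) • z) := by
        exact_mod_cast h2
      linarith
    have hsum := sum_le_sum hlev
    rw [sum_const, card_range, nsmul_eq_mul, sum_add_distrib] at hsum
    have hsub : range (e - f0) ⊆ range (2 * r) := by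
      rw [range_subset_range]
      omega
    have hy' : ∑ a ∈ range (e - f0), (out q (U cen ρ) L ((p ^ a) • y) : ℝ) ≤ (2 * r * L : ℝ) / 8 := by
      refine le_trans ?_ hy
      unfold out2
      push_cast
      exact sum_le_sum_of_subset_of_nonneg hsub fun _ _ _ => Nat.cast_nonneg _
    have hz' : ∑ a ∈ range (e - f0), (out q (U cen ρ) L ((p ^ a) • z) : ℝ) ≤ (2 * r * L : ℝ) / 8 := by
      refine le_trans ?_ hz
      unfold out2
      push_cast
      exact sum_le_sum_of_subset_of_nonneg hsub fun _ _ _ => Nat.cast_nonneg _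
    have hef : (3 / 4 : ℝ) * r ≤ ((e - f0 : ℕ) : ℝ) := by
      have h1 : 3 * r ≤ 4 * (e - f0) := by omega
      have h2 : (3 : ℝ) * r ≤ 4 * ((e - f0 : ℕ) : ℝ) := by exact_mod_cast h1
      linarith
    have hrR : (1 : ℝ) ≤ r := by exact_mod_cast hr1
    have h5 : (3 / 4 : ℝ) * r * (L * (15 / 16)) ≤ ((e - f0 : ℕ) : ℝ) * (L * (15 / 16)) := by
      gcongr
    have h6 : (0 : ℝ) < r * L := by positivity
    nlinarith

end Pool.Agent.W764.FB
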